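import Pool.Agent.W500.GT.Rest

/-!
Project SQ (helper869): exact squarefreeness for all discriminants and all residue classes of the
values. A resolution with three triples: `(v, u)`, `v₁ = v + j u`, `u₁ = u - y v`, `q = 1 + j y`,
`q ∣ f(v₁)`; the triples are `(v, u₁)`, `(v₁, u₁)/q`, `(v₁, u)`.
-/

set_option autoImplicit false

namespace Pool.Agent.Y869.SQ

open Finset Filter
open Pool.Agent.H376R2.MR (lam)
open Pool.Agent.W78.GT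
open Pool.Agent.W78.GA (lam_mul)
open Pool.Agent.W500.GT (TrOk exc_mono exc_prime_mul exc_mul_sqf exc_eq_zero mem_tri' NT_ne_zero
  NT_Qp Kn lam_sq)

variable {t c : ℤ}

/-- normalization of `n` -/
def nr (σ : Bool) (t m : ℤ) : ℤ := if σ then m else -m - t

lemma Qp_nr (σ : Bool) (m : ℤ) : Qp t c (nr σ t m) = Qp t c m := by
  unfold nr Qp
  split_ifs
  · rfl
  · ring

lemma nr_nr (σ : Bool) (m : ℤ) : nr σ t (nr σ t m) = m := by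
  unfold nr
  split_ifs
  · rfl
  · ring

lemma nr_inj {σ : Bool} {m m' : ℤ} (h : nr σ t m = nr σ t m') : m = m' := by
  rw [← nr_nr (t := t) σ m, h, nr_nr]

lemma exists_nr (t m : ℤ) : ∃ σ : Bool, 0 ≤ 2 * nr σ t m + t := by
  rcases le_total 0 (2 * m + t) with h | h
  · exact ⟨true, by simpa [nr] using h⟩
  · refine ⟨false, ?_⟩
    have : 2 * nr false t m + t = -(2 * m + t) := by simp [nr]; ring
    omega

/-- the value at `v + j u` -/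
def D1 (t : ℤ) (j : ℤ) (e : Tr) : ℤ := MM t e.1 e.2.1 e.2.2 j

/-- the value at `u - y v` -/
def D2 (t : ℤ) (y : ℤ) (e : Tr) : ℤ := MM t e.2.2 e.2.1 e.1 (-y)

/-- the resolution step -/
structure Rz (t : ℤ) (q j y : ℕ) (σ₁ σ₂ : Bool) (e f₁ f₂ f₃ : Tr) : Prop where
  qjy : q = 1 + j * y
  a1 : f₁.1 = e.1
  b1 : f₁.2.1 = nr σ₁ t (e.2.1 - y * e.1)
  c1 : (f₁.2.2 : ℤ) = D2 t y e
  a3 : (f₃.1 : ℤ) = D1 t j e
  b3 : f₃.2.1 = e.2.1 + j * e.2.2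
  c3 : f₃.2.2 = e.2.2
  a2 : q * f₂.1 = f₃.1
  c2 : q * f₂.2.2 = f₁.2.2
  b2 : f₂.2.1 = nr σ₂ t (e.2.1 + j * e.2.2 - y * f₂.1)

lemma D1_pos {e : Tr} (he : TrOk t c e) (j : ℕ) : 1 ≤ D1 t j e := by
  obtain ⟨h1, h2, h3, h4⟩ := he
  unfold D1 MM
  have h1' : (1 : ℤ) ≤ e.1 := by exact_mod_cast h1
  have h5 : (0 : ℤ) ≤ (2 * e.2.1 + t) * j := mul_nonneg h4 (by positivity)
  have h6 : (0 : ℤ) ≤ (j : ℤ) ^ 2 * e.2.2 := by positivity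
  linarith

/-- the identity behind the divisibility -/
lemma D2_eq {q j y : ℕ} (hq : q = 1 + j * y) (e : Tr) :
    D2 t y e = q * (q * e.2.2 - y * (2 * (e.2.1 + j * e.2.2) + t)) + (y : ℤ) ^ 2 * D1 t j e := by
  unfold D2 D1 MM
  have : (q : ℤ) = 1 + j * y := by exact_mod_cast hq
  rw [this]
  ring

lemma D2_dvd {q j y : ℕ} (hq : q = 1 + j * y) {e : Tr} (h : (q : ℤ) ∣ D1 t j e) :
    (q : ℤ) ∣ D2 t y e := by
  rw [D2_eq hq e]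
  exact dvd_add (dvd_mul_right _ _) (h.mul_left _)

lemma D1_mul {e : Tr} (he : TrOk t c e) (j : ℤ) :
    D1 t j e * e.2.2 = Qp t c (e.2.1 + j * e.2.2) := by
  have h := he.2.2.1
  unfold D1 MM
  unfold Qp at h ⊢
  linear_combination h

lemma D2_mul {e : Tr} (he : TrOk t c e) (y : ℤ) :
    (e.1 : ℤ) * D2 t y e = Qp t c (e.2.1 - y * e.1) := by
  have h := he.2.2.1
  unfold D2 MM
  unfold Qp at h ⊢
  linear_combination h

lemma exists_Rz {q j y : ℕ} (hq : q = 1 + j * y) {e : Tr} (he : TrOk t c e)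
    (h : (q : ℤ) ∣ D1 t j e) (h2 : 0 < D2 t y e) :
    ∃ (σ₁ σ₂ : Bool) (f₁ f₂ f₃ : Tr), Rz t q j y σ₁ σ₂ e f₁ f₂ f₃ ∧
      TrOk t c f₁ ∧ TrOk t c f₂ ∧ TrOk t c f₃ := by
  have hD1 := D1_pos he j
  have hq1 : 1 ≤ q := by omega
  have hq0 : (0 : ℤ) < q := by exact_mod_cast hq1
  obtain ⟨x, hx⟩ := h
  obtain ⟨P, hP⟩ := D2_dvd hq ⟨x, hx⟩
  have hx0 : 0 < x := by
    rw [hx] at hD1
    exact (mul_pos_iff_of_pos_left hq0).1 (by linarith)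
  have hP0 : 0 < P := by
    rw [hP] at h2
    exact (mul_pos_iff_of_pos_left hq0).1 h2
  obtain ⟨X, rfl⟩ : ∃ X : ℕ, (X : ℤ) = x := ⟨x.toNat, Int.toNat_of_nonneg hx0.le⟩
  obtain ⟨p, rfl⟩ : ∃ p : ℕ, (p : ℤ) = P := ⟨P.toNat, Int.toNat_of_nonneg hP0.le⟩
  have hX1 : 1 ≤ X := by exact_mod_cast hx0
  have hp1 : 1 ≤ p := by exact_mod_cast hP0
  obtain ⟨σ₁, hσ₁⟩ := exists_nr t (e.2.1 - y * e.1)
  obtain ⟨σ₂, hσ₂⟩ := exists_nr t (e.2.1 + j * e.2.2 - y * (X : ℤ))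
  refine ⟨σ₁, σ₂, (e.1, nr σ₁ t (e.2.1 - y * e.1), q * p),
    (X, nr σ₂ t (e.2.1 + j * e.2.2 - y * (X : ℤ)), p), (q * X, e.2.1 + j * e.2.2, e.2.2),
    ⟨hq, rfl, rfl, ?_, ?_, rfl, rfl, rfl, rfl, rfl⟩, ?_, ?_, ?_⟩
  · simp only
    rw [hP]
    push_cast
    rfl
  · simp only
    rw [hx]
    push_cast
    rfl
  · refine ⟨he.1, Nat.mul_pos hq1 hp1, ?_, hσ₁⟩
    simp only
    rw [Qp_nr, ← D2_mul he, hP]
    push_cast
    ring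
  · refine ⟨hX1, hp1, ?_, hσ₂⟩
    simp only
    rw [Qp_nr]
    have h1 := D1_mul he j
    have h2' := D2_eq (t := t) hq e
    rw [hP, hx] at h2'
    have h3 : (p : ℤ) = q * e.2.2 - y * (2 * (e.2.1 + j * e.2.2) + t) + (y : ℤ) ^ 2 * X := by
      have : (q : ℤ) * p = q * (q * e.2.2 - y * (2 * (e.2.1 + j * e.2.2) + t) + (y : ℤ) ^ 2 * X) := by
        rw [h2']; ring
      exact mul_left_cancel₀ hq0.ne' this
    rw [hx] at h1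
    rw [h3]
    unfold Qp at h1 ⊢
    linear_combination h1
  · refine ⟨Nat.mul_pos hq1 hX1, he.2.1, ?_, ?_⟩
    · simp only
      rw [← D1_mul he, hx]
      push_cast
      ring
    · simp only
      have h4 := he.2.2.2
      have : (0 : ℤ) ≤ (j : ℤ) * e.2.2 := by positivity
      linarith

lemma Rz_ok1 {q j y : ℕ} {σ₁ σ₂ : Bool} {e f₁ f₂ f₃ : Tr} (h : Rz t q j y σ₁ σ₂ e f₁ f₂ f₃) :
    NT f₁ = e.1 * (q * f₂.2.2) ∧ NT f₂ = f₂.1 * f₂.2.2 ∧ NT f₃ = (q * f₂.1) * e.2.2 := by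
  unfold NT
  refine ⟨?_, rfl, ?_⟩
  · rw [h.a1, h.c2]
  · rw [h.a2, h.c3]

/-- the signs -/
lemma lam_prime {q : ℕ} (hq : q.Prime) : lam q = -1 := by
  unfold lam
  rw [ArithmeticFunction.cardFactors_apply_prime hq]
  rfl

lemma lam_pm' (n : ℕ) : lam n = 1 ∨ lam n = -1 := by
  unfold lam
  exact neg_one_pow_eq_or ℤ _

lemma pat_key {q j y : ℕ} {σ₁ σ₂ : Bool} {e f₁ f₂ f₃ : Tr} (h : Rz t q j y σ₁ σ₂ e f₁ f₂ f₃)
    (hq : q.Prime) (h1 : TrOk t c f₁) (h2 : TrOk t c f₂) :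
    (lam f₁.1 = lam e.1 ∧ lam f₁.2.2 = lam e.2.2) ∨ (lam f₂.1 = lam e.1 ∧ lam f₂.2.2 = lam e.2.2) ∨
      (lam f₃.1 = lam e.1 ∧ lam f₃.2.2 = lam e.2.2) := by
  have hX : f₂.1 ≠ 0 := by have := h2.1; omega
  have hP : f₂.2.2 ≠ 0 := by have := h2.2.1; omega
  have e1 : lam f₁.2.2 = -lam f₂.2.2 := by
    rw [← h.c2, lam_mul hq.ne_zero hP, lam_prime hq, neg_one_mul]
  have e3 : lam f₃.1 = -lam f₂.1 := by
    rw [← h.a2, lam_mul hq.ne_zero hX, lam_prime hq, neg_one_mul]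
  rw [h.a1, h.c3, e1, e3]
  rcases lam_pm' f₂.2.2 with a | a <;> rcases lam_pm' f₂.1 with b | b <;>
    rcases lam_pm' e.1 with p | p <;> rcases lam_pm' e.2.2 with r | r <;>
    rw [a, b, p, r] <;> simp

/-! ### injectivity -/

lemma ok_ext {e f : Tr} (he : TrOk t c e) (hf : TrOk t c f) (h1 : e.1 = f.1)
    (h2 : e.2.1 = f.2.1) : e = f := by
  have h3 : (e.1 : ℤ) * e.2.2 = (e.1 : ℤ) * f.2.2 := by rw [he.2.2.1, h2, ← hf.2.2.1, h1]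
  have h4 : (e.1 : ℤ) ≠ 0 := by
    have : e.1 ≠ 0 := by have := he.1; omega
    exact_mod_cast this
  have h5 : (e.2.2 : ℤ) = f.2.2 := mul_left_cancel₀ h4 h3
  have h6 : e.2.2 = f.2.2 := by exact_mod_cast h5
  exact Prod.ext h1 (Prod.ext h2 h6)

lemma Rz_inj1 {q j y : ℕ} {σ₁ σ₂ τ₂ : Bool} {e e' f₁ f₂ f₃ f₂' f₃' : Tr}
    (he : TrOk t c e) (he' : TrOk t c e') (h : Rz t q j y σ₁ σ₂ e f₁ f₂ f₃)
    (h' : Rz t q j y σ₁ τ₂ e' f₁ f₂' f₃') : e = e' := by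
  have h1 : e.1 = e'.1 := h.a1.symm.trans h'.a1
  have h2 := nr_inj (h.b1.symm.trans h'.b1)
  rw [h1] at h2
  exact ok_ext he he' h1 (by linarith)

lemma Rz_inj3 {q j y : ℕ} {σ₁ σ₂ τ₁ τ₂ : Bool} {e e' f₁ f₂ f₃ f₁' f₂' : Tr}
    (h : Rz t q j y σ₁ σ₂ e f₁ f₂ f₃) (h' : Rz t q j y τ₁ τ₂ e' f₁' f₂' f₃) : e = e' := by
  have h1 : e.2.2 = e'.2.2 := h.c3.symm.trans h'.c3
  have h2 : e.2.1 = e'.2.1 := by
    have := h.b3.symm.trans h'.b3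
    rw [h1] at this
    linarith
  have h3 := h.a3.symm.trans h'.a3
  unfold D1 MM at h3
  rw [h1, h2] at h3
  have h4 : (e.1 : ℤ) = e'.1 := by linarith
  exact Prod.ext (by exact_mod_cast h4) (Prod.ext h2 h1)

lemma Rz_P {q j y : ℕ} {σ₁ σ₂ : Bool} {e f₁ f₂ f₃ : Tr} (h : Rz t q j y σ₁ σ₂ e f₁ f₂ f₃) :
    (f₂.2.2 : ℤ) = q * e.2.2 - y * (2 * (e.2.1 + j * e.2.2) + t) + (y : ℤ) ^ 2 * f₂.1 := by
  have hq0 : (q : ℤ) ≠ 0 := by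
    have := h.qjy
    have : q ≠ 0 := by omega
    exact_mod_cast this
  have h1 : (q : ℤ) * f₂.2.2 = D2 t y e := by rw [← h.c1, ← h.c2]; push_cast; rfl
  have h2 : (q : ℤ) * f₂.1 = D1 t j e := by rw [← h.a3, ← h.a2]; push_cast; rfl
  rw [D2_eq h.qjy e, ← h2] at h1
  apply mul_left_cancel₀ hq0
  rw [h1]
  ring

lemma Rz_inj2 {q j y : ℕ} {σ₁ σ₂ τ₁ : Bool} {e e' f₁ f₂ f₃ f₁' f₃' : Tr}
    (h : Rz t q j y σ₁ σ₂ e f₁ f₂ f₃) (h' : Rz t q j y τ₁ σ₂ e' f₁' f₂ f₃') : e = e' := by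
  have hq0 : (q : ℤ) ≠ 0 := by
    have := h.qjy
    have : q ≠ 0 := by omega
    exact_mod_cast this
  have h2 : e.2.1 + j * e.2.2 = e'.2.1 + j * e'.2.2 := by
    have := nr_inj (h.b2.symm.trans h'.b2)
    linarith
  have h3 := (Rz_P h).symm.trans (Rz_P h')
  rw [h2] at h3
  have h4 : (q : ℤ) * e.2.2 = q * e'.2.2 := by linarith
  have h5 : (e.2.2 : ℤ) = e'.2.2 := mul_left_cancel₀ hq0 h4
  have h6 : e.2.2 = e'.2.2 := by exact_mod_cast h5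
  have h7 : e.2.1 = e'.2.1 := by rw [h6] at h2; linarith
  have h8 : D1 t j e = D1 t j e' := by
    rw [← h.a3, ← h'.a3, ← h.a2, ← h'.a2]
  unfold D1 MM at h8
  rw [h6, h7] at h8
  have h9 : (e.1 : ℤ) = e'.1 := by linarith
  exact Prod.ext (by exact_mod_cast h9) (Prod.ext h7 h6)

/-! ### the excess -/

lemma exc_key {p q j y : ℕ} {σ₁ σ₂ : Bool} {e f₁ f₂ f₃ : Tr}
    (he : TrOk t c e) (h : Rz t q j y σ₁ σ₂ e f₁ f₂ f₃)
    (h1 : TrOk t c f₁) (h2 : TrOk t c f₂) (h3 : TrOk t c f₃)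
    (hx1 : ∀ l : ℕ, l.Prime → l ∣ f₁.2.2 → ¬ l ∣ e.1 ∧ ¬ l ^ 2 ∣ f₁.2.2)
    (hx3 : ∀ l : ℕ, l.Prime → l ∣ f₃.1 → ¬ l ∣ e.2.2 ∧ ¬ l ^ 2 ∣ f₃.1)
    (hx2 : ∀ l : ℕ, l.Prime → l ∣ f₂.1 → ¬ l ∣ f₂.2.2)
    (hp : (p = 1 ∧ exc (NT e) = 0) ∨ (p.Prime ∧ p ∣ e.1 ∧ p ∣ e.2.2)) :
    exc (NT f₁) ≤ exc (NT e) - 1 ∧ exc (NT f₂) ≤ exc (NT e) - 1 ∧
      exc (NT f₃) ≤ exc (NT e) - 1 := by
  have hsq1 : Squarefree f₁.2.2 := by
    rw [Nat.squarefree_iff_prime_squarefree]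
    intro l hl hll
    rw [← sq] at hll
    exact (hx1 l hl ((dvd_pow_self l two_ne_zero).trans hll)).2 hll
  have hsq3 : Squarefree f₃.1 := by
    rw [Nat.squarefree_iff_prime_squarefree]
    intro l hl hll
    rw [← sq] at hll
    exact (hx3 l hl ((dvd_pow_self l two_ne_zero).trans hll)).2 hll
  have hcop1 : Nat.Coprime e.1 f₁.2.2 := by
    apply Nat.Coprime.symm
    apply Nat.coprime_of_dvd
    intro l hl h4 h5
    exact (hx1 l hl h4).1 h5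
  have hcop3 : Nat.Coprime e.2.2 f₃.1 := by
    apply Nat.Coprime.symm
    apply Nat.coprime_of_dvd
    intro l hl h4 h5
    exact (hx3 l hl h4).1 h5
  have hcop2 : Nat.Coprime f₂.1 f₂.2.2 := Nat.coprime_of_dvd fun l hl h4 h5 => hx2 l hl h4 h5
  have hA0 : e.1 ≠ 0 := by have := he.1; omega
  have hB0 : e.2.2 ≠ 0 := by have := he.2.1; omega
  have hsX : Squarefree f₂.1 := hsq3.squarefree_of_dvd (h.a2 ▸ Dvd.intro_left _ rfl)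
  have hsP : Squarefree f₂.2.2 := hsq1.squarefree_of_dvd (h.c2 ▸ Dvd.intro_left _ rfl)
  have hs2 : Squarefree (f₂.1 * f₂.2.2) := (Nat.squarefree_mul hcop2).2 ⟨hsX, hsP⟩
  have n1 : NT f₁ = e.1 * f₁.2.2 := by unfold NT; rw [h.a1]
  have n3 : NT f₃ = e.2.2 * f₃.1 := by unfold NT; rw [h.c3, mul_comm]
  have n2 : NT f₂ = f₂.1 * f₂.2.2 := rfl
  have h0 : exc (NT f₂) = 0 := by
    rw [exc_eq_zero (NT_ne_zero h2), n2]
    exact hs2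
  rw [h0, n1, n3, exc_mul_sqf hA0 hsq1 hcop1, exc_mul_sqf hB0 hsq3 hcop3]
  have hN := NT_ne_zero he
  have hNe : NT e = e.1 * e.2.2 := rfl
  refine ⟨?_, Nat.zero_le _, ?_⟩
  · rcases hp with ⟨_, h0⟩ | ⟨hp, hp1, hp2⟩
    · have : exc e.1 ≤ exc (NT e) := exc_mono (hNe ▸ Dvd.intro _ rfl) hN
      omega
    · have h4 : exc (p * e.1) ≤ exc (NT e) := by
        apply exc_mono _ hN
        rw [hNe, mul_comm p]
        exact mul_dvd_mul dvd_rfl hp2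
      rw [exc_prime_mul hp hA0 hp1] at h4
      omega
  · rcases hp with ⟨_, h0⟩ | ⟨hp, hp1, hp2⟩
    · have : exc e.2.2 ≤ exc (NT e) := exc_mono (hNe ▸ Dvd.intro_left _ rfl) hN
      omega
    · have h4 : exc (p * e.2.2) ≤ exc (NT e) := by
        apply exc_mono _ hN
        rw [hNe]
        exact mul_dvd_mul hp1 dvd_rfl
      rw [exc_prime_mul hp hB0 hp2] at h4
      omega

end Pool.Agent.Y869.SQ
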