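import Pool.Agent.Y869.SQ.Main
import Pool.Agent.W78.GS.All
import Pool.Agent.TH890.DV.B2
import Pool.Agent.TH890.DV.B3

/-!
Project SQ (helper869): iteration of the resolution, the input from the Matomaki-Radziwill theorem,
and the final theorem.
-/

set_option autoImplicit false

namespace Pool.Agent.Y869.SQ

open Finset Filter
open Pool.Agent.H376R2.MR (lam)
open Pool.Agent.W78.GT
open Pool.Agent.W500.GT (TrOk mem_tri' NT_ne_zero exc_eq_zero)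
open Pool.Agent.W84.G (PosT)

variable {t c : ℤ}

open scoped Classical in
/-- triples of the class with excess at most `k` and signs `s₁`, `s₂` -/
noncomputable def Bk (t c : ℤ) (q₀ : ℕ) (c₀ : ℤ) (s₁ s₂ : ℤ) (k : ℕ) (X : ℝ) : Finset Tr :=
  (tri t c X X).filter (fun e => Cl q₀ c₀ e ∧ exc (NT e) ≤ k ∧ lam e.1 = s₁ ∧ lam e.2.2 = s₂)

lemma mem_Bk {q₀ : ℕ} {c₀ s₁ s₂ : ℤ} {k : ℕ} {X : ℝ} {e : Tr} : e ∈ Bk t c q₀ c₀ s₁ s₂ k X ↔
    e ∈ tri t c X X ∧ Cl q₀ c₀ e ∧ exc (NT e) ≤ k ∧ lam e.1 = s₁ ∧ lam e.2.2 = s₂ := by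
  classical
  unfold Bk
  rw [mem_filter]

/-- one step of the resolution -/
lemma res_step {q₀ : ℕ} {c₀ : ℤ} (hres : S_RS t c q₀ c₀) (s₁ s₂ : ℤ) (δ : ℝ) (hδ : 0 < δ) :
    ∃ (Q D X₀ : ℝ), 1 ≤ Q ∧ 1 ≤ D ∧
    ∀ X : ℝ, X₀ ≤ X → ∀ k : ℕ, ((Bk t c q₀ c₀ s₁ s₂ (k + 1) X).card : ℝ) ≤
      δ * X + D * ((Bk t c q₀ c₀ s₁ s₂ k (Q * X)).card : ℝ) := by
  classical
  obtain ⟨Q, D, X₀, hQ, h⟩ := hres δ hδ
  refine ⟨Q, 3 * D + 1, X₀, hQ, by have : (0 : ℝ) ≤ D := Nat.cast_nonneg _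
                                   linarith, fun X hX k => ?_⟩
  obtain ⟨E, F₁, F₂, F₃, hE, hF, hD⟩ := h X hX
  set S := Bk t c q₀ c₀ s₁ s₂ (k + 1) X with hS
  set T := Bk t c q₀ c₀ s₁ s₂ k (Q * X) with hT
  set W := (tri t c X X).filter (fun e => Cl q₀ c₀ e ∧ e ∉ E) with hW
  have hgen : ∀ F : Tr → Tr, (∀ f, ((tri t c X X).filter
      (fun e => Cl q₀ c₀ e ∧ e ∉ E ∧ F e = f)).card ≤ D) →
      (W.filter (fun e => F e ∈ T)).card ≤ D * T.card := by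
    intro F hFm
    apply Finset.card_le_mul_card_image_of_maps_to (f := F)
    · intro e he
      rw [mem_filter] at he
      exact he.2
    · intro f _
      refine le_trans (Finset.card_le_card ?_) (hFm f)
      intro e he
      rw [mem_filter, mem_filter, hW, mem_filter] at he
      rw [mem_filter]
      exact ⟨he.1.1.1, he.1.1.2.1, he.1.1.2.2, he.2⟩
  have hcov : S ⊆ E ∪ (W.filter (fun e => F₁ e ∈ T) ∪ (W.filter (fun e => F₂ e ∈ T) ∪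
      W.filter (fun e => F₃ e ∈ T))) := by
    intro e he
    rw [hS, mem_Bk] at he
    obtain ⟨he1, he2, he3, he4, he5⟩ := he
    by_cases hEe : e ∈ E
    · exact mem_union_left _ hEe
    · obtain ⟨f1, f2, f3, f4⟩ := hF e he1 he2 hEe
      have hWe : e ∈ W := by rw [hW, mem_filter]; exact ⟨he1, he2, hEe⟩
      have key : ∀ f : Tr, Nw t c q₀ c₀ (Q * X) e f → Sm e f → f ∈ T := by
        rintro f ⟨g1, g2, g3⟩ ⟨g4, g5⟩
        rw [hT, mem_Bk]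
        exact ⟨g1, g2, by omega, by rw [g4, he4], by rw [g5, he5]⟩
      refine mem_union_right _ ?_
      rcases f4 with h | h | h
      · exact mem_union_left _ (mem_filter.2 ⟨hWe, key _ f1 h⟩)
      · exact mem_union_right _ (mem_union_left _ (mem_filter.2 ⟨hWe, key _ f2 h⟩))
      · exact mem_union_right _ (mem_union_right _ (mem_filter.2 ⟨hWe, key _ f3 h⟩))
  have h1 := hgen F₁ (fun f => (hD f).1)
  have h2 := hgen F₂ (fun f => (hD f).2.1)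
  have h3 := hgen F₃ (fun f => (hD f).2.2)
  have h4 : S.card ≤ E.card + (D * T.card + (D * T.card + D * T.card)) := by
    refine (card_le_card hcov).trans ((card_union_le _ _).trans (Nat.add_le_add_left ?_ _))
    refine (card_union_le _ _).trans (Nat.add_le_add h1 ?_)
    exact (card_union_le _ _).trans (Nat.add_le_add h2 h3)
  have h5 : (S.card : ℝ) ≤ E.card + (D * T.card + (D * T.card + D * T.card)) := by
    exact_mod_cast h4
  have hT0 : (0 : ℝ) ≤ T.card := Nat.cast_nonneg _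
  linarith

/-- the iterated resolution -/
lemma res_iter {q₀ : ℕ} {c₀ : ℤ} (hres : S_RS t c q₀ c₀) (s₁ s₂ : ℤ) (k : ℕ) : ∀ δ : ℝ, 0 < δ →
    ∃ (Q D X₀ : ℝ), 1 ≤ Q ∧ 1 ≤ D ∧
    ∀ X : ℝ, X₀ ≤ X → ((Bk t c q₀ c₀ s₁ s₂ k X).card : ℝ) ≤
      δ * X + D * ((Bk t c q₀ c₀ s₁ s₂ 0 (Q * X)).card : ℝ) := by
  induction k with
  | zero =>
    intro δ hδ
    refine ⟨1, 1, 0, le_rfl, le_rfl, fun X hX => ?_⟩
    rw [one_mul, one_mul]
    have : 0 ≤ δ * X := by positivity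
    linarith
  | succ k ih =>
    intro δ hδ
    obtain ⟨Q, D, X₀, hQ, hD, h⟩ := res_step hres s₁ s₂ (δ / 2) (by linarith)
    obtain ⟨Q', D', X₀', hQ', hD', h'⟩ := ih (δ / (2 * D * Q)) (by positivity)
    refine ⟨Q' * Q, D * D', max (max X₀ X₀') 0, by nlinarith, by nlinarith, fun X hX => ?_⟩
    have hX0 : X₀ ≤ X := (le_max_left _ _).trans ((le_max_left _ _).trans hX)
    have hX0' : X₀' ≤ X := (le_max_right _ _).trans ((le_max_left _ _).trans hX)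
    have hXp : 0 ≤ X := (le_max_right _ _).trans hX
    have h1 := h X hX0 k
    have h2 := h' (Q * X) (by nlinarith)
    have h3 : D * ((Bk t c q₀ c₀ s₁ s₂ k (Q * X)).card : ℝ) ≤
        D * (δ / (2 * D * Q) * (Q * X) +
          D' * ((Bk t c q₀ c₀ s₁ s₂ 0 (Q' * (Q * X))).card : ℝ)) :=
      mul_le_mul_of_nonneg_left h2 (by linarith)
    have h4 : D * (δ / (2 * D * Q) * (Q * X)) = δ / 2 * X := by
      field_simp
    rw [mul_assoc Q' Q X]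
    nlinarith

lemma lam_eq (n : ℕ) : lam n = (-1 : ℤ) ^ ArithmeticFunction.cardFactors n := rfl

/-- START: the input, in the class of the values at `n ≡ r mod q₀` -/
lemma start (hns : ¬ IsSquare (t ^ 2 - 4 * c)) {q₀ : ℕ} (hq0 : 1 ≤ q₀) (r : ℕ) : ∃ k : ℕ,
    ∀ s₁ s₂ : ℤ, (s₁ = 1 ∨ s₁ = -1) → (s₂ = 1 ∨ s₂ = -1) → ∃ κ : ℝ, 0 < κ ∧ ∃ X₀ : ℝ,
      ∀ X : ℝ, X₀ ≤ X → κ * X ≤ ((Bk t c q₀ (Qp t c r) s₁ s₂ k X).card : ℝ) := by
  classical
  obtain ⟨S, hS⟩ := Pool.Agent.TH890.DV.finalR (a := 1) (b := t) (c := c) one_pos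
    (by simpa using hns) (q := q₀) r hq0
  refine ⟨2 * S, fun s₁ s₂ hs₁ hs₂ => ?_⟩
  obtain ⟨-, κ, hκ, N₀, h⟩ := hS s₁ s₂ hs₁ hs₂
  refine ⟨κ / 2, half_pos hκ, max 1 (N₀ + 1), fun X hX => ?_⟩
  have hX1 : 1 ≤ X := (le_max_left _ _).trans hX
  have hX2 : (N₀ : ℝ) + 1 ≤ X := (le_max_right _ _).trans hX
  obtain ⟨N, hN⟩ : ∃ N : ℕ, N = ⌊X⌋₊ := ⟨_, rfl⟩
  have hNX : (N : ℝ) ≤ X := by rw [hN]; exact Nat.floor_le (by linarith)
  have hXN : X < N + 1 := by rw [hN]; exact Nat.lt_floor_add_one X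
  have hN0 : N₀ ≤ N := by
    have : (N₀ : ℝ) < N + 1 := by linarith
    have : N₀ < N + 1 := by exact_mod_cast this
    omega
  have hN1 : (1 : ℝ) ≤ N := by
    have : 1 ≤ N := by rw [hN]; exact Nat.le_floor (by simpa using hX1)
    exact_mod_cast this
  have h1 := h N hN0
  have h2 : κ / 2 * X ≤ κ * N := by nlinarith
  refine h2.trans (h1.trans ?_)
  rw [← Set.ncard_coe_finset]
  -- choose the integer `n`
  have hex : ∀ p : ℕ × ℕ, ∃ n : ℤ, (1 ≤ p.1 ∧ p.1 ≤ N ∧ 1 ≤ p.2 ∧ p.2 ≤ N ∧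
      ∃ n : ℤ, (p.1 : ℤ) * p.2 = Qp t c n) → (p.1, n, p.2) ∈ tri t c X X := by
    intro p
    by_cases hp : 1 ≤ p.1 ∧ p.1 ≤ N ∧ 1 ≤ p.2 ∧ p.2 ≤ N ∧ ∃ n : ℤ, (p.1 : ℤ) * p.2 = Qp t c n
    · obtain ⟨g1, g2, g3, g4, g5⟩ := hp
      have k2 : (p.1 : ℝ) ≤ N := by exact_mod_cast g2
      have k4 : (p.2 : ℝ) ≤ N := by exact_mod_cast g4
      obtain ⟨n, hn⟩ := Pool.Agent.TH890.DV.triple_of (X := X) g1 (k2.trans hNX) g3
        (k4.trans hNX) g5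
      exact ⟨n, fun _ => hn⟩
    · exact ⟨0, fun h => absurd h hp⟩
  choose ν hν using hex
  have hfin : ((Bk t c q₀ (Qp t c r) s₁ s₂ (2 * S) X : Finset Tr) : Set Tr).Finite :=
    Finset.finite_toSet _
  refine Nat.cast_le.2 (Set.ncard_le_ncard_of_injOn (fun p : ℕ × ℕ => (p.1, ν p, p.2)) ?_ ?_ hfin)
  · rintro p ⟨g1, g2, g3, g4, ⟨n, g5, g6, g7⟩, g8, g9, g10⟩
    have g7' : (p.1 : ℤ) * p.2 = Qp t c n := by
      rw [g7]
      unfold Qp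
      ring
    have hmem := hν p ⟨g1, g2, g3, g4, n, g7'⟩
    rw [mem_coe, mem_Bk]
    refine ⟨hmem, ?_, ?_, g9, g10⟩
    · unfold Cl NT
      push_cast
      rw [g7']
      have h3 : (q₀ : ℤ) ∣ (n : ℤ) - r := by
        have := (Nat.modEq_iff_dvd.1 g6.symm)
        exact this
      exact Qp_congr h3
    · exact Pool.Agent.W500.GS.exc_le_of (NT_ne_zero (mem_tri'.1 hmem).1) g8
  · intro p _ p' _ hpp
    simp only [Prod.mk.injEq] at hpp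
    exact Prod.ext hpp.1 hpp.2.2

/-- the resolution for all moduli -/
theorem rs {q₀ : ℕ} {c₀ : ℤ} (hM : Md t c q₀) (hG : Gc q₀ c₀) : S_RS t c q₀ c₀ := by
  have hns := hM.nsq
  have hrep := Pool.Agent.W571.GT.rep hns
  exact rs_of hM hG (Pool.Agent.W578.GT.equt_of hrep) (Pool.Agent.W591.GT.larget hns)
    (Pool.Agent.W976.GT.siftt_of hrep)
    (Pool.Agent.W29.GT.vet_of (Pool.Agent.W29.GT.root_of hrep))

/-- the final property -/
def RF (q₀ : ℕ) (c₀ s₁ s₂ : ℤ) (e : Tr) : Prop :=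
  Cl q₀ c₀ e ∧ Squarefree (NT e) ∧ lam e.1 = s₁ ∧ lam e.2.2 = s₂

/-- a positive proportion of squarefree triples with given signs in the class -/
theorem pos {q₀ : ℕ} (r : ℕ) (hM : Md t c q₀) (hG : Gc q₀ (Qp t c r)) {s₁ s₂ : ℤ}
    (hs₁ : s₁ = 1 ∨ s₁ = -1) (hs₂ : s₂ = 1 ∨ s₂ = -1) :
    PosT t c (RF q₀ (Qp t c r) s₁ s₂) := by
  classical
  have hres := rs hM hG
  obtain ⟨k, hk⟩ := start hM.nsq hM.pos r (t := t) (c := c)
  obtain ⟨ε, hε, X₁, hst⟩ := hk s₁ s₂ hs₁ hs₂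
  obtain ⟨Q, D, X₃, hQ, hD, hit⟩ := res_iter hres s₁ s₂ k (ε / 2) (by linarith)
  refine ⟨ε / (2 * D * Q), by positivity, Q * max X₁ X₃, fun X' hX' => ?_⟩
  obtain ⟨X, rfl⟩ : ∃ X : ℝ, X' = Q * X := ⟨X' / Q, by field_simp⟩
  have hX : max X₁ X₃ ≤ X := le_of_mul_le_mul_left hX' (by linarith)
  have hX1 : X₁ ≤ X := (le_max_left _ _).trans hX
  have hX3 : X₃ ≤ X := (le_max_right _ _).trans hX
  have h1 := hst X hX1
  have h3 := hit X hX3
  have h5 : ε / 2 * X ≤ D * ((Bk t c q₀ (Qp t c r) s₁ s₂ 0 (Q * X)).card : ℝ) := by linarith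
  have h6 : ε / (2 * D * Q) * (Q * X) = (ε / 2 * X) / D := by field_simp
  have h7 : ε / (2 * D * Q) * (Q * X) ≤ ((Bk t c q₀ (Qp t c r) s₁ s₂ 0 (Q * X)).card : ℝ) := by
    rw [h6, div_le_iff₀ (by linarith)]
    linarith
  refine h7.trans (Nat.cast_le.2 (card_le_card ?_))
  intro e he
  rw [mem_Bk] at he
  obtain ⟨g1, g2, g3, g4, g5⟩ := he
  rw [mem_filter]
  exact ⟨g1, g2, (exc_eq_zero (NT_ne_zero (mem_tri'.1 g1).1)).1 (by omega), g4, g5⟩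

end Pool.Agent.Y869.SQ
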