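import Pool.Agent.Y869.SQ.Occ

/-!
Project SQ (helper869): the local choice of `j` and `y`, and the auxiliary primes.
-/

set_option autoImplicit false

namespace Pool.Agent.Y869.SQ

open Finset Pool.Agent.W78.GT
open Pool.Agent.W500.GT (TrOk exists_QQ)
open Pool.Agent.W583.GT (rd rd_eq_iff lif rd_lif)

variable {t c : ℤ}

/-- the local choice at one prime -/
lemma loc_one {l : ℕ} (hl : l.Prime) (h5 : 5 ≤ l) (hD : ¬ (l : ℤ) ∣ t ^ 2 - 4 * c) {A n B : ℤ}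
    (h : (l : ℤ) ∣ A * B - Qp t c n) : ∃ j y : ℕ, ¬ (l : ℤ) ∣ MM t A n B j ∧
      ¬ (l : ℤ) ∣ MM t B n A (-y) ∧ ¬ (l : ℤ) ∣ 1 + j * y := by
  have : Fact l.Prime := ⟨hl⟩
  have hcast : ∀ z : ℤ, (l : ℤ) ∣ z ↔ (z : ZMod l) = 0 := fun z =>
    (ZMod.intCast_zmod_eq_zero_iff_dvd z l).symm
  set a : ZMod l := (A : ZMod l) with ha
  set b : ZMod l := (B : ZMod l) with hb
  set s : ZMod l := ((2 * n + t : ℤ) : ZMod l) with hs
  have hdisc : s ^ 2 - 4 * (a * b) ≠ 0 := by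
    intro h0
    apply hD
    rw [hcast]
    have h1 : ((A * B - Qp t c n : ℤ) : ZMod l) = 0 := (hcast _).1 h
    have h2 : ((t ^ 2 - 4 * c : ℤ) : ZMod l) = s ^ 2 - 4 * (a * b) + 4 * ((A * B - Qp t c n : ℤ) : ZMod l) := by
      rw [hs, ha, hb]
      unfold Qp
      push_cast
      ring
    rw [h2, h0, h1]
    ring
  have hcard : (5 : ℕ) ≤ Fintype.card (ZMod l) := by rw [ZMod.card]; exact h5
  have hne : a ≠ 0 ∨ s ≠ 0 ∨ b ≠ 0 := by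
    by_contra hcon
    push Not at hcon
    obtain ⟨h1, h2, h3⟩ := hcon
    apply hdisc
    rw [h1, h2]
    ring
  -- first polynomial
  obtain ⟨P, hP⟩ : ∃ P : Polynomial (ZMod l), P = Polynomial.C a + Polynomial.C s * Polynomial.X +
    Polynomial.C b * Polynomial.X ^ 2 := ⟨_, rfl⟩
  have hPdeg : P.natDegree ≤ 2 := by rw [hP]; compute_degree
  have hP0 : P ≠ 0 := by
    intro h0
    have c0 : P.coeff 0 = a := by rw [hP]; simp [Polynomial.coeff_X, Polynomial.coeff_X_pow]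
    have c1 : P.coeff 1 = s := by
      rw [hP]; simp [Polynomial.coeff_C, Polynomial.coeff_X_pow]
    have c2 : P.coeff 2 = b := by
      rw [hP]; simp [Polynomial.coeff_C, Polynomial.coeff_X]
    rw [h0, Polynomial.coeff_zero] at c0 c1 c2
    rcases hne with h | h | h
    · exact h c0.symm
    · exact h c1.symm
    · exact h c2.symm
  obtain ⟨x, hx⟩ := P.exists_eval_ne_zero_of_natDegree_lt_card hP0 (by
    rw [Cardinal.mk_fintype]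
    exact_mod_cast (by omega : P.natDegree < Fintype.card (ZMod l)))
  -- second polynomial
  obtain ⟨R, hR⟩ : ∃ R : Polynomial (ZMod l), R = Polynomial.C b + Polynomial.C (-s) * Polynomial.X +
    Polynomial.C a * Polynomial.X ^ 2 := ⟨_, rfl⟩
  have hRdeg : R.natDegree ≤ 2 := by rw [hR]; compute_degree
  have hR0 : R ≠ 0 := by
    intro h0
    have c0 : R.coeff 0 = b := by rw [hR]; simp [Polynomial.coeff_X, Polynomial.coeff_X_pow]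
    have c1 : R.coeff 1 = -s := by
      rw [hR]; simp [Polynomial.coeff_C, Polynomial.coeff_X_pow]
    have c2 : R.coeff 2 = a := by
      rw [hR]; simp [Polynomial.coeff_C, Polynomial.coeff_X]
    rw [h0, Polynomial.coeff_zero] at c0 c1 c2
    rcases hne with h | h | h
    · exact h c2.symm
    · exact h (neg_eq_zero.1 c1.symm)
    · exact h c0.symm
  obtain ⟨T, hT⟩ : ∃ T : Polynomial (ZMod l), T = 1 + Polynomial.C x * Polynomial.X := ⟨_, rfl⟩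
  have hTdeg : T.natDegree ≤ 1 := by rw [hT]; compute_degree
  have hT0 : T ≠ 0 := by
    intro h0
    have c0 : T.coeff 0 = 1 := by rw [hT]; simp
    rw [h0, Polynomial.coeff_zero] at c0
    exact zero_ne_one c0
  obtain ⟨w, hw⟩ := (R * T).exists_eval_ne_zero_of_natDegree_lt_card (mul_ne_zero hR0 hT0) (by
    rw [Cardinal.mk_fintype]
    have := Polynomial.natDegree_mul_le (p := R) (q := T)
    exact_mod_cast (by omega : (R * T).natDegree < Fintype.card (ZMod l)))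
  rw [Polynomial.eval_mul] at hw
  have hw1 := left_ne_zero_of_mul hw
  have hw2 := right_ne_zero_of_mul hw
  have evP : P.eval x = a + s * x + b * x ^ 2 := by rw [hP]; simp
  have evR : R.eval w = b - s * w + a * w ^ 2 := by rw [hR]; simp; ring
  have evT : T.eval w = 1 + x * w := by rw [hT]; simp
  refine ⟨x.val, w.val, ?_, ?_, ?_⟩
  · rw [hcast]
    unfold MM
    push_cast
    rw [ZMod.natCast_zmod_val]
    intro h0
    apply hx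
    rw [evP, ← h0, hs]
    push_cast
    ring
  · rw [hcast]
    unfold MM
    push_cast
    rw [ZMod.natCast_zmod_val]
    intro h0
    apply hw1
    rw [evR, ← h0, hs]
    push_cast
    ring
  · rw [hcast]
    push_cast
    rw [ZMod.natCast_zmod_val, ZMod.natCast_zmod_val]
    rw [evT] at hw2
    exact hw2

/-- the primes `≤ z` not dividing `q₀` -/
def Lz (q₀ z : ℕ) : Finset ℕ := (range (z + 1)).filter (fun l => l.Prime ∧ ¬ l ∣ q₀)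

lemma mem_Lz {q₀ z l : ℕ} : l ∈ Lz q₀ z ↔ l.Prime ∧ ¬ l ∣ q₀ ∧ l ≤ z := by
  unfold Lz
  rw [mem_filter, mem_range, Nat.lt_succ_iff]
  tauto

/-- the bound for `j` -/
def JJ (q₀ z : ℕ) : ℕ := q₀ * ∏ l ∈ Lz q₀ z, l

lemma prod_Lz_le (q₀ z : ℕ) : ∏ l ∈ Lz q₀ z, l ≤ 4 ^ z := by
  refine le_trans ?_ (primorial_le_four_pow z)
  unfold primorial
  apply Finset.prod_le_prod_of_subset_of_one_le'
  · intro l hl
    rw [mem_Lz] at hl
    rw [mem_filter, mem_range]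
    exact ⟨by omega, hl.1⟩
  · intro l hl _
    rw [mem_filter] at hl
    exact hl.2.one_lt.le

lemma prod_Lz_pos (q₀ z : ℕ) : 0 < ∏ l ∈ Lz q₀ z, l :=
  prod_pos fun l hl => (mem_Lz.1 hl).1.pos

lemma JJ_pos {q₀ : ℕ} (h0 : 0 < q₀) (z : ℕ) : 0 < JJ q₀ z := Nat.mul_pos h0 (prod_Lz_pos q₀ z)

lemma JJ_le (q₀ z : ℕ) : JJ q₀ z ≤ q₀ * 4 ^ z := Nat.mul_le_mul_left _ (prod_Lz_le q₀ z)

lemma dvd_JJ {q₀ z l : ℕ} (hl : l ∈ Lz q₀ z) : l ∣ JJ q₀ z :=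
  (dvd_prod_of_mem (fun l => l) hl).mul_left _

/-- Chinese remainders -/
lemma crt {q₀ : ℕ} (h0 : 0 < q₀) (z : ℕ) (a : ℕ → ℕ) : ∃ j : ℕ, JJ q₀ z ≤ j ∧ j < 2 * JJ q₀ z ∧
    q₀ ∣ j ∧ ∀ l ∈ Lz q₀ z, (l : ℤ) ∣ (j : ℤ) - a l := by
  have hco : Nat.Coprime q₀ (∏ l ∈ Lz q₀ z, l) := by
    rw [Nat.coprime_prod_right_iff]
    intro l hl
    rw [mem_Lz] at hl
    exact ((Nat.Prime.coprime_iff_not_dvd hl.1).2 hl.2.1).symm
  obtain ⟨k, hk⟩ := Nat.chineseRemainderOfFinset a (fun l => l) (Lz q₀ z)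
    (fun l hl => (mem_Lz.1 hl).1.ne_zero) (by
      intro l hl l' hl' hne
      exact (Nat.coprime_primes (mem_Lz.1 hl).1 (mem_Lz.1 hl').1).2 hne)
  obtain ⟨m, hm1, hm2⟩ := Nat.chineseRemainder hco 0 k
  have hJ := JJ_pos h0 z
  have hmod : m % JJ q₀ z + JJ q₀ z ≡ m [MOD JJ q₀ z] := by
    unfold Nat.ModEq
    rw [Nat.add_mod_right, Nat.mod_mod]
  refine ⟨m % JJ q₀ z + JJ q₀ z, by omega, ?_, ?_, ?_⟩
  · have := Nat.mod_lt m hJ
    omega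
  · have h1 : m % JJ q₀ z + JJ q₀ z ≡ 0 [MOD q₀] :=
      (hmod.of_dvd (Dvd.intro _ rfl)).trans hm1
    exact (Nat.modEq_zero_iff_dvd).1 h1
  · intro l hl
    have h1 : m % JJ q₀ z + JJ q₀ z ≡ a l [MOD l] :=
      ((hmod.of_dvd (dvd_JJ hl)).trans (hm2.of_dvd (dvd_prod_of_mem (fun l => l) hl))).trans (hk l hl)
    have h2 := (Nat.modEq_iff_dvd.1 h1.symm)
    exact h2

lemma MM_congr {l : ℤ} {A n B x x' : ℤ} (h : l ∣ x - x') (h1 : ¬ l ∣ MM t A n B x') :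
    ¬ l ∣ MM t A n B x := by
  intro h2
  apply h1
  have h3 : MM t A n B x' = MM t A n B x - (x - x') * ((2 * n + t) + (x + x') * B) := by
    unfold MM; ring
  rw [h3]
  exact dvd_sub h2 (h.mul_right _)

lemma MM_congr' {l : ℤ} {A n B A' n' B' x : ℤ} (hA : l ∣ A - A') (hn : l ∣ n - n')
    (hB : l ∣ B - B') (h1 : ¬ l ∣ MM t A' n' B' x) : ¬ l ∣ MM t A n B x := by
  intro h2
  apply h1
  have h3 : MM t A' n' B' x = MM t A n B x - ((A - A') + (n - n') * (2 * x) + (B - B') * x ^ 2) := by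
    unfold MM; ring
  rw [h3]
  exact dvd_sub h2 (dvd_add (dvd_add hA (hn.mul_right _)) (hB.mul_right _))

/-- the assumptions on the modulus -/
structure Md (t c : ℤ) (q₀ : ℕ) : Prop where
  nsq : ¬ IsSquare (t ^ 2 - 4 * c)
  pos : 0 < q₀
  six : 6 ∣ q₀
  d4 : D4 t c ∣ q₀

lemma Md.five {q₀ : ℕ} (h : Md t c q₀) {l : ℕ} (hl : l.Prime) (hn : ¬ l ∣ q₀) : 5 ≤ l := by
  by_contra hcon
  have h2 : 2 ≤ l := hl.two_le
  have h4 : ¬ l = 4 := by rintro rfl; exact absurd hl (by norm_num)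
  have h5 : l = 2 ∨ l = 3 := by omega
  rcases h5 with rfl | rfl
  · exact hn ((by norm_num : 2 ∣ 6).trans h.six)
  · exact hn ((by norm_num : 3 ∣ 6).trans h.six)

lemma Md.disc {q₀ : ℕ} (h : Md t c q₀) {l : ℕ} (hl : l.Prime) (hn : ¬ l ∣ q₀) :
    ¬ (l : ℤ) ∣ 2 * (t ^ 2 - 4 * c) := by
  intro hd
  apply hn
  refine dvd_trans ?_ h.d4
  unfold D4
  have h1 : (l : ℤ) ∣ 4 * (t ^ 2 - 4 * c) := by
    have : 4 * (t ^ 2 - 4 * c) = 2 * (t ^ 2 - 4 * c) * 2 := by ring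
    rw [this]
    exact hd.mul_right _
  have h2 := Int.natCast_dvd.1 h1
  rw [Int.natAbs_mul] at h2
  exact h2

/-- the local condition for the pair `(j, y)` -/
def Lo (t c : ℤ) (q₀ z : ℕ) (r : ℕ × ℕ) (e : Tr) : Prop :=
  ∀ l : ℕ, Spl t c l → l ≤ z → ¬ l ∣ q₀ → ¬ (l : ℤ) ∣ D1 t r.1 e ∧ ¬ (l : ℤ) ∣ D2 t r.2 e

open scoped Classical in
/-- the pairs `(j, y)` -/
noncomputable def RJ (q₀ z : ℕ) : Finset (ℕ × ℕ) :=
  (range (2 * JJ q₀ z) ×ˢ range (2 * JJ q₀ z)).filter (fun r => 1 ≤ r.1 ∧ q₀ ∣ r.1 ∧ q₀ ∣ r.2 ∧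
    Nat.Coprime (1 + r.1 * r.2) (r.1 * JJ q₀ z))

lemma mem_RJ {q₀ z : ℕ} {r : ℕ × ℕ} : r ∈ RJ q₀ z ↔ (r.1 < 2 * JJ q₀ z ∧ r.2 < 2 * JJ q₀ z) ∧
    1 ≤ r.1 ∧ q₀ ∣ r.1 ∧ q₀ ∣ r.2 ∧ Nat.Coprime (1 + r.1 * r.2) (r.1 * JJ q₀ z) := by
  classical
  unfold RJ
  rw [mem_filter, mem_product, mem_range, mem_range]

lemma RJ_card (q₀ z : ℕ) : (RJ q₀ z).card ≤ 2 * JJ q₀ z * (2 * JJ q₀ z) := by
  classical
  unfold RJ
  refine (card_filter_le _ _).trans ?_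
  rw [card_product, card_range]

lemma default_RJ {q₀ : ℕ} (h0 : 0 < q₀) (z : ℕ) : (JJ q₀ z, JJ q₀ z) ∈ RJ q₀ z := by
  have hJ := JJ_pos h0 z
  rw [mem_RJ]
  refine ⟨⟨by simp only; omega, by simp only; omega⟩, hJ, Dvd.intro _ rfl, Dvd.intro _ rfl, ?_⟩
  simp only
  rw [Nat.coprime_comm]
  have : Nat.Coprime (JJ q₀ z * JJ q₀ z) (1 + JJ q₀ z * JJ q₀ z) := by
    rw [Nat.coprime_add_self_right]
    exact Nat.coprime_one_right _
  exact this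

/-- the pair exists -/
lemma exists_jy {q₀ : ℕ} (hM : Md t c q₀) (z : ℕ) {e : Tr} (he : TrOk t c e) :
    ∃ r ∈ RJ q₀ z, Lo t c q₀ z r e := by
  classical
  have h0 := hM.pos
  have hloc : ∀ l : ℕ, ∃ j y : ℕ, l ∈ Lz q₀ z → ¬ (l : ℤ) ∣ MM t e.1 e.2.1 e.2.2 j ∧
      ¬ (l : ℤ) ∣ MM t e.2.2 e.2.1 e.1 (-y) ∧ ¬ (l : ℤ) ∣ 1 + j * y := by
    intro l
    by_cases hl : l ∈ Lz q₀ z
    · obtain ⟨h1, h2, h3⟩ := mem_Lz.1 hl
      have hD : ¬ (l : ℤ) ∣ t ^ 2 - 4 * c := fun h => hM.disc h1 h2 (h.mul_left _)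
      obtain ⟨j, y, h⟩ := loc_one h1 (hM.five h1 h2) hD (A := e.1) (n := e.2.1) (B := e.2.2)
        (by rw [he.2.2.1, sub_self]; exact dvd_zero _)
      exact ⟨j, y, fun _ => h⟩
    · exact ⟨0, 0, fun h => absurd h hl⟩
  choose jl yl hjy using hloc
  obtain ⟨j, hj1, hj2, hj3, hj4⟩ := crt h0 z jl
  obtain ⟨y, hy1, hy2, hy3, hy4⟩ := crt h0 z yl
  have hJ := JJ_pos h0 z
  have key1 : ∀ l ∈ Lz q₀ z, ¬ (l : ℤ) ∣ MM t e.1 e.2.1 e.2.2 j := fun l hl =>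
    MM_congr (hj4 l hl) (hjy l hl).1
  have key2 : ∀ l ∈ Lz q₀ z, ¬ (l : ℤ) ∣ MM t e.2.2 e.2.1 e.1 (-y) := fun l hl => by
    refine MM_congr (x' := -(yl l : ℤ)) ?_ (hjy l hl).2.1
    have h1 := hy4 l hl
    have e1 : -(y : ℤ) - -(yl l : ℤ) = -((y : ℤ) - yl l) := by ring
    rw [e1]
    exact (dvd_neg).2 h1
  have key3 : ∀ l ∈ Lz q₀ z, ¬ (l : ℤ) ∣ 1 + j * y := fun l hl h => by
    apply (hjy l hl).2.2
    have e1 : (1 + (jl l : ℤ) * yl l) = (1 + j * y) - ((j : ℤ) - jl l) * y -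
        ((y : ℤ) - yl l) * jl l := by ring
    rw [e1]
    exact dvd_sub (dvd_sub h ((hj4 l hl).mul_right _)) ((hy4 l hl).mul_right _)
  refine ⟨(j, y), ?_, ?_⟩
  · rw [mem_RJ]
    refine ⟨⟨hj2, hy2⟩, by simp only; omega, hj3, hy3, ?_⟩
    simp only
    rw [Nat.coprime_comm]
    apply Nat.coprime_of_dvd
    intro p hp hp1 hp2
    have hJ2 : p ∣ j → False := by
      intro h
      have h2 : p ∣ 1 := (Nat.dvd_add_left (h.mul_right y)).1 hp2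
      exact hp.one_lt.ne' (Nat.dvd_one.1 h2)
    rcases (Nat.Prime.dvd_mul hp).1 hp1 with h | h
    · exact hJ2 h
    · unfold JJ at h
      rcases (Nat.Prime.dvd_mul hp).1 h with h | h
      · exact hJ2 (h.trans hj3)
      · obtain ⟨l, hl, h3⟩ := (hp.prime.dvd_finsetProd_iff _).1 h
        have h4 : p = l := (Nat.prime_dvd_prime_iff_eq hp (mem_Lz.1 hl).1).1 h3
        subst h4
        apply key3 p hl
        exact_mod_cast Int.natCast_dvd_natCast.2 hp2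
  · intro l hs hlz hlq
    have hl : l ∈ Lz q₀ z := mem_Lz.2 ⟨hs.1, hlq, hlz⟩
    exact ⟨key1 l hl, key2 l hl⟩

/-- candidates for auxiliary primes -/
lemma exists_cand {q₀ : ℕ} (hM : Md t c q₀) (z : ℕ) {S0 : ℝ} (hS0 : 0 ≤ S0) :
    ∃ (QQ : ℕ × ℕ → Finset ℕ) (cl : Tr → ℕ × ℕ),
      (∀ e, cl e ∈ RJ q₀ z) ∧
      (∀ r ∈ RJ q₀ z, (∀ q ∈ QQ r, q.Prime ∧ q ≡ 1 [MOD D4 t c] ∧ z ^ 2 < q ∧
          ∃ y : ℕ, q = 1 + r.1 * y ∧ q₀ ∣ y) ∧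
        S0 ≤ ∑ q ∈ QQ r, 1 / (q : ℝ) ∧ ∑ q ∈ QQ r, 1 / (q : ℝ) ≤ S0 + 1) ∧
      (∀ e f : Tr, Cg (mz t c z) e f → cl e = cl f) ∧
      (∀ e : Tr, TrOk t c e → ∀ q ∈ QQ (cl e), ∀ y : ℕ, q = 1 + (cl e).1 * y →
        Lo t c q₀ z ((cl e).1, y) e) := by
  classical
  have h0 := hM.pos
  have hJ := JJ_pos h0 z
  have hm : 0 < mz t c z := Pool.Agent.W583.GT.mz_pos z
  have : NeZero (mz t c z) := ⟨hm.ne'⟩
  have hQQ : ∀ r : ℕ × ℕ, ∃ Q : Finset ℕ, r ∈ RJ q₀ z →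
      ((∀ q ∈ Q, q.Prime ∧ q ≡ 1 + r.1 * r.2 [MOD r.1 * JJ q₀ z] ∧ z ^ 2 < q) ∧
        S0 ≤ ∑ q ∈ Q, 1 / (q : ℝ) ∧ ∑ q ∈ Q, 1 / (q : ℝ) ≤ S0 + 1) := by
    intro r
    by_cases hr : r ∈ RJ q₀ z
    · obtain ⟨h1, h2, h3, h4, h5⟩ := mem_RJ.1 hr
      obtain ⟨Q, g1, g2, g3⟩ := exists_QQ (M := r.1 * JJ q₀ z) (Nat.mul_pos h2 hJ) h5 (z ^ 2) hS0
      exact ⟨Q, fun _ => ⟨g1, g2, g3⟩⟩
    · exact ⟨∅, fun h => absurd h hr⟩
  choose QQ hQQ using hQQ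
  -- the class function
  have hcl : ∀ κ : ZMod (mz t c z) × ZMod (mz t c z) × ZMod (mz t c z), ∃ r ∈ RJ q₀ z,
      (∃ r ∈ RJ q₀ z, Lo t c q₀ z r (lif _ κ)) → Lo t c q₀ z r (lif _ κ) := by
    intro κ
    by_cases h : ∃ r ∈ RJ q₀ z, Lo t c q₀ z r (lif _ κ)
    · obtain ⟨r, hr, h'⟩ := h
      exact ⟨r, hr, fun _ => h'⟩
    · exact ⟨_, default_RJ h0 z, fun h' => absurd h' h⟩
  choose cc hcc1 hcc2 using hcl
  -- the local condition depends only on the class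
  have htr : ∀ (r : ℕ × ℕ) (e f : Tr), Cg (mz t c z) e f → Lo t c q₀ z r f → Lo t c q₀ z r e := by
    rintro r e f ⟨g1, g2, g3⟩ hL l hs hlz hlq
    have hlm : (l : ℤ) ∣ (mz t c z : ℤ) := by
      have : l ∣ mz t c z := by
        unfold mz
        refine (dvd_pow_self l two_ne_zero).trans (dvd_prod_of_mem (fun l => l ^ 2) ?_)
        rw [mem_filter, mem_range]
        exact ⟨by omega, hs⟩
      exact_mod_cast this
    have k1 := hlm.trans g1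
    have k2 := hlm.trans g2
    have k3 := hlm.trans g3
    obtain ⟨m1, m2⟩ := hL l hs hlz hlq
    exact ⟨MM_congr' k1 k2 k3 m1, MM_congr' k3 k2 k1 m2⟩
  have hmain : ∀ e : Tr, TrOk t c e → Lo t c q₀ z (cc (rd _ e)) e := by
    intro e he
    have h1 : Cg (mz t c z) (lif _ (rd _ e)) e := rd_eq_iff.1 (rd_lif _ _)
    have h1' : Cg (mz t c z) e (lif _ (rd _ e)) := rd_eq_iff.1 (rd_lif _ _).symm
    obtain ⟨r, hr, hL⟩ := exists_jy hM z he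
    exact htr _ _ _ h1' (hcc2 _ ⟨r, hr, htr _ _ _ h1 hL⟩)
  refine ⟨QQ, fun e => cc (rd _ e), fun e => hcc1 _, ?_, ?_, ?_⟩
  · intro r hr
    obtain ⟨h1, h2, h3⟩ := hQQ r hr
    obtain ⟨g1, g2, g3, g4, g5⟩ := mem_RJ.1 hr
    refine ⟨fun q hq => ?_, h2, h3⟩
    obtain ⟨k1, k2, k3⟩ := h1 q hq
    have hq1 : q ≡ 1 [MOD r.1] := by
      refine (k2.of_dvd (Dvd.intro _ rfl)).trans ?_
      unfold Nat.ModEq
      simp
    have hqge : 1 ≤ q := k1.one_lt.le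
    obtain ⟨y, hy⟩ := (Nat.modEq_iff_dvd' hqge).1 hq1.symm
    have hqy : q = 1 + r.1 * y := by omega
    have hyy : y ≡ r.2 [MOD JJ q₀ z] := by
      have h4 : 1 + r.1 * y ≡ 1 + r.1 * r.2 [MOD r.1 * JJ q₀ z] := hqy ▸ k2
      have h5 : r.1 * y ≡ r.1 * r.2 [MOD r.1 * JJ q₀ z] := Nat.ModEq.add_left_cancel' 1 h4
      exact Nat.ModEq.mul_left_cancel' (by omega) h5
    have hq0y : q₀ ∣ y := by
      have h4 : y ≡ 0 [MOD q₀] := (hyy.of_dvd (Dvd.intro _ rfl)).trans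
        ((Nat.modEq_zero_iff_dvd).2 g4)
      exact (Nat.modEq_zero_iff_dvd).1 h4
    refine ⟨k1, ?_, k3, y, hqy, hq0y⟩
    have h6 : q ≡ 1 [MOD q₀] := by
      have h7 : r.1 * y ≡ 0 [MOD q₀] := (Nat.modEq_zero_iff_dvd).2 (hq0y.mul_left _)
      rw [hqy]
      exact Nat.ModEq.add_left 1 h7
    exact h6.of_dvd hM.d4
  · intro e f hef
    show cc (rd _ e) = cc (rd _ f)
    rw [rd_eq_iff.2 hef]
  · intro e he q hq y hy
    have hr := hcc1 (rd _ e)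
    obtain ⟨h1, h2, h3⟩ := hQQ _ hr
    obtain ⟨g1, g2, g3, g4, g5⟩ := mem_RJ.1 hr
    obtain ⟨k1, k2, k3⟩ := h1 q hq
    have hyy : y ≡ (cc (rd _ e)).2 [MOD JJ q₀ z] := by
      have h4 : 1 + (cc (rd _ e)).1 * y ≡ 1 + (cc (rd _ e)).1 * (cc (rd _ e)).2
          [MOD (cc (rd _ e)).1 * JJ q₀ z] := hy ▸ k2
      have h5 := Nat.ModEq.add_left_cancel' 1 h4
      exact Nat.ModEq.mul_left_cancel' (by omega) h5
    intro l hs hlz hlq
    obtain ⟨m1, m2⟩ := hmain e he l hs hlz hlq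
    refine ⟨m1, ?_⟩
    have hl : l ∈ Lz q₀ z := mem_Lz.2 ⟨hs.1, hlq, hlz⟩
    refine MM_congr (x' := -((cc (rd _ e)).2 : ℤ)) ?_ m2
    have h4 := (Nat.modEq_iff_dvd.1 (hyy.of_dvd (dvd_JJ hl)))
    have e1 : -(y : ℤ) - -((cc (rd _ e)).2 : ℤ) = ((cc (rd _ e)).2 : ℤ) - y := by ring
    rw [e1]
    exact h4

end Pool.Agent.Y869.SQ
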