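import Pool.Agent.Y869.SQ.Sets

/-!
Project SQ (helper869): the resolution in a class, main theorem.
-/

set_option autoImplicit false

namespace Pool.Agent.Y869.SQ

open Finset Filter
open Pool.Agent.H376R2.MR (lam)
open Pool.Agent.W78.GT
open Pool.Agent.W500.GT (TrOk mem_tri' NT_ne_zero NT_Qp Kn Tm Tm_inj Tm_NT Tm_ok Tm_tri B1 B2 PP
  mem_PP exc_eq_zero card_le_rel sum_PP_le prod_le_exp log_key exists_QQ)

variable {t c : ℤ}

/-- the properties of a new triple -/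
def Nw (t c : ℤ) (q₀ : ℕ) (c₀ : ℤ) (Y : ℝ) (e f : Tr) : Prop :=
  f ∈ tri t c Y Y ∧ Cl q₀ c₀ f ∧ exc (NT f) ≤ exc (NT e) - 1

/-- the same signs -/
def Sm (e f : Tr) : Prop := lam f.1 = lam e.1 ∧ lam f.2.2 = lam e.2.2

/-- RS: the resolution in a class. For most triples `e` of the class there are three triples of the
class with smaller excess, and one of them has the same signs as `e`. -/
def S_RS (t c : ℤ) (q₀ : ℕ) (c₀ : ℤ) : Prop := ∀ δ : ℝ, 0 < δ → ∃ (Q : ℝ) (D : ℕ) (X₀ : ℝ), 1 ≤ Q ∧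
  ∀ X : ℝ, X₀ ≤ X → ∃ (E : Finset Tr) (F₁ F₂ F₃ : Tr → Tr), (E.card : ℝ) ≤ δ * X ∧
    (∀ e ∈ tri t c X X, Cl q₀ c₀ e → e ∉ E → Nw t c q₀ c₀ (Q * X) e (F₁ e) ∧
      Nw t c q₀ c₀ (Q * X) e (F₂ e) ∧ Nw t c q₀ c₀ (Q * X) e (F₃ e) ∧
      (Sm e (F₁ e) ∨ Sm e (F₂ e) ∨ Sm e (F₃ e))) ∧
    (open scoped Classical in
      ∀ f : Tr, ((tri t c X X).filter (fun e => Cl q₀ c₀ e ∧ e ∉ E ∧ F₁ e = f)).card ≤ D ∧
        ((tri t c X X).filter (fun e => Cl q₀ c₀ e ∧ e ∉ E ∧ F₂ e = f)).card ≤ D ∧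
        ((tri t c X X).filter (fun e => Cl q₀ c₀ e ∧ e ∉ E ∧ F₃ e = f)).card ≤ D)

/-- data for the resolution of `e` -/
structure Pd (t c : ℤ) (R : Finset ℕ) (r₀ : ℕ) (QQ : ℕ × ℕ → Finset ℕ) (cl : Tr → ℕ × ℕ) (e : Tr)
    (s : Bool × ℕ × ℕ) (e' : Tr) (q y : ℕ) (σ₁ σ₂ : Bool) (f₁ f₂ f₃ : Tr) : Prop where
  ht : s ∈ TQ t c R r₀
  hT : Tm s.1 s.2.1 e e'
  hl1 : lam e'.1 = lam e.1
  hl2 : lam e'.2.2 = lam e.2.2
  typ : (s.2.2 = 1 ∧ exc (NT e) = 0) ∨ (s.2.2.Prime ∧ s.2.2 ∣ e'.1 ∧ s.2.2 ∣ e'.2.2)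
  hq : q ∈ QQ (cl e')
  hqd : (q : ℤ) ∣ D1 t (cl e').1 e'
  hR : Rz t q (cl e').1 y σ₁ σ₂ e' f₁ f₂ f₃
  ok1 : TrOk t c f₁
  ok2 : TrOk t c f₂
  ok3 : TrOk t c f₃

/-- the label of the data -/
abbrev Lb := ((Bool × ℕ × ℕ) × (ℕ × ℕ)) × (ℕ × Bool)

open scoped Classical in
lemma mult_key {R : Finset ℕ} {r₀ q₀ z : ℕ} (hRp : ∀ r ∈ R, r.Prime) {QQ : ℕ × ℕ → Finset ℕ}
    {cl : Tr → ℕ × ℕ} (hcl : ∀ e, cl e ∈ RJ q₀ z) {UU : Finset ℕ} (hUU : ∀ e, QQ (cl e) ⊆ UU)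
    (U : Finset Tr) (hok : ∀ e ∈ U, TrOk t c e)
    {sF : Tr → Bool × ℕ × ℕ} {eF : Tr → Tr} {qF yF : Tr → ℕ} {aF bF : Tr → Bool} {F₁ F₂ F₃ : Tr → Tr}
    (hU : ∀ e ∈ U, Pd t c R r₀ QQ cl e (sF e) (eF e) (qF e) (yF e) (aF e) (bF e) (F₁ e) (F₂ e) (F₃ e))
    (f : Tr) :
    (U.filter (fun e => F₁ e = f)).card ≤
      (TQ t c R r₀).card * (RJ q₀ z).card * (UU.card * 2) ∧
    (U.filter (fun e => F₂ e = f)).card ≤
      (TQ t c R r₀).card * (RJ q₀ z).card * (UU.card * 2) ∧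
    (U.filter (fun e => F₃ e = f)).card ≤
      (TQ t c R r₀).card * (RJ q₀ z).card * (UU.card * 2) := by
  have hcard : (((TQ t c R r₀) ×ˢ (RJ q₀ z)) ×ˢ (UU ×ˢ (univ : Finset Bool))).card =
      (TQ t c R r₀).card * (RJ q₀ z).card * (UU.card * 2) := by
    rw [card_product, card_product, card_product, card_univ, Fintype.card_bool]
  rw [← hcard]
  have maps : ∀ (τ : Tr → Bool), ∀ e ∈ U, ((sF e, cl (eF e)), (qF e, τ e)) ∈
      (((TQ t c R r₀) ×ˢ (RJ q₀ z)) ×ˢ (UU ×ˢ (univ : Finset Bool))) := by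
    intro τ e he
    have h := hU e he
    rw [mem_product, mem_product, mem_product]
    exact ⟨⟨h.ht, hcl _⟩, hUU _ h.hq, mem_univ _⟩
  -- the same `y`
  have hy : ∀ e ∈ U, ∀ e' ∈ U, cl (eF e) = cl (eF e') → qF e = qF e' → yF e = yF e' := by
    intro e he e' he' h1 h2
    have k1 := (hU e he).hR.qjy
    have k2 := (hU e' he').hR.qjy
    rw [h1, h2, k2] at k1
    have h3 : (cl (eF e')).1 * yF e' = (cl (eF e')).1 * yF e := by omega
    have hj : 0 < (cl (eF e')).1 := (mem_RJ.1 (hcl (eF e'))).2.1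
    exact (Nat.eq_of_mul_eq_mul_left hj h3).symm
  -- from `e'` to `e`
  have hfin : ∀ e ∈ U, ∀ e' ∈ U, sF e = sF e' → eF e = eF e' → e = e' := by
    intro e he e' he' h1 h2
    have k1 := (hU e he).hT
    have k2 := (hU e' he').hT
    rw [← h1, ← h2] at k2
    exact Tm_inj (TQ_ne_zero hRp (hU e he).ht) k1 k2
  have hok' : ∀ e ∈ U, TrOk t c (eF e) := fun e he => Tm_ok (hU e he).hT (hok e he)
  refine ⟨?_, ?_, ?_⟩
  · apply Finset.card_le_card_of_injOn (fun e => ((sF e, cl (eF e)), (qF e, aF e)))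
    · intro e he
      rw [mem_coe, mem_filter] at he
      exact maps aF e he.1
    · intro e he e' he' hee
      rw [mem_coe, mem_filter] at he he'
      obtain ⟨g1, g2⟩ := Prod.mk.inj hee
      obtain ⟨g3, g4⟩ := Prod.mk.inj g1
      obtain ⟨g5, g6⟩ := Prod.mk.inj g2
      have g7 := hy e he.1 e' he'.1 g4 g5
      have r1 := (hU e he.1).hR
      have r2 := (hU e' he'.1).hR
      rw [← g4, ← g5, ← g6, ← g7, he'.2] at r2
      rw [he.2] at r1
      exact hfin e he.1 e' he'.1 g3 (Rz_inj1 (hok' e he.1) (hok' e' he'.1) r1 r2)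
  · apply Finset.card_le_card_of_injOn (fun e => ((sF e, cl (eF e)), (qF e, bF e)))
    · intro e he
      rw [mem_coe, mem_filter] at he
      exact maps bF e he.1
    · intro e he e' he' hee
      rw [mem_coe, mem_filter] at he he'
      obtain ⟨g1, g2⟩ := Prod.mk.inj hee
      obtain ⟨g3, g4⟩ := Prod.mk.inj g1
      obtain ⟨g5, g6⟩ := Prod.mk.inj g2
      have g7 := hy e he.1 e' he'.1 g4 g5
      have r1 := (hU e he.1).hR
      have r2 := (hU e' he'.1).hR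
      rw [← g4, ← g5, ← g6, ← g7, he'.2] at r2
      rw [he.2] at r1
      exact hfin e he.1 e' he'.1 g3 (Rz_inj2 r1 r2)
  · apply Finset.card_le_card_of_injOn (fun e => ((sF e, cl (eF e)), (qF e, aF e)))
    · intro e he
      rw [mem_coe, mem_filter] at he
      exact maps aF e he.1
    · intro e he e' he' hee
      rw [mem_coe, mem_filter] at he he'
      obtain ⟨g1, g2⟩ := Prod.mk.inj hee
      obtain ⟨g3, g4⟩ := Prod.mk.inj g1
      obtain ⟨g5, g6⟩ := Prod.mk.inj g2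
      have g7 := hy e he.1 e' he'.1 g4 g5
      have r1 := (hU e he.1).hR
      have r2 := (hU e' he'.1).hR
      rw [← g4, ← g5, ← g7, he'.2] at r2
      rw [he.2] at r1
      exact hfin e he.1 e' he'.1 g3 (Rz_inj3 r1 r2)

/-- sizes of the new triples -/
lemma size_all {R : Finset ℕ} {r₀ q₀ z : ℕ} (hRp : ∀ r ∈ R, r.Prime) {QQ : ℕ × ℕ → Finset ℕ}
    {cl : Tr → ℕ × ℕ} (hcl : ∀ e, cl e ∈ RJ q₀ z) {qM : ℕ} (hqM : ∀ e, ∀ q ∈ QQ (cl e), q.Prime ∧ q ≤ qM)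
    {X : ℝ} (hX : 1 ≤ X) {e e' f₁ f₂ f₃ : Tr} {s : Bool × ℕ × ℕ} {q y : ℕ} {σ₁ σ₂ : Bool}
    (he : e ∈ tri t c X X) (h : Pd t c R r₀ QQ cl e s e' q y σ₁ σ₂ f₁ f₂ f₃) :
    f₁ ∈ tri t c ((Kn t c * qM ^ 2 * wM R r₀ + 1) * X) ((Kn t c * qM ^ 2 * wM R r₀ + 1) * X) ∧
    f₂ ∈ tri t c ((Kn t c * qM ^ 2 * wM R r₀ + 1) * X) ((Kn t c * qM ^ 2 * wM R r₀ + 1) * X) ∧
    f₃ ∈ tri t c ((Kn t c * qM ^ 2 * wM R r₀ + 1) * X) ((Kn t c * qM ^ 2 * wM R r₀ + 1) * X) := by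
  have hw := TQ_ne_zero hRp h.ht
  have hwle := TQ_le h.ht
  have he' := Tm_tri hw h.hT he
  rw [mem_tri'] at he'
  have hX0 : (0 : ℝ) ≤ X := by linarith
  have b1 := he'.2.1.trans (B1_le (k := s.1) (Nat.one_le_iff_ne_zero.2 hw) hwle hX0)
  have b2 := he'.2.2.trans (B2_le (k := s.1) (Nat.one_le_iff_ne_zero.2 hw) hwle hX0)
  obtain ⟨hqp, hqle⟩ := hqM _ _ h.hq
  have hj : 1 ≤ (cl e').1 := (mem_RJ.1 (hcl e')).2.1
  have hy : 1 ≤ y := by
    rcases Nat.eq_zero_or_pos y with h0 | h0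
    · have := h.hR.qjy
      rw [h0, mul_zero] at this
      have := hqp.one_lt
      omega
    · exact h0
  have hwm : (1 : ℝ) ≤ wM R r₀ := by
    have : 1 ≤ wM R r₀ := (Nat.one_le_iff_ne_zero.2 hw).trans hwle
    exact_mod_cast this
  have hs := size_key he'.1 h.hR hj hy h.ok1 h.ok2 h.ok3 hX hwm b1 b2
  have hqle' : (q : ℝ) ≤ qM := by exact_mod_cast hqle
  have hle : (Kn t c : ℝ) * q ^ 2 * wM R r₀ * X ≤ (Kn t c * qM ^ 2 * wM R r₀ + 1) * X := by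
    have h1 : (Kn t c : ℝ) * q ^ 2 * wM R r₀ ≤ Kn t c * qM ^ 2 * wM R r₀ := by gcongr
    have h2 : (Kn t c : ℝ) * q ^ 2 * wM R r₀ ≤ Kn t c * qM ^ 2 * wM R r₀ + 1 := by linarith
    exact mul_le_mul_of_nonneg_right h2 hX0
  exact ⟨tri_mono hle hle hs.1, tri_mono hle hle hs.2.1, tri_mono hle hle hs.2.2⟩

/-- the main theorem on the resolution, for small `δ` -/
theorem rs_of {q₀ : ℕ} {c₀ : ℤ} (hM : Md t c q₀) (hG : Gc q₀ c₀) (hequt : S_EQUT t c)
    (h3 : S_LARGET t c) (h4 : S_SIFTT t c) (h6 : S_VET t c) : S_RS t c q₀ c₀ := by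
  classical
  intro δ₀ hδ₀
  -- `δ ≤ 1`
  obtain ⟨δ, hδd⟩ : ∃ δ : ℝ, δ = min δ₀ 1 := ⟨_, rfl⟩
  have hδ : 0 < δ := by rw [hδd]; exact lt_min hδ₀ one_pos
  have hδ1 : δ ≤ 1 := by rw [hδd]; exact min_le_right _ _
  have hδδ₀ : δ ≤ δ₀ := by rw [hδd]; exact min_le_left _ _
  obtain ⟨C1, hC1, hexc⟩ := exc3_of hequt
  obtain ⟨C2, hC2, hsq⟩ := sqt_of hM hequt h3
  obtain ⟨C3, hC3, hve⟩ := h6
  obtain ⟨C4, hC4, hsift⟩ := h4
  obtain ⟨A, hlarge⟩ := h3
  have hq0 := hM.pos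
  -- `r₀`
  obtain ⟨r₀, hr01, hr02, hr03⟩ : ∃ r₀ : ℕ, 2 ≤ r₀ ∧ q₀ ≤ r₀ ∧ C2 / r₀ ≤ δ / 8 := by
    refine ⟨max 2 (max q₀ ⌈8 * C2 / δ⌉₊), le_max_left _ _,
      (le_max_left _ _).trans (le_max_right _ _), ?_⟩
    have h1 : 8 * C2 / δ ≤ ((max 2 (max q₀ ⌈8 * C2 / δ⌉₊) : ℕ) : ℝ) :=
      (Nat.le_ceil _).trans (by exact_mod_cast (le_max_right _ _).trans (le_max_right _ _))
    have h2 : (0 : ℝ) < ((max 2 (max q₀ ⌈8 * C2 / δ⌉₊) : ℕ) : ℝ) := by
      have : 2 ≤ max 2 (max q₀ ⌈8 * C2 / δ⌉₊) := le_max_left _ _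
      have : (2 : ℝ) ≤ ((max 2 (max q₀ ⌈8 * C2 / δ⌉₊) : ℕ) : ℝ) := by exact_mod_cast this
      linarith
    rw [div_le_iff₀ hδ] at h1
    rw [div_le_iff₀ h2]
    linarith
  -- `R`
  obtain ⟨κ₀, hκ00, hκ01, hκ02⟩ : ∃ κ : ℝ, 0 < κ ∧ κ ≤ 1 ∧ C3 * κ ≤ δ / 16 := by
    refine ⟨min 1 (δ / (16 * C3)), lt_min one_pos (by positivity), min_le_left _ _, ?_⟩
    have : min 1 (δ / (16 * C3)) ≤ δ / (16 * C3) := min_le_right _ _
    calc C3 * min 1 (δ / (16 * C3)) ≤ C3 * (δ / (16 * C3)) := by gcongr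
      _ = δ / 16 := by field_simp
  obtain ⟨SR, hSR0, hSR⟩ : ∃ S : ℝ, 0 ≤ S ∧ C3 * C4 * Real.exp (-S) ≤ δ * κ₀ / 16 := by
    refine ⟨Real.log (max 1 (16 * (C3 * C4) / (δ * κ₀))), Real.log_nonneg (le_max_left _ _), ?_⟩
    have h1 : (0 : ℝ) < max 1 (16 * (C3 * C4) / (δ * κ₀)) := lt_of_lt_of_le one_pos (le_max_left _ _)
    rw [Real.exp_neg, Real.exp_log h1]
    have h2 : 16 * (C3 * C4) / (δ * κ₀) ≤ max 1 (16 * (C3 * C4) / (δ * κ₀)) := le_max_right _ _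
    rw [div_le_iff₀ (by positivity)] at h2
    rw [← div_eq_mul_inv, div_le_iff₀ h1]
    linarith
  have hD4 : 0 < D4 t c := by
    unfold D4
    have h1 : t ^ 2 - 4 * c ≠ 0 := by
      intro h
      apply hM.nsq
      rw [h]
      exact IsSquare.zero
    have := Int.natAbs_pos.2 h1
    omega
  obtain ⟨R, hR1, hR2, -⟩ := exists_QQ (M := D4 t c) (r := 1) hD4 (Nat.coprime_one_left _) r₀ hSR0
  have hRp : ∀ r ∈ R, r.Prime := fun r hr => (hR1 r hr).1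
  have hRp' : ∀ r ∈ R, r.Prime ∧ r₀ < r := fun r hr => ⟨(hR1 r hr).1, (hR1 r hr).2.2⟩
  -- constants
  obtain ⟨nT, hnT⟩ : ∃ n : ℕ, n = (TQ t c R r₀).card := ⟨_, rfl⟩
  obtain ⟨wm, hwm⟩ : ∃ n : ℕ, wM R r₀ = n := ⟨_, rfl⟩
  obtain ⟨W0, hW0⟩ : ∃ w : ℝ, w = nT * (2 * q₀) ^ 4 * Kn t c * wm * C3 + 1 := ⟨_, rfl⟩
  have hW01 : 1 ≤ W0 := by
    rw [hW0]
    have : 0 ≤ (nT : ℝ) * (2 * q₀) ^ 4 * Kn t c * wm * C3 := by positivity
    linarith
  obtain ⟨K1, hK1, hK11, hK12⟩ : ∃ K1 : ℝ, 0 < K1 ∧ 1 ≤ K1 ∧ 256 * C4 * W0 ^ 2 / δ ^ 2 ≤ K1 :=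
    ⟨max 1 (256 * C4 * W0 ^ 2 / δ ^ 2), lt_of_lt_of_le one_pos (le_max_left _ _), le_max_left _ _,
      le_max_right _ _⟩
  have hL : 0 < Real.log 65536 := Real.log_pos (by norm_num)
  obtain ⟨z, hzr, hz5, hz1⟩ := exists_z (C := (2 * R.card + 2) * C1) (a := Real.log K1 + 2)
    (b := Real.log 65536) (ε := δ / 8) (by positivity) (by
      have := Real.log_nonneg hK11
      linarith) hL.le (by positivity) r₀
  obtain ⟨S0, hS0d⟩ : ∃ S0 : ℝ, S0 = Real.log K1 + z * Real.log 65536 := ⟨_, rfl⟩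
  have hS0n : 0 ≤ S0 := by
    rw [hS0d]
    have := Real.log_nonneg hK11
    positivity
  have hS0e : Real.exp (-S0) = 1 / (K1 * 65536 ^ z) := by
    rw [hS0d, neg_add, Real.exp_add, Real.exp_neg, Real.exp_neg, Real.exp_log hK1,
      Real.exp_nat_mul, Real.exp_log (by norm_num)]
    field_simp
  have hz1R : (5 : ℝ) ≤ z := by exact_mod_cast hz5
  have hz0 : (0 : ℝ) < z := by linarith
  have hlz : 0 < Real.log z := Real.log_pos (by linarith)
  obtain ⟨K, hK⟩ : ∃ K : ℝ, K = Kn t c * (2 * JJ q₀ z) ^ 2 * wm := ⟨_, rfl⟩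
  have hJJ := JJ_pos hq0 z
  have hKnn : 0 ≤ K := by rw [hK]; positivity
  -- `nT |RJ| K C3 ≤ W0 256^z`
  have hWz : (nT : ℝ) * (RJ q₀ z).card * (C3 * K) ≤ W0 * 256 ^ z := by
    have h1 : ((RJ q₀ z).card : ℝ) ≤ (2 * JJ q₀ z) * (2 * JJ q₀ z) := by exact_mod_cast RJ_card q₀ z
    have h2 : (JJ q₀ z : ℝ) ≤ q₀ * 4 ^ z := by exact_mod_cast JJ_le q₀ z
    calc (nT : ℝ) * (RJ q₀ z).card * (C3 * K)
        ≤ nT * ((2 * JJ q₀ z) * (2 * JJ q₀ z)) * (C3 * (Kn t c * (2 * JJ q₀ z) ^ 2 * wm)) := by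
          rw [hK]; gcongr
      _ = nT * Kn t c * wm * C3 * 16 * (JJ q₀ z : ℝ) ^ 4 := by ring
      _ ≤ nT * Kn t c * wm * C3 * 16 * (q₀ * 4 ^ z) ^ 4 := by gcongr
      _ = (nT * (2 * q₀) ^ 4 * Kn t c * wm * C3) * 256 ^ z := by
          have : ((4 : ℝ) ^ z) ^ 4 = 256 ^ z := by
            rw [← pow_mul, mul_comm, pow_mul]; norm_num
          rw [mul_pow, this]
          ring
      _ ≤ W0 * 256 ^ z := by
          rw [hW0]
          have h256' : (0 : ℝ) ≤ 256 ^ z := pow_nonneg (by norm_num) z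
          exact mul_le_mul_of_nonneg_right (le_add_of_nonneg_right zero_le_one) h256'
  obtain ⟨κ, hκd⟩ : ∃ κ : ℝ, κ = δ / (16 * W0 * 256 ^ z) := ⟨_, rfl⟩
  have h256 : (1 : ℝ) ≤ 256 ^ z := one_le_pow₀ (by norm_num)
  have hκ0 : 0 < κ := by rw [hκd]; positivity
  have hκ1 : κ ≤ 1 := by
    rw [hκd, div_le_one (by positivity)]
    have h1W : 1 ≤ W0 * 256 ^ z := one_le_mul_of_one_le_of_one_le hW01 h256
    have h2W : 16 * W0 * 256 ^ z = 16 * (W0 * 256 ^ z) := by ring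
    rw [h2W]
    linarith only [hδ1, h1W]
  -- the candidates
  obtain ⟨QQ, cl, hclR, hQQ, hper, hlocal⟩ := exists_cand hM z hS0n
  obtain ⟨UU, hUUd⟩ : ∃ U : Finset ℕ, U = (RJ q₀ z).biUnion QQ := ⟨_, rfl⟩
  have hUU : ∀ e, QQ (cl e) ⊆ UU := by
    intro e q hq
    rw [hUUd, mem_biUnion]
    exact ⟨cl e, hclR e, hq⟩
  obtain ⟨qM, hqMd⟩ : ∃ n : ℕ, n = ∑ q ∈ UU, q := ⟨_, rfl⟩
  have hqM : ∀ e, ∀ q ∈ QQ (cl e), q.Prime ∧ q ≤ qM := by
    intro e q hq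
    refine ⟨((hQQ _ (hclR e)).1 q hq).1, ?_⟩
    rw [hqMd]
    exact Finset.single_le_sum (f := fun q : ℕ => q) (fun i _ => Nat.zero_le i) (hUU e hq)
  obtain ⟨D, hD⟩ : ∃ D : ℕ, D = (TQ t c R r₀).card * (RJ q₀ z).card * (UU.card * 2) := ⟨_, rfl⟩
  obtain ⟨Qb, hQb⟩ : ∃ Q : ℝ, Q = Kn t c * qM ^ 2 * wM R r₀ + 1 := ⟨_, rfl⟩
  have hQb1 : 1 ≤ Qb := by
    rw [hQb]
    have : 0 ≤ (Kn t c : ℝ) * qM ^ 2 * wM R r₀ := by positivity
    linarith
  -- `D₂ ≤ 0`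
  obtain ⟨M5, hM5⟩ : ∃ n : ℕ, n = (t ^ 2 - 4 * c).natAbs := ⟨_, rfl⟩
  obtain ⟨N5, hN5⟩ : ∃ n : ℕ, n = t.natAbs + (2 * qM + 1) * (t ^ 2 - 4 * c).natAbs := ⟨_, rfl⟩
  -- eventual statements
  have ev1 : ∀ᶠ X : ℝ in atTop, ∀ s ∈ TQ t c R r₀,
      ((EX t c z (fun e => QQ (cl e)) (fun e => (cl e).1) (A + 1) X (B1 s.1 s.2.1 X)
        (B2 s.1 s.2.1 X) s.2.2).card : ℝ) ≤
        (C1 * (S0 + 1) / (z * Real.log z) * X) / (s.2.2 : ℝ) ^ 2 := by
    obtain ⟨X₀, hX₀⟩ := hexc z (S0 + 1) (fun e => QQ (cl e)) (fun e => (cl e).1) hz5 (by linarith)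
      (fun e f hef => by
        have := hper e f hef
        exact ⟨congrArg QQ this, congrArg Prod.fst this⟩)
      (fun e q hq => by
        obtain ⟨g1, g2, g3, y, g4, -⟩ := (hQQ _ (hclR e)).1 q hq
        exact ⟨g1, g2, g3, y, g4⟩)
      (fun e => (hQQ _ (hclR e)).2.2) (A + 1)
    filter_upwards [eventually_ge_atTop X₀, eventually_ge_atTop (wm : ℝ), eventually_ge_atTop 1,
      Real.tendsto_log_atTop.eventually_ge_atTop (wm : ℝ),
      Real.tendsto_log_atTop.eventually_ge_atTop 1] with X hX hXz hX1 hlX hlX1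
    intro s hs
    obtain ⟨hp, -⟩ := TQ_prop hs
    have hp' : s.2.2 = 1 ∨ (Spl t c s.2.2 ∧ s.2.2 ≤ z) := by
      rcases hp with h | h
      · exact Or.inl h
      · exact Or.inr ⟨h.1, h.2.trans hzr⟩
    have hX0 : 0 < X := by linarith
    have hn1 : (1 : ℝ) ≤ s.2.1 := by
      exact_mod_cast Nat.one_le_iff_ne_zero.2 (TQ_ne_zero hRp hs)
    have hnz : (s.2.1 : ℝ) ≤ wm := by
      have := TQ_le hs
      rw [hwm] at this
      exact_mod_cast this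
    have hd1 : 1 ≤ X / s.2.1 := by
      rw [le_div_iff₀ (by linarith)]
      linarith
    have hd2 : X / s.2.1 ≤ X * Real.log X := by
      have : X / s.2.1 ≤ X := div_le_self hX0.le hn1
      exact this.trans (le_mul_of_one_le_right hX0.le hlX1)
    have hm1 : 1 ≤ X * s.2.1 := one_le_mul_of_one_le_of_one_le hX1 hn1
    have hm2 : X * s.2.1 ≤ X * Real.log X := by
      gcongr
      linarith
    have hpr : X / s.2.1 * (X * s.2.1) = X ^ 2 := by
      have : (s.2.1 : ℝ) ≠ 0 := by linarith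
      field_simp
    have hpr2 : X * s.2.1 * (X / s.2.1) = X ^ 2 := by
      have : (s.2.1 : ℝ) ≠ 0 := by linarith
      field_simp
    have hb1 : 1 ≤ B1 s.1 s.2.1 X ∧ B1 s.1 s.2.1 X ≤ X * Real.log X := by
      unfold B1
      split_ifs
      · exact ⟨hm1, hm2⟩
      · exact ⟨hd1, hd2⟩
    have hb2 : 1 ≤ B2 s.1 s.2.1 X ∧ B2 s.1 s.2.1 X ≤ X * Real.log X := by
      unfold B2
      split_ifs
      · exact ⟨hd1, hd2⟩
      · exact ⟨hm1, hm2⟩
    have hb12 : B1 s.1 s.2.1 X * B2 s.1 s.2.1 X ≤ X ^ 2 := by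
      unfold B1 B2
      split_ifs
      · exact hpr2.le
      · exact hpr.le
    have := hX₀ X (B1 s.1 s.2.1 X) (B2 s.1 s.2.1 X) hX hb1.1 hb2.1 hb12 hb1.2 hb2.2 s.2.2 hp'
    unfold EX
    exact this
  have ev2 : ∀ᶠ X : ℝ in atTop, (((tri t c X X).filter
      (fun e => ∃ l : ℕ, l.Prime ∧ r₀ < l ∧ l ^ 2 ∣ NT e)).card : ℝ) ≤ C2 / r₀ * X := by
    obtain ⟨X₀, hX₀⟩ := hsq r₀ hr01 hr02
    filter_upwards [eventually_ge_atTop X₀] with X hX
    exact hX₀ X hX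
  have ev2' : ∀ᶠ X : ℝ in atTop, (((rts t c X).filter (fun e => ∀ q ∈ R, ¬ q ∣ e.1)).card : ℝ) ≤
      C4 * Real.exp (-SR) * X := by
    obtain ⟨X₀, hX₀⟩ := hsift R (fun q hq => ⟨(hR1 q hq).1, (hR1 q hq).2.1⟩)
    filter_upwards [eventually_ge_atTop X₀, eventually_ge_atTop 0] with X hX hX0
    refine (hX₀ X hX).trans ?_
    have h1 := prod_le_exp R hRp
    have h2 : Real.exp (-∑ q ∈ R, 1 / (q : ℝ)) ≤ Real.exp (-SR) := by
      apply Real.exp_le_exp.2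
      linarith
    gcongr
    exact h1.trans h2
  have ev3 : ∀ᶠ X : ℝ in atTop, ∀ r ∈ RJ q₀ z,
      (((rts t c (K * X)).filter (fun e => ∀ q ∈ QQ r, ¬ q ∣ e.1)).card : ℝ) ≤
        C4 * Real.exp (-S0) * (K * X) := by
    rw [Filter.eventually_all_finset]
    intro r hr
    obtain ⟨X₀, hX₀⟩ := hsift (QQ r)
      (fun q hq => ⟨((hQQ r hr).1 q hq).1, ((hQQ r hr).1 q hq).2.1⟩)
    have hK1' : 1 ≤ K := by
      rw [hK]
      have g1 : (1 : ℝ) ≤ (JJ q₀ z : ℝ) := by exact_mod_cast hJJ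
      have g2 : (1 : ℝ) ≤ Kn t c := by
        unfold Kn
        push_cast
        linarith [(Nat.cast_nonneg (t ^ 2 - 4 * c).natAbs : (0:ℝ) ≤ _)]
      have g3 : (1 : ℝ) ≤ wm := by
        have : 1 ≤ wm := by
          rw [← hwm]
          unfold wM
          exact Nat.mul_pos (by omega) (by omega)
        exact_mod_cast this
      have g4 : (1 : ℝ) ≤ (2 * JJ q₀ z : ℝ) ^ 2 := one_le_pow₀ (by linarith)
      have g5 : (1 : ℝ) ≤ (Kn t c : ℝ) * (2 * JJ q₀ z : ℝ) ^ 2 :=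
        one_le_mul_of_one_le_of_one_le g2 g4
      exact one_le_mul_of_one_le_of_one_le g5 g3
    filter_upwards [eventually_ge_atTop X₀, eventually_ge_atTop 0] with X hX hX0
    refine (hX₀ (K * X) (hX.trans (le_mul_of_one_le_left hX0 hK1'))).trans ?_
    have h1 := prod_le_exp (QQ r) (fun q hq => ((hQQ r hr).1 q hq).1)
    have h2 : Real.exp (-∑ q ∈ QQ r, 1 / (q : ℝ)) ≤ Real.exp (-S0) := by
      apply Real.exp_le_exp.2
      linarith [(hQQ r hr).2.1]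
    have h3 : 0 ≤ K * X := by positivity
    gcongr
    exact h1.trans h2
  have ev4 : ∀ᶠ X : ℝ in atTop, (((tri t c (Qb * X) (Qb * X)).filter
      (fun e => ∃ l : ℕ, l.Prime ∧ Real.log (Qb * X) ^ A < (l : ℝ) ∧ l ^ 2 ∣ NT e)).card : ℝ) ≤
        δ / (24 * (D + 1) * Qb) * (Qb * X) := by
    obtain ⟨X₀, hX₀⟩ := hlarge (δ / (24 * (D + 1) * Qb)) (by positivity)
    filter_upwards [eventually_ge_atTop X₀, eventually_ge_atTop 0] with X hX hX0
    exact hX₀ _ (hX.trans (le_mul_of_one_le_left hX0 hQb1))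
  have ev5 : ∀ᶠ X : ℝ in atTop, (((TQ t c R r₀).card * ((M5 + 1) * (2 * N5 + 1)) : ℕ) : ℝ) ≤
      δ / 8 * X := by
    have : Tendsto (fun X : ℝ => δ / 8 * X) atTop atTop := tendsto_id.const_mul_atTop (by positivity)
    exact this.eventually_ge_atTop _
  obtain ⟨X₀, hX₀⟩ := eventually_atTop.1 (((((((ev1.and ev2).and ev2').and ev3).and ev4).and ev5).and
    (eventually_ge_atTop Qb)).and (Real.tendsto_log_atTop.eventually_ge_atTop ((2 : ℝ) ^ A)))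
  refine ⟨Qb, D, X₀, hQb1, fun X hX => ?_⟩
  obtain ⟨⟨⟨⟨⟨⟨⟨e1, e2⟩, e2'⟩, e3⟩, e4⟩, e7⟩, e5⟩, e6⟩ := hX₀ X hX
  have hX1 : 1 ≤ X := hQb1.trans e5
  have hX0 : 0 ≤ X := by linarith
  -- the exceptional sets
  obtain ⟨G1, hG1⟩ : ∃ G : Finset Tr, G = (tri t c X X).filter
      (fun e => ∃ l : ℕ, l.Prime ∧ r₀ < l ∧ l ^ 2 ∣ NT e) := ⟨_, rfl⟩
  obtain ⟨V0, hV0⟩ : ∃ V : Finset (ℕ × ℤ), V = (rts t c X).filter (fun e => ∀ q ∈ R, ¬ q ∣ e.1) :=
    ⟨_, rfl⟩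
  obtain ⟨G2, hG2⟩ : ∃ G : Finset Tr, G = (tri t c X X).filter
      (fun e => vx e ∈ V0 ∨ vy e ∈ V0) := ⟨_, rfl⟩
  obtain ⟨V, hV⟩ : ∃ V : ℕ × ℕ → Finset (ℕ × ℤ), V = fun r =>
    (rts t c (K * X)).filter (fun e => ∀ q ∈ QQ r, ¬ q ∣ e.1) := ⟨_, rfl⟩
  obtain ⟨G3, hG3⟩ : ∃ G : Finset Tr, G = (tri t c X X).filter (fun e => ∃ s ∈ TQ t c R r₀,
      ∃ e', Tm s.1 s.2.1 e e' ∧ vx (shT t (cl e').1 e') ∈ V (cl e')) := ⟨_, rfl⟩
  obtain ⟨G4, hG4⟩ : ∃ G : Finset Tr, G = (tri t c X X).filter (fun e => ∃ s ∈ TQ t c R r₀,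
      ∃ e', Tm s.1 s.2.1 e e' ∧ e' ∈ EX t c z (fun e => QQ (cl e)) (fun e => (cl e).1) (A + 1) X
        (B1 s.1 s.2.1 X) (B2 s.1 s.2.1 X) s.2.2) := ⟨_, rfl⟩
  obtain ⟨G5, hG5⟩ : ∃ G : Finset Tr, G = (tri t c X X).filter (fun e => ∃ s ∈ TQ t c R r₀,
      ∃ e', Tm s.1 s.2.1 e e' ∧ e'.1 ≤ M5 ∧ |e'.2.1| ≤ (N5 : ℤ)) := ⟨_, rfl⟩
  obtain ⟨LG, hLG⟩ : ∃ G : Finset Tr, G = (tri t c (Qb * X) (Qb * X)).filter
      (fun e => ∃ l : ℕ, l.Prime ∧ Real.log (Qb * X) ^ A < (l : ℝ) ∧ l ^ 2 ∣ NT e) := ⟨_, rfl⟩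
  obtain ⟨U, hU⟩ : ∃ G : Finset Tr, G = (tri t c X X).filter
      (fun e => Cl q₀ c₀ e ∧ e ∉ G1 ∧ e ∉ G2 ∧ e ∉ G3 ∧ e ∉ G5) := ⟨_, rfl⟩
  rw [← hG1] at e2
  rw [← hLG] at e4
  rw [← hV0] at e2'
  -- data on `U`
  have hex : ∀ e : Tr, ∃ (s : Bool × ℕ × ℕ) (e' : Tr) (q y : ℕ) (σ₁ σ₂ : Bool) (f₁ f₂ f₃ : Tr),
      e ∈ U → Pd t c R r₀ QQ cl e s e' q y σ₁ σ₂ f₁ f₂ f₃ := by
    intro e
    by_cases he : e ∈ U
    · have he0 := he
      rw [hU, mem_filter] at he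
      obtain ⟨hed, hcl, n1, n2, n3, n5⟩ := he
      have hok := (mem_tri'.1 hed).1
      have hsq' : ¬ ∃ l : ℕ, l.Prime ∧ r₀ < l ∧ l ^ 2 ∣ NT e := by
        intro hcon
        apply n1
        rw [hG1, mem_filter]
        exact ⟨hed, hcon⟩
      have hv : vx e ∉ V0 ∧ vy e ∉ V0 := by
        constructor
        · intro hcon
          apply n2
          rw [hG2, mem_filter]
          exact ⟨hed, Or.inl hcon⟩
        · intro hcon
          apply n2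
          rw [hG2, mem_filter]
          exact ⟨hed, Or.inr hcon⟩
      have hr1 : ∃ r ∈ R, r ∣ e.1 := by
        by_contra hcon
        push Not at hcon
        apply hv.1
        rw [hV0, mem_filter]
        exact ⟨vx_mem hed, hcon⟩
      have hr2 : ∃ r ∈ R, r ∣ e.2.2 := by
        by_contra hcon
        push Not at hcon
        apply hv.2
        rw [hV0, mem_filter]
        exact ⟨vy_mem hed, hcon⟩
      obtain ⟨s, hs, e', hT, hl1, hl2, hte⟩ := exists_type hM hG hRp' hok hcl hsq' hr1 hr2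
      have hok' := Tm_ok hT hok
      have hw := TQ_ne_zero hRp hs
      have hwle := TQ_le hs
      have he' := Tm_tri hw hT hed
      rw [mem_tri'] at he'
      have b1 := he'.2.1.trans (B1_le (k := s.1) (Nat.one_le_iff_ne_zero.2 hw) hwle hX0)
      have b2 := he'.2.2.trans (B2_le (k := s.1) (Nat.one_le_iff_ne_zero.2 hw) hwle hX0)
      have hj : 1 ≤ (cl e').1 := (mem_RJ.1 (hclR e')).2.1
      -- a candidate
      have hcand : ∃ q ∈ QQ (cl e'), q ∣ (shT t (cl e').1 e').1 := by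
        by_contra hcon
        push Not at hcon
        apply n3
        rw [hG3, mem_filter]
        refine ⟨hed, s, hs, e', hT, ?_⟩
        rw [hV, mem_filter]
        refine ⟨?_, hcon⟩
        have hwm1 : (1 : ℝ) ≤ wm := by
          have : 1 ≤ wm := by rw [← hwm]; exact (Nat.one_le_iff_ne_zero.2 hw).trans hwle
          exact_mod_cast this
        rw [hwm] at b1 b2
        have hwX : (1 : ℝ) ≤ wm * X := one_le_mul_of_one_le_of_one_le hwm1 hX1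
        have hd := D1_le hok' hwX b1 b2 hj
        obtain ⟨k1, k2⟩ := shT_ok hok' (cl e').1
        refine vx_mem (X₂ := ((shT t (cl e').1 e').2.2 : ℝ)) (mem_tri'.2 ⟨k1, ?_, le_rfl⟩)
        have e8 : ((shT t (cl e').1 e').1 : ℝ) = ((D1 t (cl e').1 e' : ℤ) : ℝ) := by
          exact_mod_cast congrArg (fun s : ℤ => (s : ℝ)) k2
        rw [e8, hK]
        refine hd.trans ?_
        have g1 := (mem_RJ.1 (hclR e')).1.1
        have hr2' : ((cl e').1 : ℝ) ≤ 2 * JJ q₀ z := by exact_mod_cast g1.le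
        calc (Kn t c : ℝ) * ((cl e').1 : ℝ) ^ 2 * (wm * X)
            ≤ Kn t c * (2 * JJ q₀ z : ℝ) ^ 2 * (wm * X) := by gcongr
          _ = Kn t c * (2 * JJ q₀ z) ^ 2 * wm * X := by ring
      obtain ⟨q, hq, hqd⟩ := hcand
      obtain ⟨g1, g2, g3, y, g4, g5⟩ := (hQQ _ (hclR e')).1 q hq
      have hqd' : (q : ℤ) ∣ D1 t (cl e').1 e' := by
        rw [← (shT_ok hok' (cl e').1).2]
        exact Int.natCast_dvd_natCast.2 hqd
      have hpos : 0 < D2 t y e' := by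
        by_contra hcon
        push Not at hcon
        obtain ⟨m1, m2⟩ := D2_small hM.nsq hok' hcon
        apply n5
        rw [hG5, mem_filter]
        refine ⟨hed, s, hs, e', hT, ?_, ?_⟩
        · rw [hM5]; exact m1
        · refine m2.trans ?_
          have hyq : y ≤ qM := by
            have h8 := (hqM e' q hq).2
            have : y ≤ q := by
              rw [g4]
              exact (Nat.le_mul_of_pos_left y hj).trans (Nat.le_add_left _ _)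
            exact this.trans h8
          have hyq' : (y : ℤ) ≤ qM := by exact_mod_cast hyq
          rw [hN5]
          push_cast
          have h9 : (0 : ℤ) ≤ |t ^ 2 - 4 * c| := abs_nonneg _
          have h10 : (2 * (y : ℤ) + 1) * |t ^ 2 - 4 * c| ≤ (2 * (qM : ℤ) + 1) * |t ^ 2 - 4 * c| :=
            mul_le_mul_of_nonneg_right (by linarith only [hyq']) h9
          linarith only [h10]
      obtain ⟨σ₁, σ₂, f₁, f₂, f₃, hR, o1, o2, o3⟩ := exists_Rz g4 hok' hqd' hpos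
      exact ⟨s, e', q, y, σ₁, σ₂, f₁, f₂, f₃, fun _ =>
        ⟨hs, hT, hl1, hl2, hte, hq, hqd', hR, o1, o2, o3⟩⟩
    · exact ⟨(false, 1, 1), (0, 0, 0), 0, 0, true, true, (0, 0, 0), (0, 0, 0), (0, 0, 0),
        fun h => absurd h he⟩
  choose sF eF qF yF aF bF F₁ F₂ F₃ hF using hex
  have hokU : ∀ e ∈ U, TrOk t c e := by
    intro e he
    rw [hU, mem_filter] at he
    exact (mem_tri'.1 he.1).1
  have hmult := mult_key hRp hclR hUU U hokU hF
  rw [← hD] at hmult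
  have hsize : ∀ e ∈ U, F₁ e ∈ tri t c (Qb * X) (Qb * X) ∧ F₂ e ∈ tri t c (Qb * X) (Qb * X) ∧
      F₃ e ∈ tri t c (Qb * X) (Qb * X) := by
    intro e he
    have hed : e ∈ tri t c X X := by
      rw [hU, mem_filter] at he
      exact he.1
    rw [hQb]
    exact size_all hRp hclR hqM hX1 hed (hF e he)
  obtain ⟨G6, hG6⟩ : ∃ G : Finset Tr, G = U.filter (fun e => F₁ e ∈ LG) ∪
      (U.filter (fun e => F₂ e ∈ LG) ∪ U.filter (fun e => F₃ e ∈ LG)) := ⟨_, rfl⟩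
  -- the exceptional sets are small
  have c1 : (G1.card : ℝ) ≤ δ / 8 * X := by
    refine e2.trans ?_
    gcongr
  have c2 : (G2.card : ℝ) ≤ δ / 8 * X := by
    have h1 := hve κ₀ X V0 hκ00 hκ01 hX1 (by rw [hV0]; exact filter_subset _ _)
    rw [← hG2] at h1
    refine h1.trans ?_
    rw [mul_add]
    have h2 : C3 * (κ₀ * X) ≤ δ / 16 * X := by
      rw [← mul_assoc]
      gcongr
    have h3' : C3 * ((V0.card : ℝ) / κ₀) ≤ δ / 16 * X := by
      rw [← mul_div_assoc, div_le_iff₀ hκ00]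
      calc C3 * (V0.card : ℝ) ≤ C3 * (C4 * Real.exp (-SR) * X) := by gcongr
        _ = (C3 * C4 * Real.exp (-SR)) * X := by ring
        _ ≤ (δ * κ₀ / 16) * X := by gcongr
        _ = δ / 16 * X * κ₀ := by ring
    linarith
  have c3 : (G3.card : ℝ) ≤ δ / 8 * X := by
    have h1 := card_G3 (t := t) (c := c) (κ := κ) (X := X) (v := C4 * Real.exp (-S0) * (K * X)) hve
      hκ0 hκ1 hX1 hC3.le hRp hwm hK cl hclR V (by intro r; rw [hV]; exact filter_subset _ _) (by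
        intro r hr
        rw [hV]
        exact e3 r hr)
    rw [← hG3, ← hnT] at h1
    refine h1.trans ?_
    have hWK : (0 : ℝ) ≤ (nT : ℝ) * (RJ q₀ z).card * (C3 * K) := by positivity
    have h2 : (nT : ℝ) * (RJ q₀ z).card * (C3 * (κ * (K * X))) ≤ δ / 16 * X := by
      calc (nT : ℝ) * (RJ q₀ z).card * (C3 * (κ * (K * X)))
          = ((nT : ℝ) * (RJ q₀ z).card * (C3 * K)) * (κ * X) := by ring
        _ ≤ (W0 * 256 ^ z) * (κ * X) := by gcongr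
        _ = δ / 16 * X := by rw [hκd]; field_simp
    have h3' : (nT : ℝ) * (RJ q₀ z).card * (C3 * (C4 * Real.exp (-S0) * (K * X) / κ)) ≤
        δ / 16 * X := by
      calc (nT : ℝ) * (RJ q₀ z).card * (C3 * (C4 * Real.exp (-S0) * (K * X) / κ))
          = ((nT : ℝ) * (RJ q₀ z).card * (C3 * K)) * (C4 * Real.exp (-S0) * X / κ) := by ring
        _ ≤ (W0 * 256 ^ z) * (C4 * Real.exp (-S0) * X / κ) := by gcongr
        _ = (16 * C4 * W0 ^ 2 / δ) * (256 ^ z * 256 ^ z) * Real.exp (-S0) * X := by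
            rw [hκd]; field_simp
        _ = (16 * C4 * W0 ^ 2 / δ) * X / K1 := by
            rw [hS0e]
            have : (256 : ℝ) ^ z * 256 ^ z = 65536 ^ z := by
              rw [← mul_pow]; norm_num
            rw [this]
            field_simp
        _ ≤ δ / 16 * X := by
            rw [div_le_iff₀ hK1]
            rw [div_le_iff₀ (by positivity)] at hK12
            have h5 : 16 * C4 * W0 ^ 2 / δ ≤ δ / 16 * K1 := by
              rw [div_le_iff₀ hδ]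
              linarith only [hK12]
            calc 16 * C4 * W0 ^ 2 / δ * X ≤ (δ / 16 * K1) * X := by gcongr
              _ = δ / 16 * X * K1 := by ring
    have h5 : (nT : ℝ) * (RJ q₀ z).card * (C3 * (κ * (K * X) + C4 * Real.exp (-S0) * (K * X) / κ)) =
        (nT : ℝ) * (RJ q₀ z).card * (C3 * (κ * (K * X))) +
        (nT : ℝ) * (RJ q₀ z).card * (C3 * (C4 * Real.exp (-S0) * (K * X) / κ)) := by ring
    rw [h5]
    linarith
  have c4 : (G4.card : ℝ) ≤ δ / 8 * X := by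
    have hb : 0 ≤ C1 * (S0 + 1) / (z * Real.log z) * X := by positivity
    have h1 := card_G4 hb hRp e1
    rw [← hG4] at h1
    refine h1.trans ?_
    have h2 : (2 * R.card + 2) * C1 * ((Real.log K1 + 2 + z * Real.log 65536) / (z * Real.log z)) ≤
      δ / 8 := hz1
    have h3' : (2 * (R.card : ℝ) + 2) * (C1 * (S0 + 1) / (z * Real.log z)) ≤ δ / 8 := by
      refine le_trans ?_ h2
      rw [hS0d]
      have e8 : (2 * (R.card : ℝ) + 2) * (C1 * (Real.log K1 + z * Real.log 65536 + 1) /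
          (z * Real.log z)) = (2 * R.card + 2) * C1 *
          ((Real.log K1 + z * Real.log 65536 + 1) / (z * Real.log z)) := by ring
      rw [e8]
      apply mul_le_mul_of_nonneg_left _ (by positivity)
      apply div_le_div_of_nonneg_right _ (by positivity)
      linarith
    calc (2 * (R.card : ℝ) + 2) * (C1 * (S0 + 1) / (z * Real.log z) * X)
        = (2 * (R.card : ℝ) + 2) * (C1 * (S0 + 1) / (z * Real.log z)) * X := by ring
      _ ≤ δ / 8 * X := by gcongr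
  have c5 : (G5.card : ℝ) ≤ δ / 8 * X := by
    have h1 := card_G5 (t := t) (c := c) M5 N5 (X := X) hRp (z' := r₀)
    rw [← hG5] at h1
    exact (Nat.cast_le.2 h1).trans e7
  have c6 : (G6.card : ℝ) ≤ δ / 8 * X := by
    have hgen : ∀ F : Tr → Tr, (∀ f, (U.filter (fun e => F e = f)).card ≤ D) →
        (U.filter (fun e => F e ∈ LG)).card ≤ D * LG.card := by
      intro F hFm
      apply Finset.card_le_mul_card_image_of_maps_to (f := F)
      · intro e he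
        rw [mem_filter] at he
        exact he.2
      · intro f _
        refine le_trans (Finset.card_le_card ?_) (hFm f)
        intro e he
        rw [mem_filter, mem_filter] at he
        rw [mem_filter]
        exact ⟨he.1.1, he.2⟩
    have hA := hgen F₁ (fun f => (hmult f).1)
    have hB := hgen F₂ (fun f => (hmult f).2.1)
    have hCC := hgen F₃ (fun f => (hmult f).2.2)
    have hC : G6.card ≤ 3 * D * LG.card := by
      have h1 := Finset.card_union_le (U.filter (fun e => F₁ e ∈ LG))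
        (U.filter (fun e => F₂ e ∈ LG) ∪ U.filter (fun e => F₃ e ∈ LG))
      have h2 := Finset.card_union_le (U.filter (fun e => F₂ e ∈ LG))
        (U.filter (fun e => F₃ e ∈ LG))
      rw [← hG6] at h1
      calc G6.card ≤ D * LG.card + (D * LG.card + D * LG.card) := by omega
        _ = 3 * D * LG.card := by ring
    have hC' : (G6.card : ℝ) ≤ 3 * D * LG.card := by exact_mod_cast hC
    calc (G6.card : ℝ) ≤ 3 * D * LG.card := hC'
      _ ≤ 3 * (D + 1) * (δ / (24 * (D + 1) * Qb) * (Qb * X)) := by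
          gcongr
          linarith
      _ = δ / 8 * X := by
          have h1' : Qb ≠ 0 := by linarith
          have h2' : ((D : ℝ) + 1) ≠ 0 := by positivity
          field_simp
          ring
  refine ⟨G1 ∪ (G2 ∪ (G3 ∪ (G4 ∪ (G5 ∪ G6)))), F₁, F₂, F₃, ?_, ?_, ?_⟩
  · have h7 : (G1 ∪ (G2 ∪ (G3 ∪ (G4 ∪ (G5 ∪ G6))))).card ≤
        G1.card + (G2.card + (G3.card + (G4.card + (G5.card + G6.card)))) := by
      refine (Finset.card_union_le _ _).trans (Nat.add_le_add_left ?_ _)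
      refine (Finset.card_union_le _ _).trans (Nat.add_le_add_left ?_ _)
      refine (Finset.card_union_le _ _).trans (Nat.add_le_add_left ?_ _)
      refine (Finset.card_union_le _ _).trans (Nat.add_le_add_left ?_ _)
      exact Finset.card_union_le _ _
    have h8 : ((G1 ∪ (G2 ∪ (G3 ∪ (G4 ∪ (G5 ∪ G6))))).card : ℝ) ≤
        G1.card + (G2.card + (G3.card + (G4.card + (G5.card + G6.card)))) := by
      exact_mod_cast h7
    have h9 : 0 ≤ δ * X := by positivity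
    have h10 : δ * X ≤ δ₀ * X := mul_le_mul_of_nonneg_right hδδ₀ hX0
    linarith
  · intro e hed hcle heE
    simp only [mem_union, not_or] at heE
    obtain ⟨n1, n2, n3, n4, n5, n6⟩ := heE
    have heU : e ∈ U := by
      rw [hU, mem_filter]
      exact ⟨hed, hcle, n1, n2, n3, n5⟩
    have hP := hF e heU
    have hs := hsize e heU
    have hok := (mem_tri'.1 hed).1
    have hok' : TrOk t c (eF e) := Tm_ok hP.hT hok
    have hNN := Tm_NT hP.hT
    obtain ⟨g1, g2, g3, y', g4, g5⟩ := (hQQ _ (hclR (eF e))).1 _ hP.hq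
    have hj : 0 < (cl (eF e)).1 := (mem_RJ.1 (hclR (eF e))).2.1
    have hyy : y' = yF e := by
      have h8 := hP.hR.qjy
      have : (cl (eF e)).1 * y' = (cl (eF e)).1 * yF e := by omega
      exact Nat.eq_of_mul_eq_mul_left hj this
    rw [hyy] at g5
    have hcle' : Cl q₀ c₀ (eF e) := by
      unfold Cl
      rw [hNN]
      exact hcle
    obtain ⟨k1, k2, k3⟩ := Cl_Rz hcle' hP.hR (mem_RJ.1 (hclR (eF e))).2.2.1 g5
    have hlog := log_key hQb1 e5 e6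
    have hx := local_key (L := Real.log X ^ (A + 1)) (z := z) hM hG hP.hR hP.ok1 hP.ok2 hP.ok3
      k1 k2 k3 (hlocal (eF e) hok' (qF e) hP.hq (yF e) hP.hR.qjy)
      (by
        intro l hl hzl hlL hbad
        apply n4
        rw [hG4, mem_filter]
        refine ⟨hed, sF e, hP.ht, eF e, hP.hT, ?_⟩
        unfold EX
        rw [mem_filter]
        refine ⟨Tm_tri (TQ_ne_zero hRp hP.ht) hP.hT hed, ?_, qF e, hP.hq, hP.hqd, yF e, hP.hR.qjy,
          l, hl, hzl, hlL, hbad⟩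
        rcases hP.typ with ⟨h1', _⟩ | ⟨_, h2', h3'⟩
        · rw [h1']
          exact ⟨one_dvd _, one_dvd _⟩
        · exact ⟨h2', h3'⟩)
      (by
        intro l hl hL'
        have n6' : F₁ e ∉ LG ∧ F₂ e ∉ LG ∧ F₃ e ∉ LG := by
          refine ⟨fun hcon => n6 ?_, fun hcon => n6 ?_, fun hcon => n6 ?_⟩
          · rw [hG6, mem_union]
            left
            rw [mem_filter]
            exact ⟨heU, hcon⟩
          · rw [hG6, mem_union, mem_union]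
            right; left
            rw [mem_filter]
            exact ⟨heU, hcon⟩
          · rw [hG6, mem_union, mem_union]
            right; right
            rw [mem_filter]
            exact ⟨heU, hcon⟩
        refine ⟨fun hcon => n6'.1 ?_, fun hcon => n6'.2.1 ?_, fun hcon => n6'.2.2 ?_⟩
        · rw [hLG, mem_filter]
          exact ⟨hs.1, l, hl, lt_of_le_of_lt hlog hL', hcon⟩
        · rw [hLG, mem_filter]
          exact ⟨hs.2.1, l, hl, lt_of_le_of_lt hlog hL', hcon⟩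
        · rw [hLG, mem_filter]
          exact ⟨hs.2.2, l, hl, lt_of_le_of_lt hlog hL', hcon⟩)
    have htyp := hP.typ
    rw [← hNN] at htyp
    have hexc' := exc_key hok' hP.hR hP.ok1 hP.ok2 hP.ok3 hx.1 hx.2.1 hx.2.2 htyp
    rw [hNN] at hexc'
    have hpat := pat_key hP.hR g1 hP.ok1 hP.ok2
    rw [hP.hl1, hP.hl2] at hpat
    exact ⟨⟨hs.1, k1, hexc'.1⟩, ⟨hs.2.1, k2, hexc'.2.1⟩, ⟨hs.2.2, k3, hexc'.2.2⟩, hpat⟩
  · intro f
    have hin : ∀ e ∈ tri t c X X, Cl q₀ c₀ e → e ∉ G1 ∪ (G2 ∪ (G3 ∪ (G4 ∪ (G5 ∪ G6)))) → e ∈ U := by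
      intro e hed hcle heE
      simp only [mem_union, not_or] at heE
      obtain ⟨n1, n2, n3, n4, n5, n6⟩ := heE
      rw [hU, mem_filter]
      exact ⟨hed, hcle, n1, n2, n3, n5⟩
    refine ⟨le_trans (Finset.card_le_card ?_) (hmult f).1,
      le_trans (Finset.card_le_card ?_) (hmult f).2.1,
      le_trans (Finset.card_le_card ?_) (hmult f).2.2⟩
    · intro e he
      rw [mem_filter] at he ⊢
      exact ⟨hin e he.1 he.2.1 he.2.2.1, he.2.2.2⟩
    · intro e he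
      rw [mem_filter] at he ⊢
      exact ⟨hin e he.1 he.2.1 he.2.2.1, he.2.2.2⟩
    · intro e he
      rw [mem_filter] at he ⊢
      exact ⟨hin e he.1 he.2.1 he.2.2.1, he.2.2.2⟩

end Pool.Agent.Y869.SQ
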