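import Pool.Agent.Y869.SQ.Fin

/-!
Project SQ (helper869): the modulus, and the final theorem for `n^2 + a`.
-/

set_option autoImplicit false

namespace Pool.Agent.Y869.SQ

open Finset Filter
open Pool.Agent.H376R2.MR (lam)
open Pool.Agent.W78.GT

lemma nsq_of {a : ℤ} (ha : ¬ IsSquare (-a)) : ¬ IsSquare ((0 : ℤ) ^ 2 - 4 * a) := by
  rintro ⟨x, hx⟩
  apply ha
  have h2 : (2 : ℤ) ∣ x := by
    have h1 : (2 : ℤ) ∣ x * x := ⟨-2 * a, by linarith⟩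
    rcases Int.prime_two.dvd_or_dvd h1 with h | h <;> exact h
  obtain ⟨y, rfl⟩ := h2
  exact ⟨y, by linarith⟩

/-- the modulus -/
lemma exists_mod {a : ℤ} (ha : ¬ IsSquare (-a)) {q : ℕ} (hq : 1 ≤ q) {r : ℤ}
    (hr : ∀ l : ℕ, l.Prime → l ∣ q → ¬ (l : ℤ) ^ 2 ∣ r ^ 2 + a) :
    ∃ q₀ r₀ : ℕ, q ∣ q₀ ∧ (q : ℤ) ∣ (r₀ : ℤ) - r ∧ Md 0 a q₀ ∧ Gc q₀ (Qp 0 a r₀) := by
  classical
  have ha0 : a ≠ 0 := by
    rintro rfl
    exact ha ⟨0, by simp⟩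
  have han : 0 < a.natAbs := Int.natAbs_pos.2 ha0
  obtain ⟨m, hm⟩ : ∃ m : ℕ, m = q * (96 * a.natAbs) := ⟨_, rfl⟩
  have hm0 : 0 < m := by rw [hm]; positivity
  obtain ⟨S, hS⟩ : ∃ S : Finset ℕ, S = (m.primeFactors).filter (fun l => ¬ l ∣ q) := ⟨_, rfl⟩
  have hSp : ∀ l ∈ S, l.Prime ∧ ¬ l ∣ q := by
    intro l hl
    rw [hS, mem_filter, Nat.mem_primeFactors] at hl
    exact ⟨hl.1.1, hl.2⟩
  obtain ⟨k, hk⟩ := Nat.chineseRemainderOfFinset (fun l : ℕ => if (l : ℤ) ^ 2 ∣ a then 1 else 0)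
    (fun l : ℕ => l ^ 2) S (fun l hl => pow_ne_zero 2 (hSp l hl).1.ne_zero) (by
      intro l hl l' hl' hne
      exact Nat.Coprime.pow 2 2 ((Nat.coprime_primes (hSp l hl).1 (hSp l' hl').1).2 hne))
  have hco : Nat.Coprime (q ^ 2) (∏ l ∈ S, l ^ 2) := by
    rw [Nat.coprime_prod_right_iff]
    intro l hl
    exact Nat.Coprime.pow 2 2 ((Nat.Prime.coprime_iff_not_dvd (hSp l hl).1).2 (hSp l hl).2).symm
  have hq2 : 0 < q ^ 2 := by positivity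
  have hq2' : (0 : ℤ) < ((q ^ 2 : ℕ) : ℤ) := by exact_mod_cast hq2
  obtain ⟨rn, hrn⟩ : ∃ rn : ℕ, (rn : ℤ) = r % ((q ^ 2 : ℕ) : ℤ) :=
    ⟨(r % ((q ^ 2 : ℕ) : ℤ)).toNat, Int.toNat_of_nonneg (Int.emod_nonneg _ hq2'.ne')⟩
  obtain ⟨r₀, hr1, hr2⟩ := Nat.chineseRemainder hco rn k
  have hrr : ((q ^ 2 : ℕ) : ℤ) ∣ (r₀ : ℤ) - r := by
    have h1 : ((q ^ 2 : ℕ) : ℤ) ∣ (r₀ : ℤ) - rn := (Nat.modEq_iff_dvd.1 hr1.symm)
    have h2 : ((q ^ 2 : ℕ) : ℤ) ∣ r - rn := by rw [hrn]; exact Int.dvd_self_sub_emod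
    have := dvd_sub h1 h2
    have e : (r₀ : ℤ) - rn - (r - rn) = (r₀ : ℤ) - r := by ring
    rwa [e] at this
  refine ⟨m ^ 2, r₀, ?_, ?_, ⟨nsq_of ha, by positivity, ?_, ?_⟩, ?_⟩
  · exact (Dvd.intro _ rfl : q ∣ q * (96 * a.natAbs)).trans (hm ▸ dvd_pow_self _ two_ne_zero)
  · refine dvd_trans ?_ hrr
    push_cast
    exact dvd_pow_self _ two_ne_zero
  · refine dvd_trans ?_ (dvd_pow_self m two_ne_zero)
    rw [hm]
    exact ⟨q * (16 * a.natAbs), by ring⟩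
  · refine dvd_trans ?_ (dvd_pow_self m two_ne_zero)
    have e : D4 0 a = 16 * a.natAbs := by
      unfold D4
      have : ((0 : ℤ) ^ 2 - 4 * a).natAbs = 4 * a.natAbs := by
        have : (0 : ℤ) ^ 2 - 4 * a = -(4 * a) := by ring
        rw [this, Int.natAbs_neg, Int.natAbs_mul]
        rfl
      rw [this]
      ring
    rw [e, hm]
    exact ⟨q * 6, by ring⟩
  · intro l hl hlm
    have hlm' : l ∣ m := hl.dvd_of_dvd_pow hlm
    refine ⟨pow_dvd_pow_of_dvd hlm' 2, ?_⟩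
    have hQ : Qp 0 a r₀ = (r₀ : ℤ) ^ 2 + a := by unfold Qp; ring
    rw [hQ]
    by_cases hlq : l ∣ q
    · intro hd
      apply hr l hl hlq
      have h1 : (l : ℤ) ^ 2 ∣ (r₀ : ℤ) - r := by
        refine dvd_trans ?_ hrr
        exact_mod_cast Int.natCast_dvd_natCast.2 (pow_dvd_pow_of_dvd hlq 2)
      have e : r ^ 2 + a = ((r₀ : ℤ) ^ 2 + a) - ((r₀ : ℤ) - r) * (r₀ + r) := by ring
      rw [e]
      exact dvd_sub hd (h1.mul_right _)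
    · have hlS : l ∈ S := by
        rw [hS, mem_filter, Nat.mem_primeFactors]
        exact ⟨⟨hl, hlm', hm0.ne'⟩, hlq⟩
      have h1 : r₀ ≡ (if (l : ℤ) ^ 2 ∣ a then 1 else 0) [MOD l ^ 2] :=
        (hr2.of_dvd (dvd_prod_of_mem (fun l : ℕ => l ^ 2) hlS)).trans (hk l hlS)
      have h2 := Nat.modEq_iff_dvd.1 h1.symm
      push_cast at h2
      intro hd
      by_cases hla : (l : ℤ) ^ 2 ∣ a
      · rw [if_pos hla] at h2
        have h3 : (l : ℤ) ^ 2 ∣ 1 := by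
          have e : (1 : ℤ) = ((r₀ : ℤ) ^ 2 + a) - a - ((r₀ : ℤ) - 1) * (r₀ + 1) := by ring
          rw [e]
          exact dvd_sub (dvd_sub hd hla) (h2.mul_right _)
        have h4 : l ^ 2 ∣ 1 := by exact_mod_cast h3
        have h5 := Nat.le_of_dvd one_pos h4
        have := hl.two_le
        nlinarith
      · rw [if_neg hla] at h2
        apply hla
        have e : a = ((r₀ : ℤ) ^ 2 + a) - ((r₀ : ℤ) - 0) * r₀ := by ring
        rw [e]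
        exact dvd_sub hd (h2.mul_right _)

end Pool.Agent.Y869.SQ
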