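import Pool.Agent.W583.GT.Exc
import Pool.Agent.Y869.SQ.Alg

/-!
Project SQ (helper869): residue classes of triples for the resolution with three triples, and the
bad resolutions.
-/

set_option autoImplicit false

namespace Pool.Agent.Y869.SQ

open Finset Pool.Agent.W78.GT
open Pool.Agent.W583.GT (Z3 toZ CgZ RR Occ rd rd_eq_iff occ_fix occA occA' occC occG occq
  int_prime toZ_mem wt wt_nonneg wt_mul wt_sq wt_q occ_start lif rd_lif mz_coprime mz_spl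
  mem_rt rt rt_card dvd_of_cast)
open Pool.Agent.W880.GM (tail_all tail_prime)

variable {t c : ℤ}

/-- the map `e ↦ (v + j u, u)` -/
def sh (t j : ℤ) (e : Z3) : Z3 := (MM t e.1 e.2.1 e.2.2 j, e.2.1 + j * e.2.2, e.2.2)

/-- the map `e ↦ (v, u - y v)` -/
def sv (t y : ℤ) (e : Z3) : Z3 := (e.1, e.2.1 - y * e.1, MM t e.2.2 e.2.1 e.1 (-y))

lemma sh_RR (j : ℤ) {e : Z3} (he : e ∈ RR t c) : sh t j e ∈ RR t c := by
  have e1 : e.1 * e.2.2 = Qp t c e.2.1 := he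
  show MM t e.1 e.2.1 e.2.2 j * e.2.2 = Qp t c (e.2.1 + j * e.2.2)
  unfold MM Qp at *
  linear_combination e1

lemma sv_RR (y : ℤ) {e : Z3} (he : e ∈ RR t c) : sv t y e ∈ RR t c := by
  have e1 : e.1 * e.2.2 = Qp t c e.2.1 := he
  show e.1 * MM t e.2.2 e.2.1 e.1 (-y) = Qp t c (e.2.1 - y * e.1)
  unfold MM Qp at *
  linear_combination e1

lemma sh_cg {N : ℕ} (j : ℤ) (e e' : Z3) (h : CgZ N (sh t j e) (sh t j e')) : CgZ N e e' := by
  obtain ⟨h1, h2, h3⟩ := h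
  simp only [sh] at h1 h2 h3
  have k2 : (N : ℤ) ∣ e.2.1 - e'.2.1 := by
    have := dvd_sub h2 (h3.mul_left j)
    have e1 : e.2.1 + j * e.2.2 - (e'.2.1 + j * e'.2.2) - j * (e.2.2 - e'.2.2) =
      e.2.1 - e'.2.1 := by ring
    rwa [e1] at this
  refine ⟨?_, k2, h3⟩
  have := dvd_sub h1 (dvd_add (k2.mul_left (2 * j)) (h3.mul_left (j ^ 2)))
  have e1 : MM t e.1 e.2.1 e.2.2 j - MM t e'.1 e'.2.1 e'.2.2 j -
      (2 * j * (e.2.1 - e'.2.1) + j ^ 2 * (e.2.2 - e'.2.2)) = e.1 - e'.1 := by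
    unfold MM; ring
  rwa [e1] at this

lemma sv_cg {N : ℕ} (y : ℤ) (e e' : Z3) (h : CgZ N (sv t y e) (sv t y e')) : CgZ N e e' := by
  obtain ⟨h1, h2, h3⟩ := h
  simp only [sv] at h1 h2 h3
  have k2 : (N : ℤ) ∣ e.2.1 - e'.2.1 := by
    have := dvd_add h2 (h1.mul_left y)
    have e1 : e.2.1 - y * e.1 - (e'.2.1 - y * e'.1) + y * (e.1 - e'.1) =
      e.2.1 - e'.2.1 := by ring
    rwa [e1] at this
  refine ⟨h1, k2, ?_⟩
  have := dvd_sub h3 (dvd_add (k2.mul_left (-(2 * y))) (h1.mul_left (y ^ 2)))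
  have e1 : MM t e.2.2 e.2.1 e.1 (-y) - MM t e'.2.2 e'.2.1 e'.1 (-y) -
      (-(2 * y) * (e.2.1 - e'.2.1) + y ^ 2 * (e.1 - e'.1)) = e.2.2 - e'.2.2 := by
    unfold MM; ring
  rwa [e1] at this

/-- `l² ∣ D₁` -/
lemma o1 {l : ℕ} (hl : Spl t c l) (j : ℤ) :
    Occ {e | e ∈ RR t c ∧ ((l ^ 2 : ℕ) : ℤ) ∣ MM t e.1 e.2.1 e.2.2 j} (l ^ 2) (2 * l ^ 2) :=
  ((occA hl).comap (sh t j) (sh_cg j)).mono (fun _ he => ⟨sh_RR j he.1, he.2⟩) le_rfl

/-- `l ∣ D₁`, `l ∣ d'` -/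
lemma o2 {l : ℕ} (hl : Spl t c l) (j : ℤ) :
    Occ {e | e ∈ RR t c ∧ (l : ℤ) ∣ MM t e.1 e.2.1 e.2.2 j ∧ (l : ℤ) ∣ e.2.2}
      (l ^ 2) (2 * l ^ 2) :=
  ((occC hl).comap (sh t j) (sh_cg j)).mono (fun _ he => ⟨sh_RR j he.1, he.2⟩) le_rfl

/-- `l² ∣ D₂` -/
lemma o3 {l : ℕ} (hl : Spl t c l) (y : ℤ) :
    Occ {e | e ∈ RR t c ∧ ((l ^ 2 : ℕ) : ℤ) ∣ MM t e.2.2 e.2.1 e.1 (-y)} (l ^ 2) (2 * l ^ 2) :=
  ((occA' hl).comap (sv t y) (sv_cg y)).mono (fun _ he => ⟨sv_RR y he.1, he.2⟩) le_rfl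

/-- `l ∣ d`, `l ∣ D₂` -/
lemma o4 {l : ℕ} (hl : Spl t c l) (y : ℤ) :
    Occ {e | e ∈ RR t c ∧ (l : ℤ) ∣ e.1 ∧ (l : ℤ) ∣ MM t e.2.2 e.2.1 e.1 (-y)}
      (l ^ 2) (2 * l ^ 2) :=
  ((occC hl).comap (sv t y) (sv_cg y)).mono (fun _ he => ⟨sv_RR y he.1, he.2⟩) le_rfl

/-- `l ∣ D₁`, `l ∣ D₂`, `l ≠ q` -/
lemma o5 {l q : ℕ} (hl : Spl t c l) {j y : ℤ} (hq : (q : ℤ) = 1 + j * y)
    (hlq : ¬ (l : ℤ) ∣ (q : ℤ)) :
    Occ {e | e ∈ RR t c ∧ (l : ℤ) ∣ MM t e.1 e.2.1 e.2.2 j ∧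
      (l : ℤ) ∣ MM t e.2.2 e.2.1 e.1 (-y)} (l ^ 2) (2 * l ^ 2) := by
  have hp := int_prime hl.1
  have h0 : Occ {f | f ∈ RR t c ∧ (l : ℤ) ∣ f.1 ∧ (l : ℤ) ∣ q * f.2.2 - y * (2 * f.2.1 + t)}
      (l ^ 2) (2 * l ^ 2) := by
    refine occG hl _ (fun e he => he.1) ?_ ?_
    · rintro e ⟨h1, h2, h3⟩
      have e1 : e.1 * e.2.2 = Qp t c e.2.1 := h1
      rw [← e1]
      exact h2.mul_right _
    · rintro e ⟨h1, h2, h3⟩ e' ⟨h4, h5, h6⟩ h7
      refine ⟨dvd_sub h2 h5, ?_⟩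
      have h8 := dvd_add (dvd_sub h3 h6) (h7.mul_left (2 * y))
      have e1 : q * e.2.2 - y * (2 * e.2.1 + t) - (q * e'.2.2 - y * (2 * e'.2.1 + t)) +
          2 * y * (e.2.1 - e'.2.1) = q * (e.2.2 - e'.2.2) := by ring
      rw [e1] at h8
      rcases hp.dvd_or_dvd h8 with h | h
      · exact absurd h hlq
      · exact h
  refine (h0.comap (sh t j) (sh_cg j)).mono ?_ le_rfl
  rintro e ⟨h1, h2, h3⟩
  refine ⟨sh_RR j h1, h2, ?_⟩
  show (l : ℤ) ∣ q * e.2.2 - y * (2 * (e.2.1 + j * e.2.2) + t)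
  have e1 : MM t e.2.2 e.2.1 e.1 (-y) - y ^ 2 * MM t e.1 e.2.1 e.2.2 j =
      q * (q * e.2.2 - y * (2 * (e.2.1 + j * e.2.2) + t)) := by
    unfold MM
    rw [hq]
    ring
  have h4 : (l : ℤ) ∣ q * (q * e.2.2 - y * (2 * (e.2.1 + j * e.2.2) + t)) := by
    rw [← e1]
    exact dvd_sub h3 (h2.mul_left _)
  rcases hp.dvd_or_dvd h4 with h | h
  · exact absurd h hlq
  · exact h

/-- `q ∣ D₁` -/
lemma o6 {q : ℕ} (hq : q.Prime) (j : ℤ) :
    Occ {e | e ∈ RR t c ∧ (q : ℤ) ∣ MM t e.1 e.2.1 e.2.2 j} q (2 * q) :=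
  ((occq (t := t) (c := c) hq).comap (sh t j) (sh_cg j)).mono
    (fun _ he => ⟨sh_RR j he.1, he.2⟩) le_rfl

/-- `q ∣ D₁`, `q ∣ d` -/
lemma o7 {q : ℕ} (hq : Spl t c q) {j : ℤ} (hj : ¬ (q : ℤ) ∣ j) :
    Occ {e | e ∈ RR t c ∧ (q : ℤ) ∣ MM t e.1 e.2.1 e.2.2 j ∧ (q : ℤ) ∣ e.1}
      (q ^ 2) (2 * q ^ 2) := by
  have hp := int_prime hq.1
  refine occG hq _ (fun e he => he.1) ?_ ?_
  · rintro e ⟨h1, h2, h3⟩
    have e1 : e.1 * e.2.2 = Qp t c e.2.1 := h1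
    rw [← e1]
    exact h3.mul_right _
  · rintro e ⟨h1, h2, h3⟩ e' ⟨h4, h5, h6⟩ h7
    refine ⟨dvd_sub h3 h6, ?_⟩
    have h8 := dvd_sub (dvd_sub h2 h5) (dvd_add (dvd_sub h3 h6) (h7.mul_left (2 * j)))
    have e1 : MM t e.1 e.2.1 e.2.2 j - MM t e'.1 e'.2.1 e'.2.2 j -
        (e.1 - e'.1 + 2 * j * (e.2.1 - e'.2.1)) = j ^ 2 * (e.2.2 - e'.2.2) := by
      unfold MM; ring
    rw [e1] at h8
    rcases hp.dvd_or_dvd h8 with h | h
    · exact absurd (hp.dvd_of_dvd_pow h) hj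
    · exact h

/-- the bad classes modulo `l²`, `l ≠ q` -/
lemma occ_mid {l q : ℕ} (hl : Spl t c l) {j y : ℤ} (hq : (q : ℤ) = 1 + j * y)
    (hlq : ¬ (l : ℤ) ∣ (q : ℤ)) :
    Occ {e | e ∈ RR t c ∧
      (((l ^ 2 : ℕ) : ℤ) ∣ MM t e.1 e.2.1 e.2.2 j ∨
      ((l : ℤ) ∣ MM t e.1 e.2.1 e.2.2 j ∧ (l : ℤ) ∣ e.2.2) ∨
      ((l ^ 2 : ℕ) : ℤ) ∣ MM t e.2.2 e.2.1 e.1 (-y) ∨
      ((l : ℤ) ∣ e.1 ∧ (l : ℤ) ∣ MM t e.2.2 e.2.1 e.1 (-y)) ∨
      ((l : ℤ) ∣ MM t e.1 e.2.1 e.2.2 j ∧ (l : ℤ) ∣ MM t e.2.2 e.2.1 e.1 (-y)))}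
      (l ^ 2) (10 * l ^ 2) := by
  refine (((((o1 hl j).union (o2 hl j)).union (o3 hl y)).union (o4 hl y)).union
    (o5 hl hq hlq)).mono ?_ (by omega)
  rintro e ⟨h1, h2 | h2 | h2 | h2 | h2⟩
  · exact Or.inl (Or.inl (Or.inl (Or.inl ⟨h1, h2⟩)))
  · exact Or.inl (Or.inl (Or.inl (Or.inr ⟨h1, h2.1, h2.2⟩)))
  · exact Or.inl (Or.inl (Or.inr ⟨h1, h2⟩))
  · exact Or.inl (Or.inr ⟨h1, h2.1, h2.2⟩)
  · exact Or.inr ⟨h1, h2.1, h2.2⟩

/-- the bad classes modulo `q²` -/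
lemma occ_qq {q : ℕ} (hq : Spl t c q) {j : ℤ} (y : ℤ) (hj : ¬ (q : ℤ) ∣ j) :
    Occ {e | e ∈ RR t c ∧
      (((q ^ 2 : ℕ) : ℤ) ∣ MM t e.1 e.2.1 e.2.2 j ∨
      ((q : ℤ) ∣ MM t e.1 e.2.1 e.2.2 j ∧ (q : ℤ) ∣ e.2.2) ∨
      ((q ^ 2 : ℕ) : ℤ) ∣ MM t e.2.2 e.2.1 e.1 (-y) ∨
      ((q : ℤ) ∣ MM t e.1 e.2.1 e.2.2 j ∧ (q : ℤ) ∣ e.1))}
      (q ^ 2) (8 * q ^ 2) := by
  refine ((((o1 hq j).union (o2 hq j)).union (o3 hq y)).union (o7 hq hj)).mono ?_ (by omega)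
  rintro e ⟨h1, h2 | h2 | h2 | h2⟩
  · exact Or.inl (Or.inl (Or.inl ⟨h1, h2⟩))
  · exact Or.inl (Or.inl (Or.inr ⟨h1, h2.1, h2.2⟩))
  · exact Or.inl (Or.inr ⟨h1, h2⟩)
  · exact Or.inr ⟨h1, h2.1, h2.2⟩

/-- the bad event at the prime `l` -/
def Bad (t : ℤ) (q j y l : ℕ) (e : Tr) : Prop :=
  (l : ℤ) ^ 2 ∣ D1 t j e ∨ ((l : ℤ) ∣ D1 t j e ∧ l ∣ e.2.2) ∨ (l : ℤ) ^ 2 ∣ D2 t y e ∨
    (l ∣ e.1 ∧ (l : ℤ) ∣ D2 t y e) ∨ ((q : ℤ) * l ∣ D1 t j e ∧ (q : ℤ) * l ∣ D2 t y e)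

/-- EXC3: few triples for which the resolution by a candidate `q` is bad at a prime `> z` -/
def S_EXC3 (t c : ℤ) : Prop := ∃ C : ℝ, 0 < C ∧ ∀ (z : ℕ) (S : ℝ) (Q : Tr → Finset ℕ)
  (J : Tr → ℕ),
  5 ≤ z → 1 ≤ S → (∀ e f : Tr, Cg (mz t c z) e f → Q e = Q f ∧ J e = J f) →
  (∀ e : Tr, ∀ q ∈ Q e, q.Prime ∧ q ≡ 1 [MOD D4 t c] ∧ z ^ 2 < q ∧ ∃ y : ℕ, q = 1 + J e * y) →
  (∀ e : Tr, ∑ q ∈ Q e, 1 / (q : ℝ) ≤ S) →
  ∀ A : ℕ, ∃ X₀ : ℝ, ∀ X X₁ X₂ : ℝ, X₀ ≤ X → 1 ≤ X₁ → 1 ≤ X₂ → X₁ * X₂ ≤ X ^ 2 →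
  X₁ ≤ X * Real.log X → X₂ ≤ X * Real.log X →
  ∀ p : ℕ, (p = 1 ∨ (Spl t c p ∧ p ≤ z)) →
  (open scoped Classical in
    (((tri t c X₁ X₂).filter (fun e => (p ∣ e.1 ∧ p ∣ e.2.2) ∧
      ∃ q ∈ Q e, (q : ℤ) ∣ D1 t (J e) e ∧ ∃ y : ℕ, q = 1 + J e * y ∧
        ∃ l : ℕ, Spl t c l ∧ z < l ∧ (l : ℝ) ≤ Real.log X ^ A ∧ Bad t q (J e) y l e)).card : ℝ)) ≤
    C * S / (z * Real.log z) * X / (p : ℝ) ^ 2

lemma not_dvd_j {q j y : ℕ} (hq : q.Prime) (h : q = 1 + j * y) : ¬ (q : ℤ) ∣ (j : ℤ) := by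
  intro hd
  have h1 : q ∣ j := by exact_mod_cast hd
  have h2 : q ∣ 1 := by
    have h3 : q ∣ 1 + j * y := by rw [← h]
    exact (Nat.dvd_add_left (h1.mul_right y)).1 h3
  exact hq.one_lt.ne' (Nat.dvd_one.1 h2)

/-- **EXC3** -/
theorem exc3_of (hequt : S_EQUT t c) : S_EXC3 t c := by
  classical
  obtain ⟨C, hC, hE⟩ := hequt
  refine ⟨136 * C, by positivity, ?_⟩
  intro z S Q J hz hS hper hQ hQS A
  obtain ⟨X₁', hX₁'⟩ := hE (2 * A + 1)
  set m := mz t c z with hm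
  have hmpos : 0 < m := Pool.Agent.W583.GT.mz_pos z
  have : NeZero m := ⟨hmpos.ne'⟩
  have hmR : (1 : ℝ) ≤ m := by exact_mod_cast hmpos
  have hzR : (5 : ℝ) ≤ z := by exact_mod_cast hz
  have hlogz : 0 < Real.log z := Real.log_pos (by linarith)
  -- the candidates by class
  set Qc : (ZMod m × ZMod m × ZMod m) → Finset ℕ := fun c => Q (lif m c) with hQc
  set Jc : (ZMod m × ZMod m × ZMod m) → ℕ := fun c => J (lif m c) with hJc
  have hQrd : ∀ e : Tr, Q e = Qc (rd m e) := by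
    intro e
    have h1 := rd_eq_iff.1 (rd_lif m (rd m e))
    exact (hper _ _ h1).1.symm
  have hJrd : ∀ e : Tr, J e = Jc (rd m e) := by
    intro e
    have h1 := rd_eq_iff.1 (rd_lif m (rd m e))
    exact (hper _ _ h1).2.symm
  set qm : ℕ := (univ : Finset (ZMod m × ZMod m × ZMod m)).sup
    (fun c => (Qc c).sup id) with hqm
  have hqle : ∀ c, ∀ q ∈ Qc c, q ≤ qm := fun c q hq =>
    (Finset.le_sup (f := id) hq).trans (Finset.le_sup (f := fun c => (Qc c).sup id) (mem_univ c))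
  refine ⟨max X₁' (Real.exp (m * (qm : ℝ) ^ 2 + 1)), ?_⟩
  intro X X₁ X₂ hX hX1 hX2 hXX hX1l hX2l p hp
  have hXX1 : X₁' ≤ X := (le_max_left _ _).trans hX
  have hXe : Real.exp (m * (qm : ℝ) ^ 2 + 1) ≤ X := (le_max_right _ _).trans hX
  have hXpos : 0 < X := (Real.exp_pos _).trans_le hXe
  have hlogm : m * (qm : ℝ) ^ 2 + 1 ≤ Real.log X := by
    rw [Real.le_log_iff_exp_le hXpos]
    exact hXe
  have hlog : 1 ≤ Real.log X := by
    have : 0 ≤ m * (qm : ℝ) ^ 2 := by positivity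
    linarith
  have hlogpow : ∀ k : ℕ, 1 ≤ Real.log X ^ k := fun k => one_le_pow₀ hlog
  set N : ℕ := ⌊Real.log X ^ A⌋₊ with hN
  set L : Finset ℕ := (Ioc z N).filter (fun l => Spl t c l) with hLdef
  set s := (tri t c X₁ X₂).filter (fun e => (p ∣ e.1 ∧ p ∣ e.2.2) ∧
      ∃ q ∈ Q e, (q : ℤ) ∣ D1 t (J e) e ∧ ∃ y : ℕ, q = 1 + J e * y ∧
        ∃ l : ℕ, Spl t c l ∧ z < l ∧ (l : ℝ) ≤ Real.log X ^ A ∧ Bad t q (J e) y l e) with hs
  set B : (ZMod m × ZMod m × ZMod m) → ℕ → ℕ → Finset Tr :=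
    fun c' q l => (tri t c X₁ X₂).filter (fun e => rd m e = c' ∧ (q : ℤ) ∣ D1 t (Jc c') e ∧
      ∃ y : ℕ, q = 1 + Jc c' * y ∧ Bad t q (Jc c') y l e) with hB
  set Γ := s.image (rd m) with hΓ
  -- covering
  have hsub : s ⊆ Γ.biUnion (fun c => (Qc c).biUnion (fun q => L.biUnion (fun l => B c q l))) := by
    intro e he
    have he' := he
    rw [hs, mem_filter] at he'
    obtain ⟨he1, he2, q, hq, hqe, y, hqy, l, hl, hzl, hlX, hlx⟩ := he'
    rw [mem_biUnion]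
    refine ⟨rd m e, mem_image_of_mem _ he, ?_⟩
    rw [mem_biUnion]
    refine ⟨q, by rw [← hQrd]; exact hq, ?_⟩
    rw [mem_biUnion]
    refine ⟨l, ?_, ?_⟩
    · rw [hLdef, mem_filter, mem_Ioc]
      exact ⟨⟨hzl, Nat.le_floor hlX⟩, hl⟩
    · rw [hB, mem_filter]
      rw [hJrd e] at hqe hqy hlx
      exact ⟨he1, rfl, hqe, y, hqy, hlx⟩
  -- number of classes
  obtain ⟨k, hk, hocc⟩ := occ_start (t := t) (c := c) hp
  have hppos : (0 : ℝ) < p := by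
    rcases hp with rfl | ⟨hp, -⟩
    · norm_num
    · exact_mod_cast hp.1.pos
  have hΓcard : (Γ.card : ℝ) * wt m 1 ≤ 2 / (p : ℝ) ^ 2 := by
    have h1 := hocc.card_image_le s (by
      intro e he
      rw [hs, mem_filter] at he
      refine ⟨toZ_mem he.1, Pool.Agent.W583.GT.int_dvd_of_nat he.2.1.1, ?_⟩
      show (p : ℤ) ∣ (e.2.2 : ℤ)
      exact_mod_cast he.2.1.2)
    refine le_trans ?_ hk
    have h2 : (Γ.card : ℝ) ≤ k := by exact_mod_cast h1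
    have h3 : wt (mz t c z) k = (k : ℝ) * wt m 1 := by
      unfold wt
      rw [hm]
      push_cast
      ring
    rw [h3]
    exact mul_le_mul_of_nonneg_right h2 (wt_nonneg _ _)
  -- one class
  have hEQ : ∀ M : ℕ, 1 ≤ M → (M : ℝ) ≤ Real.log X ^ (2 * A + 1) →
      (∀ p : ℕ, p.Prime → p ∣ M → Spl t c p) → ∀ f : Tr,
      (((tri t c X₁ X₂).filter (fun e => Cg M e f)).card : ℝ) ≤
        C * X * (Nat.totient M : ℝ) / (M : ℝ) ^ 3 := by
    intro M hM1 hM2 hM3 f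
    have hll : Real.log X ≤ Real.log X ^ (2 * A + 1) := by
      rw [pow_succ]
      have := hlogpow (2 * A)
      nlinarith
    refine hX₁' X X₁ X₂ M f hXX1 hX1 hX2 hXX (hX1l.trans ?_) (hX2l.trans ?_) hM1 hM2 hM3
    · exact mul_le_mul_of_nonneg_left hll hXpos.le
    · exact mul_le_mul_of_nonneg_left hll hXpos.le
  have hCX : 0 ≤ C * X := by positivity
  have hwm : 0 ≤ wt m 1 := wt_nonneg _ _
  have hcardB : ∀ c', ∀ q ∈ Qc c', ∀ l ∈ L, ((B c' q l).card : ℝ) ≤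
      C * X * wt m 1 * (20 * (1 / (q : ℝ)) * (1 / (l : ℝ) ^ 2)) +
      (if q = l then C * X * wt m 1 * (8 * (1 / (q : ℝ) ^ 2)) else 0) := by
    intro c' q hq l hl
    rw [hLdef, mem_filter, mem_Ioc] at hl
    obtain ⟨⟨hzl, hlN⟩, hls⟩ := hl
    have hlp := hls.1
    obtain ⟨hqp, hq4, hzq, y₀, hy₀⟩ := hQ _ q hq
    have hy₀' : q = 1 + Jc c' * y₀ := hy₀
    have hzq' : z < q := by nlinarith
    have hqqm := hqle c' q hq
    have hqpos : (0 : ℝ) < q := by exact_mod_cast hqp.pos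
    have hlpos : (0 : ℝ) < l := by exact_mod_cast hlp.pos
    have hlR : (l : ℝ) ≤ Real.log X ^ A :=
      (Nat.cast_le.2 hlN).trans (Nat.floor_le (by positivity))
    have hqqmR : (q : ℝ) ≤ qm := by exact_mod_cast hqqm
    have hq1R : (1 : ℝ) ≤ q := by exact_mod_cast hqp.one_lt.le
    have hmq2 : (m : ℝ) * (q : ℝ) ^ 2 ≤ Real.log X := by
      have : (m : ℝ) * (q : ℝ) ^ 2 ≤ m * (qm : ℝ) ^ 2 := by gcongr
      linarith
    have hBsub : B c' q l ⊆ tri t c X₁ X₂ := by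
      rw [hB]
      exact filter_subset _ _
    have hofix := occ_fix m (toZ (lif m c'))
    -- the positive `y` is unique
    have hyu : ∀ y : ℕ, q = 1 + Jc c' * y → (y : ℤ) = y₀ := by
      intro y hy
      have h1 : Jc c' * y = Jc c' * y₀ := by omega
      have hJ : 0 < Jc c' := by
        rcases Nat.eq_zero_or_pos (Jc c') with h | h
        · rw [h, zero_mul] at hy₀'
          have := hqp.one_lt
          omega
        · exact h
      exact_mod_cast Nat.eq_of_mul_eq_mul_left hJ h1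
    have hqz : (q : ℤ) = 1 + (Jc c' : ℤ) * (y₀ : ℤ) := by exact_mod_cast hy₀'
    -- `q` is split as soon as the set is not empty
    rcases (B c' q l).eq_empty_or_nonempty with hemp | ⟨e₀, he₀⟩
    · rw [hemp]
      simp only [card_empty, Nat.cast_zero]
      have h1 : 0 ≤ C * X * wt m 1 * (20 * (1 / (q : ℝ)) * (1 / (l : ℝ) ^ 2)) := by positivity
      split_ifs
      · positivity
      · linarith
    have hqs : Spl t c q := by
      rw [hB, mem_filter] at he₀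
      have h5 := (Pool.Agent.W500.GT.mem_tri'.1 he₀.1).1
      refine spl_of_dvd hqp (n := e₀.2.1 + (Jc c' : ℤ) * e₀.2.2) ?_ ?_
      · rw [← D1_mul h5]
        exact he₀.2.2.1.mul_right _
      · intro h6
        have h7 : q ∣ D4 t c := by
          unfold D4
          have h8 : (q : ℤ) ∣ 4 * (t ^ 2 - 4 * c) := by
            have : 4 * (t ^ 2 - 4 * c) = 2 * (t ^ 2 - 4 * c) * 2 := by ring
            rw [this]
            exact h6.mul_right _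
          have h9 := Int.natCast_dvd.1 h8
          rw [Int.natAbs_mul] at h9
          exact h9
        have h8 : q ≡ 1 [MOD q] := hq4.of_dvd h7
        have h9 : q % q = 1 % q := h8
        rw [Nat.mod_self, Nat.mod_eq_of_lt hqp.one_lt] at h9
        omega
    by_cases hql : q = l
    · -- l = q
      rw [if_pos hql]
      subst hql
      have hco : Nat.Coprime m (q ^ 2) := Nat.Coprime.pow_right 2 (mz_coprime hqp hzq')
      have ho := hofix.inter (occ_qq hqs (j := (Jc c' : ℤ)) (y₀ : ℤ) (not_dvd_j hqp hy₀')) hco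
      have h1 := ho.card_le (B c' q q) (tri t c X₁ X₂) hBsub (by
        intro e he
        rw [hB, mem_filter] at he
        obtain ⟨he1, he2, he3, y, hy, hbad⟩ := he
        have hyy := hyu y hy
        refine ⟨?_, toZ_mem he1, ?_⟩
        · rw [← rd_lif m c'] at he2
          exact rd_eq_iff.1 he2
        · unfold Bad D1 D2 at hbad
          unfold D1 at he3
          rw [hyy] at hbad
          show ((q ^ 2 : ℕ) : ℤ) ∣ MM t (e.1 : ℤ) e.2.1 (e.2.2 : ℤ) (Jc c' : ℤ) ∨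
            ((q : ℤ) ∣ MM t (e.1 : ℤ) e.2.1 (e.2.2 : ℤ) (Jc c' : ℤ) ∧ (q : ℤ) ∣ (e.2.2 : ℤ)) ∨
            ((q ^ 2 : ℕ) : ℤ) ∣ MM t (e.2.2 : ℤ) e.2.1 (e.1 : ℤ) (-(y₀ : ℤ)) ∨
            ((q : ℤ) ∣ MM t (e.1 : ℤ) e.2.1 (e.2.2 : ℤ) (Jc c' : ℤ) ∧ (q : ℤ) ∣ (e.1 : ℤ))
          push_cast
          rcases hbad with h | h | h | h | h
          · exact Or.inl h
          · exact Or.inr (Or.inl ⟨h.1, by exact_mod_cast h.2⟩)
          · exact Or.inr (Or.inr (Or.inl h))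
          · exact Or.inr (Or.inr (Or.inr ⟨he3, by exact_mod_cast h.1⟩))
          · left
            rw [pow_two]
            exact h.1)
        (C * X * (Nat.totient (m * q ^ 2) : ℝ) / ((m * q ^ 2 : ℕ) : ℝ) ^ 3) (by positivity)
        (fun f _ => hEQ (m * q ^ 2) (Nat.one_le_iff_ne_zero.2
          (mul_ne_zero hmpos.ne' (pow_ne_zero _ hqp.ne_zero))) (by
            push_cast
            refine hmq2.trans ?_
            rw [pow_succ]
            have := hlogpow (2 * A)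
            nlinarith) (by
            intro r hr hrd
            rcases (Nat.Prime.dvd_mul hr).1 hrd with h | h
            · exact mz_spl hr h
            · rw [(Nat.prime_dvd_prime_iff_eq hr hqp).1 (hr.dvd_of_dvd_pow h)]
              exact hqs) f)
      refine h1.trans ?_
      have h2 : ((1 * (8 * q ^ 2) : ℕ) : ℝ) *
          (C * X * (Nat.totient (m * q ^ 2) : ℝ) / ((m * q ^ 2 : ℕ) : ℝ) ^ 3) =
          C * X * (wt m 1 * wt (q ^ 2) (8 * q ^ 2)) := by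
        rw [← wt_mul hco]
        unfold wt
        ring
      rw [h2]
      have h4 := wt_sq hqp.pos 8
      have h3 : 0 ≤ C * X * wt m 1 * (20 * (1 / (q : ℝ)) * (1 / (q : ℝ) ^ 2)) := by positivity
      have h5 : C * X * (wt m 1 * wt (q ^ 2) (8 * q ^ 2)) ≤
          C * X * wt m 1 * (8 * (1 / (q : ℝ) ^ 2)) := by
        rw [← mul_assoc]
        refine mul_le_mul_of_nonneg_left ?_ (by positivity)
        refine h4.trans (le_of_eq ?_)
        push_cast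
        ring
      linarith
    · rw [if_neg hql, add_zero]
      have hlq : l ≠ q := fun h => hql h.symm
      have hco1 : Nat.Coprime m q := mz_coprime hqp hzq'
      have hco2 : Nat.Coprime (m * q) (l ^ 2) :=
        Nat.Coprime.pow_right 2 (Nat.Coprime.mul_left (mz_coprime hlp hzl)
          ((Nat.coprime_primes hqp hlp).2 hql))
      have hndvd : ¬ (l : ℤ) ∣ (q : ℤ) := by
        intro h
        have h1 : l ∣ q := by exact_mod_cast h
        exact hlq ((Nat.prime_dvd_prime_iff_eq hlp hqp).1 h1)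
      have ho := (hofix.inter (o6 (t := t) (c := c) hqp (Jc c' : ℤ)) hco1).inter
        (occ_mid hls hqz hndvd) hco2
      have h1 := ho.card_le (B c' q l) (tri t c X₁ X₂) hBsub (by
        intro e he
        rw [hB, mem_filter] at he
        obtain ⟨he1, he2, he3, y, hy, hbad⟩ := he
        have hyy := hyu y hy
        refine ⟨⟨?_, toZ_mem he1, he3⟩, toZ_mem he1, ?_⟩
        · rw [← rd_lif m c'] at he2
          exact rd_eq_iff.1 he2
        · unfold Bad D1 D2 at hbad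
          rw [hyy] at hbad
          show ((l ^ 2 : ℕ) : ℤ) ∣ MM t (e.1 : ℤ) e.2.1 (e.2.2 : ℤ) (Jc c' : ℤ) ∨
            ((l : ℤ) ∣ MM t (e.1 : ℤ) e.2.1 (e.2.2 : ℤ) (Jc c' : ℤ) ∧ (l : ℤ) ∣ (e.2.2 : ℤ)) ∨
            ((l ^ 2 : ℕ) : ℤ) ∣ MM t (e.2.2 : ℤ) e.2.1 (e.1 : ℤ) (-(y₀ : ℤ)) ∨
            ((l : ℤ) ∣ (e.1 : ℤ) ∧ (l : ℤ) ∣ MM t (e.2.2 : ℤ) e.2.1 (e.1 : ℤ) (-(y₀ : ℤ))) ∨
            ((l : ℤ) ∣ MM t (e.1 : ℤ) e.2.1 (e.2.2 : ℤ) (Jc c' : ℤ) ∧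
              (l : ℤ) ∣ MM t (e.2.2 : ℤ) e.2.1 (e.1 : ℤ) (-(y₀ : ℤ)))
          push_cast
          rcases hbad with h | h | h | h | h
          · exact Or.inl h
          · exact Or.inr (Or.inl ⟨h.1, by exact_mod_cast h.2⟩)
          · exact Or.inr (Or.inr (Or.inl h))
          · exact Or.inr (Or.inr (Or.inr (Or.inl ⟨by exact_mod_cast h.1, h.2⟩)))
          · exact Or.inr (Or.inr (Or.inr (Or.inr ⟨(Dvd.intro_left _ rfl).trans h.1,
              (Dvd.intro_left _ rfl).trans h.2⟩))))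
        (C * X * (Nat.totient (m * q * l ^ 2) : ℝ) / ((m * q * l ^ 2 : ℕ) : ℝ) ^ 3) (by positivity)
        (fun f _ => hEQ (m * q * l ^ 2) (Nat.one_le_iff_ne_zero.2
          (mul_ne_zero (mul_ne_zero hmpos.ne' hqp.ne_zero) (pow_ne_zero _ hlp.ne_zero))) (by
            push_cast
            have h5 : (m : ℝ) * q ≤ Real.log X := by
              refine le_trans ?_ hmq2
              rw [pow_two]
              have : (q : ℝ) ≤ q * q := by nlinarith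
              exact mul_le_mul_of_nonneg_left this (by positivity)
            have h6 : (l : ℝ) ^ 2 ≤ Real.log X ^ (2 * A) := by
              rw [mul_comm 2 A, pow_mul]
              exact pow_le_pow_left₀ hlpos.le hlR 2
            calc (m : ℝ) * q * (l : ℝ) ^ 2 ≤ Real.log X * Real.log X ^ (2 * A) :=
                  mul_le_mul h5 h6 (by positivity) (by linarith)
              _ = Real.log X ^ (2 * A + 1) := by ring) (by
            intro r hr hrd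
            rcases (Nat.Prime.dvd_mul hr).1 hrd with h | h
            · rcases (Nat.Prime.dvd_mul hr).1 h with h | h
              · exact mz_spl hr h
              · rw [(Nat.prime_dvd_prime_iff_eq hr hqp).1 h]
                exact hqs
            · rw [(Nat.prime_dvd_prime_iff_eq hr hlp).1 (hr.dvd_of_dvd_pow h)]
              exact hls) f)
      refine h1.trans ?_
      have h2 : ((1 * (2 * q) * (10 * l ^ 2) : ℕ) : ℝ) *
          (C * X * (Nat.totient (m * q * l ^ 2) : ℝ) / ((m * q * l ^ 2 : ℕ) : ℝ) ^ 3) =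
          C * X * wt m 1 * (wt q (2 * q) * wt (l ^ 2) (10 * l ^ 2)) := by
        rw [mul_assoc (C * X), ← mul_assoc (wt m 1), ← wt_mul hco1, ← wt_mul hco2]
        unfold wt
        ring
      rw [h2]
      refine mul_le_mul_of_nonneg_left ?_ (by positivity)
      calc wt q (2 * q) * wt (l ^ 2) (10 * l ^ 2) ≤ 2 / (q : ℝ) * ((10 : ℕ) / (l : ℝ) ^ 2) :=
            mul_le_mul (wt_q hqp.pos) (wt_sq hlp.pos 10) (wt_nonneg _ _) (by positivity)
        _ = 20 * (1 / (q : ℝ)) * (1 / (l : ℝ) ^ 2) := by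
            push_cast
            ring
  -- summation
  have hsumL : ∑ l ∈ L, 1 / (l : ℝ) ^ 2 ≤ 3 / (z * Real.log z) := by
    refine le_trans ?_ (tail_prime z (by omega) N)
    refine sum_le_sum_of_subset_of_nonneg ?_ (fun _ _ _ => by positivity)
    intro l hl
    rw [hLdef, mem_filter] at hl
    rw [mem_filter]
    exact ⟨hl.1, hl.2.1⟩
  have hstep : ∀ c' ∈ Γ, ∑ q ∈ Qc c', ∑ l ∈ L, ((B c' q l).card : ℝ) ≤
      C * X * wt m 1 * (68 * S / (z * Real.log z)) := by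
    intro c' _
    have h1 : ∀ q ∈ Qc c', ∑ l ∈ L, ((B c' q l).card : ℝ) ≤
        C * X * wt m 1 * (68 / (z * Real.log z)) * (1 / (q : ℝ)) := by
      intro q hq
      obtain ⟨hqp, hq4, hzq, -⟩ := hQ _ q hq
      have hqpos : (0 : ℝ) < q := by exact_mod_cast hqp.pos
      refine (sum_le_sum (hcardB c' q hq)).trans ?_
      rw [sum_add_distrib, ← mul_sum, ← mul_sum, sum_ite_eq]
      have h2 : (if q ∈ L then C * X * wt m 1 * (8 * (1 / (q : ℝ) ^ 2)) else 0) ≤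
          C * X * wt m 1 * (8 / (z * Real.log z)) * (1 / (q : ℝ)) := by
        have h3 : (8 : ℝ) * (1 / (q : ℝ) ^ 2) ≤ 8 / (z * Real.log z) * (1 / (q : ℝ)) := by
          have h5 : (z : ℝ) * Real.log z ≤ q := by
            have h6 : Real.log z ≤ z := by
              have := Real.log_le_sub_one_of_pos (x := (z : ℝ)) (by linarith)
              linarith
            have h7 : (z : ℝ) ^ 2 ≤ q := by exact_mod_cast hzq.le
            calc (z : ℝ) * Real.log z ≤ z * z := mul_le_mul_of_nonneg_left h6 (by linarith)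
              _ = (z : ℝ) ^ 2 := by ring
              _ ≤ q := h7
          have h6 : (8 : ℝ) * (1 / (q : ℝ) ^ 2) = 8 / (q : ℝ) * (1 / (q : ℝ)) := by
            field_simp
          rw [h6]
          refine mul_le_mul_of_nonneg_right ?_ (by positivity)
          exact div_le_div_of_nonneg_left (by norm_num) (by positivity) h5
        split_ifs
        · rw [mul_assoc (C * X * wt m 1)]
          exact mul_le_mul_of_nonneg_left h3 (by positivity)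
        · positivity
      have h4 : C * X * wt m 1 * (20 * (1 / (q : ℝ)) * ∑ l ∈ L, 1 / (l : ℝ) ^ 2) ≤
          C * X * wt m 1 * (20 * (1 / (q : ℝ)) * (3 / (z * Real.log z))) :=
        mul_le_mul_of_nonneg_left (mul_le_mul_of_nonneg_left hsumL (by positivity)) (by positivity)
      calc _ ≤ C * X * wt m 1 * (20 * (1 / (q : ℝ)) * (3 / (z * Real.log z))) +
            C * X * wt m 1 * (8 / (z * Real.log z)) * (1 / (q : ℝ)) := add_le_add h4 h2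
        _ = _ := by ring
    refine (sum_le_sum h1).trans ?_
    rw [← mul_sum]
    have h5 := hQS (lif m c')
    calc _ ≤ C * X * wt m 1 * (68 / (z * Real.log z)) * S :=
          mul_le_mul_of_nonneg_left h5 (by positivity)
      _ = _ := by ring
  have hcard1 : (s.card : ℝ) ≤ ∑ c' ∈ Γ, ∑ q ∈ Qc c', ∑ l ∈ L, ((B c' q l).card : ℝ) := by
    have h1 : s.card ≤ ∑ c' ∈ Γ, ∑ q ∈ Qc c', ∑ l ∈ L, (B c' q l).card := by
      refine (card_le_card hsub).trans (card_biUnion_le.trans (sum_le_sum fun c' _ => ?_))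
      refine card_biUnion_le.trans (sum_le_sum fun q _ => ?_)
      exact card_biUnion_le
    exact_mod_cast h1
  refine hcard1.trans ((sum_le_sum hstep).trans ?_)
  rw [sum_const, nsmul_eq_mul]
  calc (Γ.card : ℝ) * (C * X * wt m 1 * (68 * S / (z * Real.log z)))
      = ((Γ.card : ℝ) * wt m 1) * (C * X * (68 * S / (z * Real.log z))) := by ring
    _ ≤ (2 / (p : ℝ) ^ 2) * (C * X * (68 * S / (z * Real.log z))) := by
        refine mul_le_mul_of_nonneg_right hΓcard (by positivity)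
    _ = 136 * C * S / (z * Real.log z) * X / (p : ℝ) ^ 2 := by
        field_simp
        ring

end Pool.Agent.Y869.SQ
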