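import Pool.Agent.Y869.SQ.Mod

/-!
Project SQ (helper869): the final theorem in plain terms.
-/

set_option autoImplicit false

namespace Pool.Agent.Y869.SQ

open Finset Filter
open Pool.Agent.H376R2.MR (lam)
open Pool.Agent.W78.GT

/-- the values in a class -/
theorem classes {a : ℤ} (ha : ¬ IsSquare (-a)) {q : ℕ} (hq : 1 ≤ q) {r : ℤ}
    (hr : ∀ l : ℕ, l.Prime → l ∣ q → ¬ (l : ℤ) ^ 2 ∣ r ^ 2 + a) {s₁ s₂ : ℤ}
    (hs₁ : s₁ = 1 ∨ s₁ = -1) (hs₂ : s₂ = 1 ∨ s₂ = -1) :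
    ∃ L : ℕ,
      (∀ ε : ℝ, 0 < ε → ∃ N₀ : ℕ, ∀ N : ℕ, N₀ ≤ N → (N : ℝ) / Real.log N ^ (Real.log 2 + ε) ≤
        (Set.ncard {n : ℕ | 1 ≤ n ∧ n ≤ N ∧ (q : ℤ) ∣ (n : ℤ) ^ 2 - r ^ 2 ∧ ∃ d d' : ℕ,
          d ≤ L * n ∧ d' ≤ L * n ∧ (d : ℤ) * d' = (n : ℤ) ^ 2 + a ∧ Squarefree (d * d') ∧
          ArithmeticFunction.moebius d = s₁ ∧ ArithmeticFunction.moebius d' = s₂} : ℝ)) ∧
      ∃ κ : ℝ, 0 < κ ∧ ∃ N₀ : ℕ, ∀ N : ℕ, N₀ ≤ N → κ * N ≤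
        (Set.ncard {p : ℕ × ℕ | p.1 ≤ N ∧ p.2 ≤ N ∧
          (∃ n : ℕ, 1 ≤ n ∧ (q : ℤ) ∣ (n : ℤ) ^ 2 - r ^ 2 ∧ (p.1 : ℤ) * p.2 = (n : ℤ) ^ 2 + a) ∧
          Squarefree (p.1 * p.2) ∧ ArithmeticFunction.moebius p.1 = s₁ ∧
          ArithmeticFunction.moebius p.2 = s₂} : ℝ) := by
  obtain ⟨q₀, r₀, hqq, hqr, hM, hG⟩ := exists_mod ha hq hr
  have hp := pos (t := 0) (c := a) r₀ hM hG hs₁ hs₂
  obtain ⟨L, hA, κ, hκ, N₁, hB⟩ := Pool.Agent.TH890.DV.cont hM.nsq _ hp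
  have hqq' : (q : ℤ) ∣ (q₀ : ℤ) := by exact_mod_cast hqq
  have key : ∀ (d d' n : ℕ), (d : ℤ) * d' = Qp 0 a n →
      RF q₀ (Qp 0 a r₀) s₁ s₂ (d, (n : ℤ), d') → (q : ℤ) ∣ (n : ℤ) ^ 2 - r ^ 2 ∧
      (d : ℤ) * d' = (n : ℤ) ^ 2 + a ∧ Squarefree (d * d') ∧
          ArithmeticFunction.moebius d = s₁ ∧ ArithmeticFunction.moebius d' = s₂ := by
    rintro d d' n h1 ⟨g1, g2, g3, g4⟩
    have h1' : (d : ℤ) * d' = (n : ℤ) ^ 2 + a := by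
      rw [h1]
      unfold Qp
      ring
    have g2' : Squarefree (d * d') := g2
    have sd : Squarefree d := g2'.squarefree_of_dvd (Dvd.intro _ rfl)
    have sd' : Squarefree d' := g2'.squarefree_of_dvd (Dvd.intro_left _ rfl)
    have g1' : (q₀ : ℤ) ∣ ((d * d' : ℕ) : ℤ) - Qp 0 a r₀ := g1
    refine ⟨?_, h1', g2', ?_, ?_⟩
    · have h2 : (q : ℤ) ∣ (n : ℤ) ^ 2 - (r₀ : ℤ) ^ 2 := by
        refine hqq'.trans ?_
        push_cast at g1'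
        rw [h1'] at g1'
        unfold Qp at g1'
        have e : (n : ℤ) ^ 2 + a - ((r₀ : ℤ) ^ 2 + 0 * r₀ + a) = (n : ℤ) ^ 2 - (r₀ : ℤ) ^ 2 := by ring
        rwa [e] at g1'
      have h3 : (q : ℤ) ∣ (r₀ : ℤ) ^ 2 - r ^ 2 := by
        have e : (r₀ : ℤ) ^ 2 - r ^ 2 = ((r₀ : ℤ) - r) * (r₀ + r) := by ring
        rw [e]
        exact hqr.mul_right _
      have e : (n : ℤ) ^ 2 - r ^ 2 = ((n : ℤ) ^ 2 - (r₀ : ℤ) ^ 2) + ((r₀ : ℤ) ^ 2 - r ^ 2) := by ring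
      rw [e]
      exact dvd_add h2 h3
    · rw [ArithmeticFunction.moebius_apply_of_squarefree sd]
      exact g3
    · rw [ArithmeticFunction.moebius_apply_of_squarefree sd']
      exact g4
  refine ⟨L, fun ε hε => ?_, κ, hκ, N₁, fun N hN => ?_⟩
  · obtain ⟨N₀, h⟩ := hA ε hε
    refine ⟨N₀, fun N hN => (h N hN).trans (Nat.cast_le.2 ?_)⟩
    apply Set.ncard_le_ncard
    · rintro n ⟨h1, h2, d, d', h3, h4, h5, h6⟩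
      obtain ⟨k1, k2, k3, k4, k5⟩ := key d d' n h3 h6
      exact ⟨h1, h2, k1, d, d', h4, h5, k2, k3, k4, k5⟩
    · refine (Set.finite_Icc 1 N).subset ?_
      intro n hn
      exact ⟨hn.1, hn.2.1⟩
  · refine (hB N hN).trans (Nat.cast_le.2 ?_)
    apply Set.ncard_le_ncard
    · rintro p ⟨h1, h2, h3, h4, n, h5, h6, h7⟩
      obtain ⟨k1, k2, k3, k4, k5⟩ := key p.1 p.2 n h6 h7
      exact ⟨h2, h4, ⟨n, h5, k1, k2⟩, k3, k4, k5⟩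
    · refine ((Set.finite_Iic N).prod (Set.finite_Iic N)).subset ?_
      rintro p ⟨h1, h2, -⟩
      exact ⟨h1, h2⟩

/-- a class without small primes outside the modulus -/
lemma exists_rough (a : ℤ) (z q : ℕ) (hq : 1 ≤ q) (r : ℤ) : ∃ (P : ℕ) (r' : ℤ), 1 ≤ P ∧
    (q : ℤ) ^ 2 ∣ r' - r ∧ (∀ l : ℕ, l.Prime → l ∣ P → ¬ l ∣ q ∧ ¬ (l : ℤ) ∣ r' ^ 2 + a) ∧
    (∀ l : ℕ, l.Prime → l ≤ z → l ∣ q ∨ l ∣ P) := by
  classical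
  have h0 : ∀ l : ℕ, l.Prime → ∃ x : ℕ, ¬ (l : ℤ) ∣ (x : ℤ) ^ 2 + a := by
    intro l hl
    by_contra hcon
    push Not at hcon
    have h1 := hcon 0
    have h2 := hcon 1
    have h3 : (l : ℤ) ∣ 1 := by
      have := dvd_sub h2 h1
      have e : ((1 : ℕ) : ℤ) ^ 2 + a - (((0 : ℕ) : ℤ) ^ 2 + a) = 1 := by push_cast; ring
      rwa [e] at this
    have h4 : l ∣ 1 := by exact_mod_cast h3
    exact hl.one_lt.ne' (Nat.dvd_one.1 h4)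
  choose! x hx using h0
  obtain ⟨S, hS⟩ : ∃ S : Finset ℕ, S = (Finset.range (z + 1)).filter (fun l => l.Prime ∧ ¬ l ∣ q) :=
    ⟨_, rfl⟩
  have hSp : ∀ l ∈ S, l.Prime ∧ ¬ l ∣ q := by
    intro l hl
    rw [hS, mem_filter] at hl
    exact hl.2
  obtain ⟨k, hk⟩ := Nat.chineseRemainderOfFinset x (fun l => l) S
    (fun l hl => (hSp l hl).1.ne_zero) (by
      intro l hl l' hl' hne
      exact (Nat.coprime_primes (hSp l hl).1 (hSp l' hl').1).2 hne)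
  have hco : Nat.Coprime (q ^ 2) (∏ l ∈ S, l) := by
    rw [Nat.coprime_prod_right_iff]
    intro l hl
    exact (Nat.Coprime.pow_right 2 ((Nat.Prime.coprime_iff_not_dvd (hSp l hl).1).2 (hSp l hl).2)).symm
  have hq2 : 0 < q ^ 2 := by positivity
  have hq2' : (0 : ℤ) < ((q ^ 2 : ℕ) : ℤ) := by exact_mod_cast hq2
  obtain ⟨rn, hrn⟩ : ∃ rn : ℕ, (rn : ℤ) = r % ((q ^ 2 : ℕ) : ℤ) :=
    ⟨(r % ((q ^ 2 : ℕ) : ℤ)).toNat, Int.toNat_of_nonneg (Int.emod_nonneg _ hq2'.ne')⟩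
  obtain ⟨r₀, hr1, hr2⟩ := Nat.chineseRemainder hco rn k
  have hrr : ((q ^ 2 : ℕ) : ℤ) ∣ (r₀ : ℤ) - r := by
    have h1 : ((q ^ 2 : ℕ) : ℤ) ∣ (r₀ : ℤ) - rn := (Nat.modEq_iff_dvd.1 hr1.symm)
    have h2 : ((q ^ 2 : ℕ) : ℤ) ∣ r - rn := by rw [hrn]; exact Int.dvd_self_sub_emod
    have := dvd_sub h1 h2
    have e : (r₀ : ℤ) - rn - (r - rn) = (r₀ : ℤ) - r := by ring
    rwa [e] at this
  refine ⟨∏ l ∈ S, l, r₀, ?_, by push_cast at hrr; exact hrr, ?_, ?_⟩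
  · exact Nat.one_le_iff_ne_zero.2 (prod_ne_zero_iff.2 fun l hl => (hSp l hl).1.ne_zero)
  · intro l hl hd
    obtain ⟨l', hl', hd'⟩ := (Prime.dvd_finset_prod_iff hl.prime _).1 hd
    have hll : l = l' := (Nat.prime_dvd_prime_iff_eq hl (hSp l' hl').1).1 hd'
    subst hll
    refine ⟨(hSp l hl').2, fun hd2 => hx l hl ?_⟩
    have h1 := Nat.modEq_iff_dvd.1 ((hr2.of_dvd (dvd_prod_of_mem (fun l : ℕ => l) hl')).trans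
      (hk l hl'))
    have e : ((x l : ℕ) : ℤ) ^ 2 + a = ((r₀ : ℤ) ^ 2 + a) + ((x l : ℤ) - r₀) * (x l + r₀) := by ring
    rw [e]
    exact dvd_add hd2 (h1.mul_right _)
  · intro l hl hlz
    by_cases hlq : l ∣ q
    · exact Or.inl hlq
    · right
      apply dvd_prod_of_mem (fun l : ℕ => l)
      rw [hS, mem_filter, Finset.mem_range]
      exact ⟨by omega, hl, hlq⟩

/-- the final theorem -/
theorem final {a : ℤ} (ha : ¬ IsSquare (-a)) (z : ℕ) {q : ℕ} (hq : 1 ≤ q) {r : ℤ}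
    (hr : ∀ l : ℕ, l.Prime → l ∣ q → ¬ (l : ℤ) ^ 2 ∣ r ^ 2 + a) {s₁ s₂ : ℤ}
    (hs₁ : s₁ = 1 ∨ s₁ = -1) (hs₂ : s₂ = 1 ∨ s₂ = -1) :
    ∃ L : ℕ,
      (∀ ε : ℝ, 0 < ε → ∃ N₀ : ℕ, ∀ N : ℕ, N₀ ≤ N → (N : ℝ) / Real.log N ^ (Real.log 2 + ε) ≤
        (Set.ncard {n : ℕ | 1 ≤ n ∧ n ≤ N ∧ (q : ℤ) ∣ (n : ℤ) ^ 2 - r ^ 2 ∧
          (∀ l : ℕ, l.Prime → (l : ℤ) ∣ (n : ℤ) ^ 2 + a → l ∣ q ∨ z < l) ∧ ∃ d d' : ℕ,
          d ≤ L * n ∧ d' ≤ L * n ∧ (d : ℤ) * d' = (n : ℤ) ^ 2 + a ∧ Squarefree (d * d') ∧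
          ArithmeticFunction.moebius d = s₁ ∧ ArithmeticFunction.moebius d' = s₂} : ℝ)) ∧
      ∃ κ : ℝ, 0 < κ ∧ ∃ N₀ : ℕ, ∀ N : ℕ, N₀ ≤ N → κ * N ≤
        (Set.ncard {p : ℕ × ℕ | p.1 ≤ N ∧ p.2 ≤ N ∧
          (∃ n : ℕ, 1 ≤ n ∧ (q : ℤ) ∣ (n : ℤ) ^ 2 - r ^ 2 ∧
            (∀ l : ℕ, l.Prime → (l : ℤ) ∣ (n : ℤ) ^ 2 + a → l ∣ q ∨ z < l) ∧
            (p.1 : ℤ) * p.2 = (n : ℤ) ^ 2 + a) ∧
          Squarefree (p.1 * p.2) ∧ ArithmeticFunction.moebius p.1 = s₁ ∧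
          ArithmeticFunction.moebius p.2 = s₂} : ℝ) := by
  obtain ⟨P, r', hP, hrr, hPl, hz⟩ := exists_rough a z q hq r
  have hr' : ∀ l : ℕ, l.Prime → l ∣ q * P → ¬ (l : ℤ) ^ 2 ∣ r' ^ 2 + a := by
    intro l hl hd
    rcases (hl.dvd_mul).1 hd with h | h
    · intro h2
      apply hr l hl h
      have h3 : (l : ℤ) ^ 2 ∣ r' - r := by
        refine dvd_trans ?_ hrr
        exact pow_dvd_pow_of_dvd (by exact_mod_cast h) 2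
      have e : r ^ 2 + a = (r' ^ 2 + a) - (r' - r) * (r' + r) := by ring
      rw [e]
      exact dvd_sub h2 (h3.mul_right _)
    · intro h2
      exact (hPl l hl h).2 ((dvd_pow_self (l : ℤ) two_ne_zero).trans h2)
  have key : ∀ n : ℤ, ((q * P : ℕ) : ℤ) ∣ n ^ 2 - r' ^ 2 → (q : ℤ) ∣ n ^ 2 - r ^ 2 ∧
      (∀ l : ℕ, l.Prime → (l : ℤ) ∣ n ^ 2 + a → l ∣ q ∨ z < l) := by
    intro n hn
    push_cast at hn
    constructor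
    · have h1 : (q : ℤ) ∣ n ^ 2 - r' ^ 2 := (Dvd.intro _ rfl).trans hn
      have h2 : (q : ℤ) ∣ r' ^ 2 - r ^ 2 := by
        have e : r' ^ 2 - r ^ 2 = (r' - r) * (r' + r) := by ring
        rw [e]
        exact ((dvd_pow_self (q : ℤ) two_ne_zero).trans hrr).mul_right _
      have e : n ^ 2 - r ^ 2 = (n ^ 2 - r' ^ 2) + (r' ^ 2 - r ^ 2) := by ring
      rw [e]
      exact dvd_add h1 h2
    · intro l hl hd
      by_contra hcon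
      push Not at hcon
      rcases hz l hl hcon.2 with h | h
      · exact hcon.1 h
      · apply (hPl l hl h).2
        have h1 : (l : ℤ) ∣ n ^ 2 - r' ^ 2 := by
          refine dvd_trans ?_ hn
          exact (by exact_mod_cast h : (l : ℤ) ∣ (P : ℤ)).mul_left _
        have e : r' ^ 2 + a = (n ^ 2 + a) - (n ^ 2 - r' ^ 2) := by ring
        rw [e]
        exact dvd_sub hd h1
  obtain ⟨L, hA, κ, hκ, N₁, hB⟩ := classes ha (q := q * P) (Nat.mul_pos hq hP) (r := r') hr' hs₁ hs₂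
  refine ⟨L, fun ε hε => ?_, κ, hκ, N₁, fun N hN => ?_⟩
  · obtain ⟨N₀, h⟩ := hA ε hε
    refine ⟨N₀, fun N hN => (h N hN).trans (Nat.cast_le.2 ?_)⟩
    apply Set.ncard_le_ncard
    · rintro n ⟨h1, h2, h3, h4⟩
      obtain ⟨k1, k2⟩ := key n h3
      exact ⟨h1, h2, k1, k2, h4⟩
    · refine (Set.finite_Icc 1 N).subset ?_
      intro n hn
      exact ⟨hn.1, hn.2.1⟩
  · refine (hB N hN).trans (Nat.cast_le.2 ?_)
    apply Set.ncard_le_ncard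
    · rintro p ⟨h1, h2, ⟨n, h3, h4, h5⟩, h6⟩
      obtain ⟨k1, k2⟩ := key n h4
      exact ⟨h1, h2, ⟨n, h3, k1, k2, h5⟩, h6⟩
    · refine ((Set.finite_Iic N).prod (Set.finite_Iic N)).subset ?_
      rintro p ⟨h1, h2, -⟩
      exact ⟨h1, h2⟩

end Pool.Agent.Y869.SQ
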