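import Pool.Agent.Y869.SQ.Loc

/-!
Project SQ (helper869): large squares, types, sizes, constants.
-/

set_option autoImplicit false

namespace Pool.Agent.Y869.SQ

open Finset Filter
open Pool.Agent.H376R2.MR (lam)
open Pool.Agent.W78.GT
open Pool.Agent.W78.GA (lam_mul)
open Pool.Agent.W500.GT (TrOk mem_tri' NT_ne_zero NT_Qp Kn Tm Tm_inj Tm_NT Tm_ok Tm_tri B1 B2 PP
  mem_PP exc_eq_zero card_le_rel sum_PP_le prod_le_exp)
open Pool.Agent.W583.GT (occ_sq toZ_mem wt wt_sq)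
open Pool.Agent.W880.GM (tail_all)

variable {t c : ℤ}

/-- the class of the triples -/
def Cl (q₀ : ℕ) (c₀ : ℤ) (e : Tr) : Prop := (q₀ : ℤ) ∣ (NT e : ℤ) - c₀

/-- the assumptions on the class -/
def Gc (q₀ : ℕ) (c₀ : ℤ) : Prop := ∀ l : ℕ, l.Prime → l ∣ q₀ → l ^ 2 ∣ q₀ ∧ ¬ (l : ℤ) ^ 2 ∣ c₀

lemma Cl.not_sq {q₀ : ℕ} {c₀ : ℤ} (hG : Gc q₀ c₀) {e : Tr} (he : Cl q₀ c₀ e) {l : ℕ}
    (hl : l.Prime) (hd : l ∣ q₀) : ¬ l ^ 2 ∣ NT e := by
  intro h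
  obtain ⟨h1, h2⟩ := hG l hl hd
  apply h2
  have h3 : (l : ℤ) ^ 2 ∣ (NT e : ℤ) := by exact_mod_cast Int.natCast_dvd_natCast.2 h
  have h4 : (l : ℤ) ^ 2 ∣ (NT e : ℤ) - c₀ := by
    refine dvd_trans ?_ he
    exact_mod_cast Int.natCast_dvd_natCast.2 h1
  have := dvd_sub h3 h4
  rwa [sub_sub_cancel] at this

lemma spl_of_sq {q₀ : ℕ} {c₀ : ℤ} (hM : Md t c q₀) (hG : Gc q₀ c₀) {e : Tr} (h : TrOk t c e)
    (he : Cl q₀ c₀ e) {l : ℕ} (hl : l.Prime) (h2 : l ^ 2 ∣ NT e) : Spl t c l ∧ ¬ l ∣ q₀ := by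
  have hn : ¬ l ∣ q₀ := fun hd => he.not_sq hG hl hd h2
  refine ⟨spl_of_dvd hl (n := e.2.1) ?_ (hM.disc hl hn), hn⟩
  rw [← NT_Qp h]
  exact_mod_cast Int.natCast_dvd_natCast.2 ((dvd_pow_self l two_ne_zero).trans h2)

/-- few triples for which `d d'` is divisible by the square of a prime `> z` -/
theorem sqt_of {q₀ : ℕ} (hM : Md t c q₀) (hequt : S_EQUT t c) (hlarge : S_LARGET t c) :
    ∃ C : ℝ, 0 < C ∧ ∀ z : ℕ, 2 ≤ z → q₀ ≤ z → ∃ X₀ : ℝ, ∀ X : ℝ, X₀ ≤ X →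
    (open scoped Classical in
      (((tri t c X X).filter (fun e => ∃ l : ℕ, l.Prime ∧ z < l ∧ l ^ 2 ∣ NT e)).card : ℝ)) ≤
      C / z * X := by
  classical
  obtain ⟨C, hC, hE⟩ := hequt
  obtain ⟨A, hL⟩ := hlarge
  refine ⟨6 * C + 1, by positivity, fun z hz hqz => ?_⟩
  have hzR : (2 : ℝ) ≤ z := by exact_mod_cast hz
  obtain ⟨X₁, hX₁⟩ := hL (1 / (z : ℝ)) (by positivity)
  obtain ⟨X₂, hX₂⟩ := hE (2 * A)
  refine ⟨max (Real.exp 1) (max X₁ X₂), fun X hX => ?_⟩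
  have hXe : Real.exp 1 ≤ X := (le_max_left _ _).trans hX
  have hXX1 : X₁ ≤ X := ((le_max_left _ _).trans (le_max_right _ _)).trans hX
  have hXX2 : X₂ ≤ X := ((le_max_right _ _).trans (le_max_right _ _)).trans hX
  have hX1 : 1 ≤ X := by
    have := Real.add_one_le_exp (1 : ℝ)
    linarith
  have hlog : 1 ≤ Real.log X := by
    rw [Real.le_log_iff_exp_le (by linarith)]
    exact hXe
  have hlogpow : ∀ k : ℕ, 1 ≤ Real.log X ^ k := fun k => one_le_pow₀ hlog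
  set N : ℕ := ⌊Real.log X ^ A⌋₊ with hN
  set L : Finset ℕ := (Ioc z N).filter (fun l => Spl t c l) with hLdef
  set BL := (tri t c X X).filter (fun e => ∃ l : ℕ, l.Prime ∧ Real.log X ^ A < (l : ℝ) ∧
      l ^ 2 ∣ NT e) with hBL
  set B : ℕ → Finset Tr := fun l => (tri t c X X).filter (fun e => l ^ 2 ∣ NT e) with hB
  have hsub : (tri t c X X).filter (fun e => ∃ l : ℕ, l.Prime ∧ z < l ∧ l ^ 2 ∣ NT e) ⊆
      BL ∪ L.biUnion B := by
    intro e he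
    rw [mem_filter] at he
    obtain ⟨he1, l, hl, hzl, hle⟩ := he
    rw [mem_union]
    by_cases hlg : Real.log X ^ A < (l : ℝ)
    · left
      rw [hBL, mem_filter]
      exact ⟨he1, l, hl, hlg, hle⟩
    · right
      rw [mem_biUnion]
      refine ⟨l, ?_, ?_⟩
      · rw [hLdef, mem_filter, mem_Ioc]
        have hnl : ¬ l ∣ q₀ := fun h => by
          have := Nat.le_of_dvd hM.pos h
          omega
        refine ⟨⟨hzl, Nat.le_floor (not_lt.1 hlg)⟩, spl_of_dvd hl (n := e.2.1) ?_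
          (hM.disc hl hnl)⟩
        have h5 := (mem_tri.1 he1).2.2.2.2.1
        rw [← h5]
        unfold NT at hle
        have h6 : l ∣ e.1 * e.2.2 := (dvd_pow_self l two_ne_zero).trans hle
        exact_mod_cast h6
      · rw [hB, mem_filter]
        exact ⟨he1, hle⟩
  have hcardBL : (BL.card : ℝ) ≤ 1 / (z : ℝ) * X := hX₁ X hXX1
  have hcardB : ∀ l ∈ L, ((B l).card : ℝ) ≤ 6 * C * X * (1 / (l : ℝ) ^ 2) := by
    intro l hl
    rw [hLdef, mem_filter, mem_Ioc] at hl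
    obtain ⟨⟨hzl, hlN⟩, hls⟩ := hl
    have hlp := hls.1
    have hlpos : (0 : ℝ) < l := by exact_mod_cast hlp.pos
    have hlR : (l : ℝ) ≤ Real.log X ^ A :=
      (Nat.cast_le.2 hlN).trans (Nat.floor_le (by positivity))
    have hB1 : ∀ f ∈ B l, (((tri t c X X).filter (fun e => Cg (l ^ 2) e f)).card : ℝ) ≤
        C * X * (Nat.totient (l ^ 2) : ℝ) / ((l ^ 2 : ℕ) : ℝ) ^ 3 := by
      intro f _
      refine hX₂ X X X (l ^ 2) f hXX2 hX1 hX1 (by rw [pow_two]) ?_ ?_ ?_ ?_ ?_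
      · have := hlogpow (2 * A); nlinarith
      · have := hlogpow (2 * A); nlinarith
      · exact Nat.one_le_pow _ _ hlp.pos
      · push_cast
        rw [mul_comm 2 A, pow_mul]
        exact pow_le_pow_left₀ hlpos.le hlR 2
      · intro p hp hpl
        rw [(Nat.prime_dvd_prime_iff_eq hp hlp).1 (hp.dvd_of_dvd_pow hpl)]
        exact hls
    have h1 := (occ_sq hls).card_le (B l) (tri t c X X) (by
      intro e he
      rw [hB, mem_filter] at he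
      exact he.1) (by
      intro e he
      rw [hB, mem_filter] at he
      refine ⟨toZ_mem he.1, ?_⟩
      have h2 := he.2
      unfold NT at h2
      show ((l ^ 2 : ℕ) : ℤ) ∣ (e.1 : ℤ) * (e.2.2 : ℤ)
      exact_mod_cast h2) _ (by positivity) hB1
    refine h1.trans ?_
    have h2 := wt_sq hlp.pos 6
    unfold wt at h2
    calc ((6 * l ^ 2 : ℕ) : ℝ) * (C * X * (Nat.totient (l ^ 2) : ℝ) / ((l ^ 2 : ℕ) : ℝ) ^ 3)
        = C * X * (((6 * l ^ 2 : ℕ) : ℝ) * (Nat.totient (l ^ 2) : ℝ) / ((l ^ 2 : ℕ) : ℝ) ^ 3) := by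
          ring
      _ ≤ C * X * ((6 : ℕ) / (l : ℝ) ^ 2) := mul_le_mul_of_nonneg_left h2 (by positivity)
      _ = 6 * C * X * (1 / (l : ℝ) ^ 2) := by push_cast; ring
  have hsum : ∑ l ∈ L, 1 / (l : ℝ) ^ 2 ≤ 1 / (z : ℝ) := by
    refine tail_all z (by omega) L fun l hl => ?_
    rw [hLdef, mem_filter, mem_Ioc] at hl
    exact hl.1.1
  have hcard := (Finset.card_le_card hsub).trans (card_union_le _ _)
  have hcard2 : (((tri t c X X).filter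
      (fun e => ∃ l : ℕ, l.Prime ∧ z < l ∧ l ^ 2 ∣ NT e)).card : ℝ) ≤
      (BL.card : ℝ) + ((L.biUnion B).card : ℝ) := by exact_mod_cast hcard
  have hcard3 : ((L.biUnion B).card : ℝ) ≤ ∑ l ∈ L, ((B l).card : ℝ) := by
    exact_mod_cast card_biUnion_le
  refine hcard2.trans ?_
  calc (BL.card : ℝ) + ((L.biUnion B).card : ℝ)
      ≤ 1 / (z : ℝ) * X + ∑ l ∈ L, 6 * C * X * (1 / (l : ℝ) ^ 2) :=
        add_le_add hcardBL (hcard3.trans (sum_le_sum hcardB))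
    _ = 1 / (z : ℝ) * X + 6 * C * X * ∑ l ∈ L, (1 / (l : ℝ) ^ 2) := by rw [mul_sum]
    _ ≤ 1 / (z : ℝ) * X + 6 * C * X * (1 / (z : ℝ)) := by
        have : 0 ≤ 6 * C * X := by positivity
        have := mul_le_mul_of_nonneg_left hsum this
        linarith
    _ = (6 * C + 1) / z * X := by ring

/-! ### types -/

/-- the types over a prime -/
def T4 (R : Finset ℕ) (p : ℕ) : Finset (Bool × ℕ × ℕ) :=
  {(false, 1, p)} ∪ (R.image (fun r => (false, p * r, p)) ∪ R.image (fun r => (true, p * r, p)))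

/-- the types -/
noncomputable def TQ (t c : ℤ) (R : Finset ℕ) (z : ℕ) : Finset (Bool × ℕ × ℕ) :=
  {(false, 1, 1)} ∪ (PP t c z).biUnion (T4 R)

lemma mem_T4 {R : Finset ℕ} {p : ℕ} {s : Bool × ℕ × ℕ} (hs : s ∈ T4 R p) :
    s.2.2 = p ∧ (s.2.1 = 1 ∨ ∃ r ∈ R, s.2.1 = p * r) := by
  unfold T4 at hs
  rw [mem_union, mem_union, mem_singleton, mem_image, mem_image] at hs
  rcases hs with rfl | ⟨r, hr, rfl⟩ | ⟨r, hr, rfl⟩
  · exact ⟨rfl, Or.inl rfl⟩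
  · exact ⟨rfl, Or.inr ⟨r, hr, rfl⟩⟩
  · exact ⟨rfl, Or.inr ⟨r, hr, rfl⟩⟩

lemma T4_card (R : Finset ℕ) (p : ℕ) : (T4 R p).card ≤ 2 * R.card + 1 := by
  unfold T4
  refine (card_union_le _ _).trans ?_
  have h1 := card_union_le (R.image (fun r => (false, p * r, p)))
    (R.image (fun r => (true, p * r, p)))
  have h2 : (R.image (fun r => (false, p * r, p))).card ≤ R.card := card_image_le
  have h3 : (R.image (fun r => (true, p * r, p))).card ≤ R.card := card_image_le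
  rw [card_singleton]
  omega

lemma TQ_prop {R : Finset ℕ} {z : ℕ} {s : Bool × ℕ × ℕ} (hs : s ∈ TQ t c R z) :
    (s.2.2 = 1 ∨ (Spl t c s.2.2 ∧ s.2.2 ≤ z)) ∧ (s.2.1 = 1 ∨ ∃ r ∈ R, s.2.1 = s.2.2 * r) := by
  unfold TQ at hs
  rw [mem_union, mem_singleton, mem_biUnion] at hs
  rcases hs with rfl | ⟨p, hp, hs⟩
  · simp
  · rw [mem_PP] at hp
    obtain ⟨h1, h2⟩ := mem_T4 hs
    rw [h1]
    exact ⟨Or.inr hp, h2⟩

/-- a bound for the moved factors -/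
def wM (R : Finset ℕ) (z : ℕ) : ℕ := (z + 1) * (∑ r ∈ R, r + 1)

lemma TQ_ne_zero {R : Finset ℕ} (hR : ∀ r ∈ R, r.Prime) {z : ℕ} {s : Bool × ℕ × ℕ}
    (hs : s ∈ TQ t c R z) : s.2.1 ≠ 0 := by
  obtain ⟨h1, h2⟩ := TQ_prop hs
  rcases h2 with h2 | ⟨r, hr, h2⟩
  · rw [h2]; exact one_ne_zero
  · rw [h2]
    refine mul_ne_zero ?_ (hR r hr).ne_zero
    rcases h1 with h1 | h1
    · rw [h1]; exact one_ne_zero
    · exact h1.1.1.ne_zero

lemma TQ_le {R : Finset ℕ} {z : ℕ} {s : Bool × ℕ × ℕ} (hs : s ∈ TQ t c R z) :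
    s.2.1 ≤ wM R z := by
  obtain ⟨h1, h2⟩ := TQ_prop hs
  unfold wM
  rcases h2 with h2 | ⟨r, hr, h2⟩
  · rw [h2]
    exact Nat.mul_pos (by omega) (by omega)
  · rw [h2]
    refine Nat.mul_le_mul ?_ ?_
    · rcases h1 with h1 | h1
      · omega
      · omega
    · have : r ≤ ∑ r ∈ R, r := Finset.single_le_sum (f := fun r : ℕ => r) (fun i _ => Nat.zero_le i) hr
      omega

lemma TQ_one (R : Finset ℕ) (z : ℕ) : ((false, 1, 1) : Bool × ℕ × ℕ) ∈ TQ t c R z := by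
  unfold TQ
  simp

lemma TQ_mem {R : Finset ℕ} {z p : ℕ} (hp : p ∈ PP t c z) {s : Bool × ℕ × ℕ} (h : s ∈ T4 R p) :
    s ∈ TQ t c R z := by
  unfold TQ
  rw [mem_union, mem_biUnion]
  exact Or.inr ⟨p, hp, h⟩

lemma lam_two {p r a : ℕ} (hp : p.Prime) (hr : r.Prime) (ha : a ≠ 0) :
    lam (a * (p * r)) = lam a := by
  rw [lam_mul ha (mul_ne_zero hp.ne_zero hr.ne_zero), lam_mul hp.ne_zero hr.ne_zero,
    lam_prime hp, lam_prime hr]
  ring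

/-- every triple has a type -/
lemma exists_type {q₀ : ℕ} {c₀ : ℤ} (hM : Md t c q₀) (hG : Gc q₀ c₀) {R : Finset ℕ} {z : ℕ}
    (hR : ∀ r ∈ R, r.Prime ∧ z < r) {e : Tr} (he : TrOk t c e) (hcl : Cl q₀ c₀ e)
    (hsq : ¬ ∃ l : ℕ, l.Prime ∧ z < l ∧ l ^ 2 ∣ NT e) (hr1 : ∃ r ∈ R, r ∣ e.1)
    (hr2 : ∃ r ∈ R, r ∣ e.2.2) :
    ∃ s ∈ TQ t c R z, ∃ e', Tm s.1 s.2.1 e e' ∧ lam e'.1 = lam e.1 ∧ lam e'.2.2 = lam e.2.2 ∧
      ((s.2.2 = 1 ∧ exc (NT e) = 0) ∨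
        (s.2.2.Prime ∧ s.2.2 ∣ e'.1 ∧ s.2.2 ∣ e'.2.2)) := by
  have hN := NT_ne_zero he
  by_cases hex : exc (NT e) = 0
  · refine ⟨(false, 1, 1), TQ_one R z, e, ?_, rfl, rfl, Or.inl ⟨rfl, hex⟩⟩
    unfold Tm
    simp
  · rw [exc_eq_zero hN, Nat.squarefree_iff_prime_squarefree] at hex
    push Not at hex
    obtain ⟨p, hp, hpp⟩ := hex
    rw [← sq] at hpp
    have hpz : p ≤ z := by
      by_contra hcon
      exact hsq ⟨p, hp, by omega, hpp⟩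
    have hspl := (spl_of_sq hM hG he hcl hp hpp).1
    have hpP : p ∈ PP t c z := mem_PP.2 ⟨hspl, hpz⟩
    have hpN : p ∣ e.1 * e.2.2 := (dvd_pow_self p two_ne_zero).trans hpp
    have hpp' : p ^ 2 ∣ e.1 * e.2.2 := hpp
    have hcop : ∀ r ∈ R, Nat.Coprime p r := by
      intro r hr
      refine (Nat.coprime_primes hp (hR r hr).1).2 ?_
      have := (hR r hr).2
      omega
    by_cases h1 : p ∣ e.1
    · by_cases h2 : p ∣ e.2.2
      · refine ⟨(false, 1, p), TQ_mem hpP (by unfold T4; simp), e, ?_, rfl, rfl,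
          Or.inr ⟨hp, h1, h2⟩⟩
        unfold Tm
        simp
      · have hsq1 : p ^ 2 ∣ e.1 := by
          have hc : Nat.Coprime (p ^ 2) e.2.2 :=
            Nat.Coprime.pow_left 2 ((Nat.Prime.coprime_iff_not_dvd hp).2 h2)
          exact hc.dvd_of_dvd_mul_right hpp'
        obtain ⟨r, hr, hrd⟩ := hr1
        have hrp := (hR r hr).1
        have hprd : p ^ 2 * r ∣ e.1 :=
          Nat.Coprime.mul_dvd_of_dvd_of_dvd (Nat.Coprime.pow_left 2 (hcop r hr)) hsq1 hrd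
        obtain ⟨a, ha⟩ := hprd
        have ha0 : a ≠ 0 := by
          rintro rfl
          rw [mul_zero] at ha
          have := he.1
          omega
        have hB0 : e.2.2 ≠ 0 := by have := he.2.1; omega
        refine ⟨(false, p * r, p), TQ_mem hpP ?_, (p * a, e.2.1, e.2.2 * (p * r)), ?_, ?_, ?_,
          Or.inr ⟨hp, Dvd.intro _ rfl, ?_⟩⟩
        · unfold T4
          rw [mem_union, mem_union, mem_image]
          exact Or.inr (Or.inl ⟨r, hr, rfl⟩)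
        · unfold Tm
          simp only [Bool.false_eq_true, if_false]
          exact ⟨trivial, by rw [ha]; ring, trivial⟩
        · simp only
          rw [ha]
          have e1 : p ^ 2 * r * a = (p * a) * (p * r) := by ring
          rw [e1, lam_two hp hrp (mul_ne_zero hp.ne_zero ha0)]
        · exact lam_two hp hrp hB0
        · exact (Dvd.intro _ rfl).trans (Dvd.intro_left _ rfl)
    · have h2 : p ∣ e.2.2 := by
        rcases (Nat.Prime.dvd_mul hp).1 hpN with h | h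
        · exact absurd h h1
        · exact h
      have hsq2 : p ^ 2 ∣ e.2.2 := by
        have hc : Nat.Coprime (p ^ 2) e.1 :=
          Nat.Coprime.pow_left 2 ((Nat.Prime.coprime_iff_not_dvd hp).2 h1)
        exact hc.dvd_of_dvd_mul_left hpp'
      obtain ⟨r, hr, hrd⟩ := hr2
      have hrp := (hR r hr).1
      have hprd : p ^ 2 * r ∣ e.2.2 :=
        Nat.Coprime.mul_dvd_of_dvd_of_dvd (Nat.Coprime.pow_left 2 (hcop r hr)) hsq2 hrd
      obtain ⟨a, ha⟩ := hprd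
      have ha0 : a ≠ 0 := by
        rintro rfl
        rw [mul_zero] at ha
        have := he.2.1
        omega
      have hA0 : e.1 ≠ 0 := by have := he.1; omega
      refine ⟨(true, p * r, p), TQ_mem hpP ?_, (e.1 * (p * r), e.2.1, p * a), ?_, ?_, ?_,
        Or.inr ⟨hp, ?_, Dvd.intro _ rfl⟩⟩
      · unfold T4
        rw [mem_union, mem_union, mem_image, mem_image]
        exact Or.inr (Or.inr ⟨r, hr, rfl⟩)
      · unfold Tm
        simp only [if_true]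
        exact ⟨trivial, trivial, by rw [ha]; ring⟩
      · exact lam_two hp hrp hA0
      · simp only
        rw [ha]
        have e1 : p ^ 2 * r * a = (p * a) * (p * r) := by ring
        rw [e1, lam_two hp hrp (mul_ne_zero hp.ne_zero ha0)]
      · exact (Dvd.intro _ rfl).trans (Dvd.intro_left _ rfl)

/-! ### sizes -/

/-- the size of `2 n + t` -/
lemma mid_le {e : Tr} {Y : ℝ} (he : TrOk t c e) (hY : 1 ≤ Y) (h1 : (e.1 : ℝ) ≤ Y)
    (h2 : (e.2.2 : ℝ) ≤ Y) :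
    ((2 * e.2.1 + t : ℤ) : ℝ) ≤ (4 + (t ^ 2 - 4 * c).natAbs) * Y := by
  set D : ℕ := (t ^ 2 - 4 * c).natAbs with hD
  have hd : (2 * e.2.1 + t) ^ 2 = 4 * ((e.1 : ℤ) * e.2.2) + (t ^ 2 - 4 * c) := by
    rw [he.2.2.1]; unfold Qp; ring
  have hdR : ((2 * e.2.1 + t : ℤ) : ℝ) ^ 2 ≤ 4 * (Y * Y) + D := by
    have e1 : ((2 * e.2.1 + t : ℤ) : ℝ) ^ 2 = 4 * ((e.1 : ℝ) * e.2.2) + ((t ^ 2 - 4 * c : ℤ) : ℝ) := by
      exact_mod_cast hd
    have e2 : ((t ^ 2 - 4 * c : ℤ) : ℝ) ≤ D := by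
      have : (t ^ 2 - 4 * c) ≤ ((D : ℕ) : ℤ) := by
        rw [hD]; exact Int.le_natAbs
      exact_mod_cast this
    have e3 : (e.1 : ℝ) * e.2.2 ≤ Y * Y := by
      have : (0 : ℝ) ≤ e.1 := by positivity
      have : (0 : ℝ) ≤ e.2.2 := by positivity
      gcongr
    linarith
  have e0 : (0 : ℝ) ≤ D := by positivity
  have e1 : ((2 * e.2.1 + t : ℤ) : ℝ) ^ 2 ≤ ((4 + D) * Y) ^ 2 := by
    refine hdR.trans ?_
    have : (D : ℝ) ≤ D * (Y * Y) := by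
      have : (1 : ℝ) ≤ Y * Y := by nlinarith
      nlinarith
    have e5 : ((4 + (D : ℝ)) * Y) ^ 2 = (16 + 8 * D + D * D) * (Y * Y) := by ring
    rw [e5]
    have : (0 : ℝ) ≤ Y * Y := by positivity
    have : (0 : ℝ) ≤ D * (Y * Y) := by positivity
    have : (0 : ℝ) ≤ D * D * (Y * Y) := by positivity
    nlinarith
  have e2 : (0 : ℝ) ≤ (4 + D) * Y := by positivity
  exact le_of_sq_le_sq e1 e2

lemma D1_le {e : Tr} {Y : ℝ} (he : TrOk t c e) (hY : 1 ≤ Y) (h1 : (e.1 : ℝ) ≤ Y)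
    (h2 : (e.2.2 : ℝ) ≤ Y) {j : ℕ} (hj : 1 ≤ j) : ((D1 t j e : ℤ) : ℝ) ≤ Kn t c * j ^ 2 * Y := by
  have hm := mid_le he hY h1 h2
  set D : ℕ := (t ^ 2 - 4 * c).natAbs with hD
  have hK : ((Kn t c : ℕ) : ℝ) = 6 + D := by unfold Kn; push_cast; rfl
  have hj1 : (1 : ℝ) ≤ j := by exact_mod_cast hj
  have e1 : ((D1 t j e : ℤ) : ℝ) = e.1 + ((2 * e.2.1 + t : ℤ) : ℝ) * j + (j : ℝ) ^ 2 * e.2.2 := by
    unfold D1 MM
    push_cast
    ring
  rw [e1, hK]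
  have hjj : (j : ℝ) ≤ (j : ℝ) ^ 2 := by nlinarith
  have hD0 : (0 : ℝ) ≤ D := by positivity
  have k1 : ((2 * e.2.1 + t : ℤ) : ℝ) * j ≤ (4 + D) * Y * (j : ℝ) ^ 2 := by
    calc ((2 * e.2.1 + t : ℤ) : ℝ) * j ≤ (4 + D) * Y * j := by gcongr
      _ ≤ (4 + D) * Y * (j : ℝ) ^ 2 := by gcongr
  have k2 : (j : ℝ) ^ 2 * e.2.2 ≤ (j : ℝ) ^ 2 * Y := by gcongr
  have k3 : (e.1 : ℝ) ≤ Y * (j : ℝ) ^ 2 := by nlinarith
  nlinarith

lemma D2_le {e : Tr} {Y : ℝ} (he : TrOk t c e) (h1 : (e.1 : ℝ) ≤ Y)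
    (h2 : (e.2.2 : ℝ) ≤ Y) {y : ℕ} (hy : 1 ≤ y) : ((D2 t y e : ℤ) : ℝ) ≤ Kn t c * y ^ 2 * Y := by
  set D : ℕ := (t ^ 2 - 4 * c).natAbs with hD
  have hK : ((Kn t c : ℕ) : ℝ) = 6 + D := by unfold Kn; push_cast; rfl
  have hy1 : (1 : ℝ) ≤ y := by exact_mod_cast hy
  have hs : (0 : ℝ) ≤ ((2 * e.2.1 + t : ℤ) : ℝ) := by exact_mod_cast he.2.2.2
  have hY0 : 0 ≤ Y := le_trans (Nat.cast_nonneg _) h1
  have e1 : ((D2 t y e : ℤ) : ℝ) = e.2.2 - ((2 * e.2.1 + t : ℤ) : ℝ) * y + (y : ℝ) ^ 2 * e.1 := by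
    unfold D2 MM
    push_cast
    ring
  rw [e1, hK]
  have hD0 : (0 : ℝ) ≤ D := by positivity
  have hyy : 1 ≤ (y : ℝ) ^ 2 := by nlinarith
  have k1 : (0 : ℝ) ≤ ((2 * e.2.1 + t : ℤ) : ℝ) * y := by positivity
  have k2 : (y : ℝ) ^ 2 * e.1 ≤ (y : ℝ) ^ 2 * Y := by gcongr
  have k3 : (e.2.2 : ℝ) ≤ (y : ℝ) ^ 2 * Y := by nlinarith
  have k4 : 0 ≤ (y : ℝ) ^ 2 * Y := by positivity
  have k5 : 0 ≤ (D : ℝ) * ((y : ℝ) ^ 2 * Y) := by positivity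
  nlinarith

/-- the sizes of the new triples -/
lemma size_key {q j y : ℕ} {σ₁ σ₂ : Bool} {W X : ℝ} {e f₁ f₂ f₃ : Tr}
    (he : TrOk t c e) (h : Rz t q j y σ₁ σ₂ e f₁ f₂ f₃) (hj : 1 ≤ j) (hy : 1 ≤ y)
    (hf1 : TrOk t c f₁) (hf2 : TrOk t c f₂) (hf3 : TrOk t c f₃) (hX : 1 ≤ X) (hW : 1 ≤ W)
    (h1 : (e.1 : ℝ) ≤ W * X) (h2 : (e.2.2 : ℝ) ≤ W * X) :
    f₁ ∈ tri t c (Kn t c * q ^ 2 * W * X) (Kn t c * q ^ 2 * W * X) ∧
      f₂ ∈ tri t c (Kn t c * q ^ 2 * W * X) (Kn t c * q ^ 2 * W * X) ∧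
      f₃ ∈ tri t c (Kn t c * q ^ 2 * W * X) (Kn t c * q ^ 2 * W * X) := by
  set Y : ℝ := W * X with hY
  have hY1 : 1 ≤ Y := by nlinarith
  have d1 := D1_le he hY1 h1 h2 hj
  have d2 := D2_le he h1 h2 hy
  have hq := h.qjy
  have hjq : j ≤ q := by nlinarith
  have hyq : y ≤ q := by nlinarith
  have hq1 : 1 ≤ q := by omega
  have hjq' : (j : ℝ) ≤ q := by exact_mod_cast hjq
  have hyq' : (y : ℝ) ≤ q := by exact_mod_cast hyq
  have hq1' : (1 : ℝ) ≤ q := by exact_mod_cast hq1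
  have hKn : (1 : ℝ) ≤ Kn t c := by unfold Kn; push_cast; linarith [(Nat.cast_nonneg (t ^ 2 - 4 * c).natAbs : (0:ℝ) ≤ _)]
  have hY0 : 0 ≤ Y := by linarith
  have D1' : ((D1 t j e : ℤ) : ℝ) ≤ Kn t c * q ^ 2 * Y := d1.trans (by gcongr)
  have D2' : ((D2 t y e : ℤ) : ℝ) ≤ Kn t c * q ^ 2 * Y := d2.trans (by gcongr)
  have hYb : Y ≤ Kn t c * q ^ 2 * Y := by
    have : (1 : ℝ) ≤ Kn t c * (q : ℝ) ^ 2 := by
      have : (1 : ℝ) ≤ (q : ℝ) ^ 2 := by nlinarith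
      nlinarith
    nlinarith
  have c1 : (f₁.2.2 : ℝ) = ((D2 t y e : ℤ) : ℝ) := by exact_mod_cast congrArg (fun s : ℤ => (s : ℝ)) h.c1
  have a3 : (f₃.1 : ℝ) = ((D1 t j e : ℤ) : ℝ) := by exact_mod_cast congrArg (fun s : ℤ => (s : ℝ)) h.a3
  have a2 : (f₂.1 : ℝ) ≤ f₃.1 := by
    have : f₂.1 ≤ f₃.1 := by rw [← h.a2]; exact Nat.le_mul_of_pos_left _ hq1
    exact_mod_cast this
  have c2 : (f₂.2.2 : ℝ) ≤ f₁.2.2 := by
    have : f₂.2.2 ≤ f₁.2.2 := by rw [← h.c2]; exact Nat.le_mul_of_pos_left _ hq1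
    exact_mod_cast this
  have e6 : (Kn t c : ℝ) * q ^ 2 * W * X = Kn t c * q ^ 2 * Y := by rw [hY]; ring
  rw [mem_tri', mem_tri', mem_tri', e6]
  refine ⟨⟨hf1, ?_, ?_⟩, ⟨hf2, ?_, ?_⟩, ⟨hf3, ?_, ?_⟩⟩
  · rw [h.a1]; linarith
  · rw [c1]; exact D2'
  · rw [a3] at a2; linarith
  · rw [c1] at c2; linarith
  · rw [a3]; exact D1'
  · rw [h.c3]; linarith

end Pool.Agent.Y869.SQ
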