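import Pool.Agent.Y869.SQ.Prep

/-!
Project SQ (helper869): the resolution in a class.
-/

set_option autoImplicit false

namespace Pool.Agent.Y869.SQ

open Finset Filter
open Pool.Agent.H376R2.MR (lam)
open Pool.Agent.W78.GT
open Pool.Agent.W500.GT (TrOk mem_tri' NT_ne_zero NT_Qp Kn Tm Tm_inj Tm_NT Tm_ok Tm_tri B1 B2 PP
  mem_PP exc_eq_zero card_le_rel sum_PP_le prod_le_exp log_key exists_QQ)

variable {t c : ℤ}

/-- the image `(D₁, n + j d', d')` of a triple -/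
def shT (t : ℤ) (j : ℕ) (e : Tr) : Tr := ((D1 t j e).toNat, e.2.1 + j * e.2.2, e.2.2)

lemma shT_ok {e : Tr} (he : TrOk t c e) (j : ℕ) : TrOk t c (shT t j e) ∧
    ((shT t j e).1 : ℤ) = D1 t j e := by
  have h1 := D1_pos he j
  have e1 : ((D1 t j e).toNat : ℤ) = D1 t j e := Int.toNat_of_nonneg (by linarith)
  refine ⟨⟨?_, he.2.1, ?_, ?_⟩, e1⟩
  · show 1 ≤ (D1 t j e).toNat
    omega
  · show ((D1 t j e).toNat : ℤ) * e.2.2 = Qp t c (e.2.1 + j * e.2.2)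
    rw [e1, D1_mul he]
  · show 0 ≤ 2 * (e.2.1 + j * e.2.2) + t
    have := he.2.2.2
    have h2 : (0 : ℤ) ≤ (j : ℤ) * e.2.2 := by positivity
    linarith

lemma shT_inj {e f : Tr} (he : TrOk t c e) (hf : TrOk t c f) {j : ℕ}
    (h : shT t j e = shT t j f) : e = f := by
  have k1 : (shT t j e).2.2 = (shT t j f).2.2 := by rw [h]
  have k2 : (shT t j e).2.1 = (shT t j f).2.1 := by rw [h]
  have h1 : e.2.2 = f.2.2 := k1
  have h2 : e.2.1 + j * e.2.2 = f.2.1 + j * f.2.2 := k2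
  have h3 : (shT t j e).1 = (shT t j f).1 := by rw [h]
  have h4 : D1 t j e = D1 t j f := by
    rw [← (shT_ok he j).2, ← (shT_ok hf j).2, h3]
  have h5 : e.2.1 = f.2.1 := by rw [h1] at h2; linarith
  unfold D1 MM at h4
  rw [h1, h5] at h4
  have h6 : (e.1 : ℤ) = f.1 := by linarith
  exact Prod.ext (by exact_mod_cast h6) (Prod.ext h5 h1)

/-- the class of the new triples -/
lemma Cl_Rz {q₀ q j y : ℕ} {c₀ : ℤ} {σ₁ σ₂ : Bool} {e f₁ f₂ f₃ : Tr} (he : Cl q₀ c₀ e)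
    (h : Rz t q j y σ₁ σ₂ e f₁ f₂ f₃) (hj : q₀ ∣ j) (hy : q₀ ∣ y) :
    Cl q₀ c₀ f₁ ∧ Cl q₀ c₀ f₂ ∧ Cl q₀ c₀ f₃ := by
  have hj' : (q₀ : ℤ) ∣ (j : ℤ) := by exact_mod_cast hj
  have hy' : (q₀ : ℤ) ∣ (y : ℤ) := by exact_mod_cast hy
  have hq : (q : ℤ) = 1 + j * y := by exact_mod_cast h.qjy
  have k1 : (q₀ : ℤ) ∣ (f₃.1 : ℤ) - e.1 := by
    rw [h.a3]
    unfold D1 MM
    have : (e.1 : ℤ) + (2 * e.2.1 + t) * j + j ^ 2 * e.2.2 - e.1 =
      j * ((2 * e.2.1 + t) + j * e.2.2) := by ring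
    rw [this]
    exact hj'.mul_right _
  have k2 : (q₀ : ℤ) ∣ (f₁.2.2 : ℤ) - e.2.2 := by
    rw [h.c1]
    unfold D2 MM
    have : (e.2.2 : ℤ) + (2 * e.2.1 + t) * (-y) + (-y) ^ 2 * e.1 - e.2.2 =
      y * (-(2 * e.2.1 + t) + y * e.1) := by ring
    rw [this]
    exact hy'.mul_right _
  have k3 : (q₀ : ℤ) ∣ (f₂.1 : ℤ) - e.1 := by
    have e1 : (f₂.1 : ℤ) - e.1 = ((f₃.1 : ℤ) - e.1) - j * (y * f₂.1) := by
      rw [← h.a2]
      push_cast
      rw [hq]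
      ring
    rw [e1]
    exact dvd_sub k1 (hj'.mul_right _)
  have k4 : (q₀ : ℤ) ∣ (f₂.2.2 : ℤ) - e.2.2 := by
    have e1 : (f₂.2.2 : ℤ) - e.2.2 = ((f₁.2.2 : ℤ) - e.2.2) - j * (y * f₂.2.2) := by
      rw [← h.c2]
      push_cast
      rw [hq]
      ring
    rw [e1]
    exact dvd_sub k2 (hj'.mul_right _)
  have hprod : ∀ a b : ℤ, (q₀ : ℤ) ∣ a - e.1 → (q₀ : ℤ) ∣ b - e.2.2 → (q₀ : ℤ) ∣ a * b - c₀ := by
    intro a b ha hb
    have h0 : (q₀ : ℤ) ∣ (e.1 : ℤ) * e.2.2 - c₀ := by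
      have := he
      unfold Cl NT at this
      push_cast at this
      exact this
    have e1 : a * b - c₀ = (a - e.1) * b + e.1 * (b - e.2.2) + (e.1 * e.2.2 - c₀) := by ring
    rw [e1]
    exact dvd_add (dvd_add (ha.mul_right _) (hb.mul_left _)) h0
  refine ⟨?_, ?_, ?_⟩
  · have := hprod f₁.1 f₁.2.2 (by rw [h.a1, sub_self]; exact dvd_zero _) k2
    unfold Cl NT
    push_cast
    exact this
  · have := hprod f₂.1 f₂.2.2 k3 k4
    unfold Cl NT
    push_cast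
    exact this
  · have := hprod f₃.1 f₃.2.2 k1 (by rw [h.c3, sub_self]; exact dvd_zero _)
    unfold Cl NT
    push_cast
    exact this

/-- local analysis -/
lemma local_key {q₀ q j y z : ℕ} {c₀ : ℤ} {L : ℝ} {σ₁ σ₂ : Bool} {e f₁ f₂ f₃ : Tr}
    (hM : Md t c q₀) (hG : Gc q₀ c₀) (h : Rz t q j y σ₁ σ₂ e f₁ f₂ f₃)
    (h1 : TrOk t c f₁) (h2 : TrOk t c f₂) (h3 : TrOk t c f₃)
    (hc1 : Cl q₀ c₀ f₁) (hc2 : Cl q₀ c₀ f₂) (hc3 : Cl q₀ c₀ f₃)
    (hloc : Lo t c q₀ z (j, y) e)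
    (hmid : ∀ l : ℕ, Spl t c l → z < l → (l : ℝ) ≤ L → ¬ Bad t q j y l e)
    (hbig : ∀ l : ℕ, l.Prime → L < l → ¬ l ^ 2 ∣ NT f₁ ∧ ¬ l ^ 2 ∣ NT f₂ ∧ ¬ l ^ 2 ∣ NT f₃) :
    (∀ l : ℕ, l.Prime → l ∣ f₁.2.2 → ¬ l ∣ e.1 ∧ ¬ l ^ 2 ∣ f₁.2.2) ∧
    (∀ l : ℕ, l.Prime → l ∣ f₃.1 → ¬ l ∣ e.2.2 ∧ ¬ l ^ 2 ∣ f₃.1) ∧
    (∀ l : ℕ, l.Prime → l ∣ f₂.1 → ¬ l ∣ f₂.2.2) := by
  have d1 : ∀ m : ℕ, m ∣ f₁.2.2 ↔ (m : ℤ) ∣ D2 t y e := by
    intro m
    rw [← h.c1]
    exact Int.natCast_dvd_natCast.symm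
  have d3 : ∀ m : ℕ, m ∣ f₃.1 ↔ (m : ℤ) ∣ D1 t j e := by
    intro m
    rw [← h.a3]
    exact Int.natCast_dvd_natCast.symm
  refine ⟨?_, ?_, ?_⟩
  · intro l hl hld
    have main : ¬ (l ∣ e.1 ∨ l ^ 2 ∣ f₁.2.2) := by
      intro hcon
      have hsq : l ^ 2 ∣ NT f₁ := by
        unfold NT
        rcases hcon with h4 | h4
        · rw [h.a1, sq]
          exact mul_dvd_mul h4 hld
        · exact h4.mul_left _
      obtain ⟨hs, hn⟩ := spl_of_sq hM hG h1 hc1 hl hsq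
      by_cases hlz : l ≤ z
      · exact (hloc l hs hlz hn).2 ((d1 l).1 hld)
      · push Not at hlz
        by_cases hL : (l : ℝ) ≤ L
        · apply hmid l hs hlz hL
          rcases hcon with h4 | h4
          · exact Or.inr (Or.inr (Or.inr (Or.inl ⟨h4, (d1 l).1 hld⟩)))
          · refine Or.inr (Or.inr (Or.inl ?_))
            have := (d1 _).1 h4
            push_cast at this
            exact this
        · push Not at hL
          exact (hbig l hl hL).1 hsq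
    push Not at main
    exact main
  · intro l hl hld
    have main : ¬ (l ∣ e.2.2 ∨ l ^ 2 ∣ f₃.1) := by
      intro hcon
      have hsq : l ^ 2 ∣ NT f₃ := by
        unfold NT
        rcases hcon with h4 | h4
        · rw [h.c3, sq]
          exact mul_dvd_mul hld h4
        · exact h4.mul_right _
      obtain ⟨hs, hn⟩ := spl_of_sq hM hG h3 hc3 hl hsq
      by_cases hlz : l ≤ z
      · exact (hloc l hs hlz hn).1 ((d3 l).1 hld)
      · push Not at hlz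
        by_cases hL : (l : ℝ) ≤ L
        · apply hmid l hs hlz hL
          rcases hcon with h4 | h4
          · exact Or.inr (Or.inl ⟨(d3 l).1 hld, h4⟩)
          · refine Or.inl ?_
            have := (d3 _).1 h4
            push_cast at this
            exact this
        · push Not at hL
          exact (hbig l hl hL).2.2 hsq
    push Not at main
    exact main
  · intro l hl hl1 hl2
    have hsq : l ^ 2 ∣ NT f₂ := by
      unfold NT
      rw [sq]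
      exact mul_dvd_mul hl1 hl2
    obtain ⟨hs, hn⟩ := spl_of_sq hM hG h2 hc2 hl hsq
    have m3 : q * l ∣ f₃.1 := by rw [← h.a2]; exact mul_dvd_mul_left q hl1
    have m1 : q * l ∣ f₁.2.2 := by rw [← h.c2]; exact mul_dvd_mul_left q hl2
    by_cases hlz : l ≤ z
    · exact (hloc l hs hlz hn).1 ((d3 l).1 ((Dvd.intro_left _ rfl).trans m3))
    · push Not at hlz
      by_cases hL : (l : ℝ) ≤ L
      · apply hmid l hs hlz hL
        refine Or.inr (Or.inr (Or.inr (Or.inr ⟨?_, ?_⟩)))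
        · have := (d3 _).1 m3
          push_cast at this
          exact this
        · have := (d1 _).1 m1
          push_cast at this
          exact this
      · push Not at hL
        exact (hbig l hl hL).2.1 hsq

/-! ### the triples with `D₂ ≤ 0` -/

lemma D2_ne_zero (hns : ¬ IsSquare (t ^ 2 - 4 * c)) {e : Tr} (he : TrOk t c e) (y : ℤ) :
    D2 t y e ≠ 0 := by
  intro h0
  have h1 := D2_mul he y
  rw [h0, mul_zero] at h1
  apply hns
  refine ⟨2 * (e.2.1 - y * e.1) + t, ?_⟩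
  unfold Qp at h1
  linear_combination 4 * h1

/-- if `D₂ ≤ 0` then `d` and `n` are bounded -/
lemma D2_small (hns : ¬ IsSquare (t ^ 2 - 4 * c)) {e : Tr} (he : TrOk t c e) {y : ℕ}
    (h : D2 t y e ≤ 0) : e.1 ≤ (t ^ 2 - 4 * c).natAbs ∧
      |e.2.1| ≤ |t| + (2 * y + 1) * ((t ^ 2 - 4 * c).natAbs : ℤ) := by
  set D : ℤ := t ^ 2 - 4 * c with hD
  have h0 := D2_ne_zero hns he y
  have hneg : D2 t y e ≤ -1 := by omega
  have hmul := D2_mul he y
  have hA : (1 : ℤ) ≤ e.1 := by exact_mod_cast he.1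
  set m : ℤ := 2 * (e.2.1 - y * e.1) + t with hm
  have h4 : 4 * (e.1 : ℤ) * D2 t y e = m ^ 2 - D := by
    rw [hm, hD]
    unfold Qp at hmul
    linear_combination 4 * hmul
  have h5 : m ^ 2 + 4 * e.1 ≤ D := by nlinarith
  have hDpos : 0 ≤ D := by nlinarith
  have hDabs : (D.natAbs : ℤ) = D := by rw [Int.natCast_natAbs, abs_of_nonneg hDpos]
  have hm0 : 0 ≤ m ^ 2 := sq_nonneg m
  have hA2 : (e.1 : ℤ) ≤ D := by linarith
  have hmabs : |m| ≤ D := by
    rw [abs_le]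
    constructor <;> nlinarith
  constructor
  · have : (e.1 : ℤ) ≤ (D.natAbs : ℤ) := by rw [hDabs]; exact hA2
    exact_mod_cast this
  · rw [hDabs]
    have h6 : 2 * e.2.1 = m + 2 * y * e.1 - t := by rw [hm]; ring
    have h7 : |2 * e.2.1| ≤ |m| + 2 * y * e.1 + |t| := by
      rw [h6]
      have k1 := abs_sub (m + 2 * y * e.1) t
      have k2 := abs_add_le m (2 * y * e.1)
      have k3 : |(2 * y * e.1 : ℤ)| = 2 * y * e.1 := abs_of_nonneg (by positivity)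
      rw [k3] at k2
      linarith
    rw [abs_mul, abs_two] at h7
    have h8 : (2 * y * e.1 : ℤ) ≤ 2 * y * D := mul_le_mul_of_nonneg_left hA2 (by positivity)
    have h9 : 0 ≤ |t| := abs_nonneg t
    have h10 : 0 ≤ |e.2.1| := abs_nonneg _
    have h11 : (0 : ℤ) ≤ 2 * y * D := by positivity
    nlinarith

open scoped Classical in
/-- boundedly many triples have bounded `d` and `n` -/
lemma card_small (M N : ℕ) (s : Finset Tr) (hs : ∀ e ∈ s, TrOk t c e ∧ e.1 ≤ M ∧ |e.2.1| ≤ (N : ℤ)) :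
    s.card ≤ (M + 1) * (2 * N + 1) := by
  have h1 : s.card ≤ ((range (M + 1)) ×ˢ (Icc (-(N : ℤ)) N)).card := by
    apply card_le_card_of_injOn (fun e => (e.1, e.2.1))
    · intro e he
      obtain ⟨h1, h2, h3⟩ := hs e he
      rw [mem_coe, mem_product, mem_range, Finset.mem_Icc]
      exact ⟨by simp only; omega, abs_le.1 h3⟩
    · intro e he f hf hef
      obtain ⟨h1, h2⟩ := Prod.mk.inj hef
      exact ok_ext (hs e he).1 (hs f hf).1 h1 h2
  refine h1.trans (le_of_eq ?_)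
  rw [card_product, card_range, Int.card_Icc]
  congr 1
  omega

end Pool.Agent.Y869.SQ
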