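import Pool.Agent.Y869.SQ.Rest

/-!
Project SQ (helper869): the exceptional sets.
-/

set_option autoImplicit false

namespace Pool.Agent.Y869.SQ

open Finset Filter
open Pool.Agent.H376R2.MR (lam)
open Pool.Agent.W78.GT
open Pool.Agent.W500.GT (TrOk mem_tri' NT_ne_zero NT_Qp Kn Tm Tm_inj Tm_NT Tm_ok Tm_tri B1 B2 PP
  mem_PP exc_eq_zero card_le_rel sum_PP_le prod_le_exp log_key exists_QQ)

variable {t c : ℤ}

lemma B1_le {k : Bool} {w wm : ℕ} (hw : 1 ≤ w) (hwm : w ≤ wm) {X : ℝ} (hX : 0 ≤ X) :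
    B1 k w X ≤ wm * X := by
  have h1 : (1 : ℝ) ≤ w := by exact_mod_cast hw
  have h2 : (w : ℝ) ≤ wm := by exact_mod_cast hwm
  unfold B1
  split_ifs
  · rw [mul_comm]; gcongr
  · rw [div_le_iff₀ (by linarith)]
    calc X = 1 * X * 1 := by ring
      _ ≤ wm * X * w := by
        have : (1 : ℝ) ≤ wm := h1.trans h2
        gcongr

lemma B2_le {k : Bool} {w wm : ℕ} (hw : 1 ≤ w) (hwm : w ≤ wm) {X : ℝ} (hX : 0 ≤ X) :
    B2 k w X ≤ wm * X := by
  have h1 : (1 : ℝ) ≤ w := by exact_mod_cast hw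
  have h2 : (w : ℝ) ≤ wm := by exact_mod_cast hwm
  unfold B2
  split_ifs
  · rw [div_le_iff₀ (by linarith)]
    calc X = 1 * X * 1 := by ring
      _ ≤ wm * X * w := by
        have : (1 : ℝ) ≤ wm := h1.trans h2
        gcongr
  · rw [mul_comm]; gcongr

open scoped Classical in
/-- few triples whose image has a vertex in a small set -/
lemma card_G3 {C3 κ X K v : ℝ} {wm : ℕ} (hvet : ∀ (κ X : ℝ) (V : Finset (ℕ × ℤ)), 0 < κ → κ ≤ 1 →
    1 ≤ X → V ⊆ rts t c X → (((tri t c X X).filter (fun e => vx e ∈ V ∨ vy e ∈ V)).card : ℝ) ≤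
      C3 * (κ * X + (V.card : ℝ) / κ))
    (hκ : 0 < κ) (hκ1 : κ ≤ 1) (hX : 1 ≤ X) (hC3 : 0 ≤ C3) {R : Finset ℕ}
    (hR : ∀ r ∈ R, r.Prime) {z : ℕ} (hwm : wM R z = wm) {q₀ z' : ℕ}
    (hK : K = Kn t c * (2 * JJ q₀ z') ^ 2 * wm) (cl : Tr → ℕ × ℕ) (hcl : ∀ e, cl e ∈ RJ q₀ z')
    (V : ℕ × ℕ → Finset (ℕ × ℤ)) (hV : ∀ r, V r ⊆ rts t c (K * X))
    (hv : ∀ r ∈ RJ q₀ z', ((V r).card : ℝ) ≤ v) :
    (((tri t c X X).filter (fun e => ∃ s ∈ TQ t c R z, ∃ e', Tm s.1 s.2.1 e e' ∧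
      vx (shT t (cl e').1 e') ∈ V (cl e'))).card : ℝ) ≤
      ((TQ t c R z).card * (RJ q₀ z').card : ℝ) * (C3 * (κ * (K * X) + v / κ)) := by
  have hX0 : 0 ≤ X := by linarith
  have hwm1 : 1 ≤ wm := by
    rw [← hwm]
    unfold wM
    exact Nat.mul_pos (by omega) (by omega)
  have hwm1' : (1 : ℝ) ≤ wm := by exact_mod_cast hwm1
  have hKn : (1 : ℝ) ≤ Kn t c := by
    unfold Kn
    push_cast
    linarith [(Nat.cast_nonneg (t ^ 2 - 4 * c).natAbs : (0:ℝ) ≤ _)]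
  set G := fun (s : Bool × ℕ × ℕ) (r : ℕ × ℕ) => (tri t c X X).filter (fun e =>
    ∃ e', Tm s.1 s.2.1 e e' ∧ vx (shT t r.1 e') ∈ V r) with hG
  have hone : ∀ s ∈ TQ t c R z, ∀ r ∈ RJ q₀ z', ((G s r).card : ℝ) ≤
      C3 * (κ * (K * X) + v / κ) := by
    intro s hs r hr
    obtain ⟨⟨g1, g1'⟩, g2, -⟩ := mem_RJ.1 hr
    have hw := TQ_ne_zero hR hs
    have hwle := TQ_le hs
    rw [hwm] at hwle
    have hr1 : (1 : ℝ) ≤ r.1 := by exact_mod_cast g2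
    have hr2 : (r.1 : ℝ) ≤ 2 * JJ q₀ z' := by exact_mod_cast g1.le
    have hJ1 : (1 : ℝ) ≤ (2 * JJ q₀ z' : ℝ) := hr1.trans hr2
    have hKX : 1 ≤ K * X := by
      rw [hK]
      have : (1 : ℝ) ≤ (Kn t c : ℝ) * (2 * JJ q₀ z') ^ 2 * wm := by
        have h1 : (1 : ℝ) ≤ (2 * JJ q₀ z' : ℝ) ^ 2 := one_le_pow₀ hJ1
        have h2 : (1 : ℝ) ≤ (Kn t c : ℝ) * (2 * JJ q₀ z' : ℝ) ^ 2 := by nlinarith
        nlinarith
      nlinarith
    have h1 := card_le_rel (G s r) ((tri t c (K * X) (K * X)).filter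
      (fun e => vx e ∈ V r ∨ vy e ∈ V r))
      (fun e f => TrOk t c e ∧ ∃ e', Tm s.1 s.2.1 e e' ∧ f = shT t r.1 e') (by
      intro e he
      rw [hG, mem_filter] at he
      obtain ⟨he1, e', hT, hv'⟩ := he
      have hok := (mem_tri'.1 he1).1
      have hok' := Tm_ok hT hok
      have he' := Tm_tri hw hT he1
      rw [mem_tri'] at he'
      have b1 := he'.2.1.trans (B1_le (k := s.1) (Nat.one_le_iff_ne_zero.2 hw) hwle hX0)
      have b2 := he'.2.2.trans (B2_le (k := s.1) (Nat.one_le_iff_ne_zero.2 hw) hwle hX0)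
      have hwX : (1 : ℝ) ≤ wm * X := by nlinarith
      have hd := D1_le hok' hwX b1 b2 g2
      obtain ⟨k1, k2⟩ := shT_ok hok' r.1
      refine ⟨shT t r.1 e', ?_, hok, e', hT, rfl⟩
      rw [mem_filter]
      refine ⟨mem_tri'.2 ⟨k1, ?_, ?_⟩, Or.inl hv'⟩
      · have : ((shT t r.1 e').1 : ℝ) = ((D1 t r.1 e' : ℤ) : ℝ) := by
          exact_mod_cast congrArg (fun s : ℤ => (s : ℝ)) k2
        rw [this, hK]
        refine hd.trans ?_
        have h2 : (r.1 : ℝ) ^ 2 ≤ (2 * JJ q₀ z' : ℝ) ^ 2 := by gcongr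
        calc (Kn t c : ℝ) * (r.1 : ℝ) ^ 2 * (wm * X)
            ≤ Kn t c * (2 * JJ q₀ z' : ℝ) ^ 2 * (wm * X) := by gcongr
          _ = Kn t c * (2 * JJ q₀ z') ^ 2 * wm * X := by ring
      · have : ((shT t r.1 e').2.2 : ℝ) = e'.2.2 := rfl
        rw [this, hK]
        refine b2.trans ?_
        have h1 : (1 : ℝ) ≤ (2 * JJ q₀ z' : ℝ) ^ 2 := one_le_pow₀ hJ1
        have h2 : (1 : ℝ) ≤ (Kn t c : ℝ) * (2 * JJ q₀ z' : ℝ) ^ 2 := by nlinarith
        calc (wm : ℝ) * X = 1 * (wm * X) := by ring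
          _ ≤ (Kn t c * (2 * JJ q₀ z' : ℝ) ^ 2) * (wm * X) := by gcongr
          _ = Kn t c * (2 * JJ q₀ z') ^ 2 * wm * X := by ring) (by
      rintro a a' b ⟨ha, e1, h1, h2⟩ ⟨ha', e2, h3, h4⟩
      have h5 := shT_inj (Tm_ok h1 ha) (Tm_ok h3 ha') (h2.symm.trans h4)
      rw [← h5] at h3
      exact Tm_inj hw h1 h3)
    have h2 := hvet κ (K * X) (V r) hκ hκ1 hKX (hV r)
    refine (Nat.cast_le.2 h1).trans (h2.trans ?_)
    have h3 := hv r hr
    gcongr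
  have hsub : (tri t c X X).filter (fun e => ∃ s ∈ TQ t c R z, ∃ e', Tm s.1 s.2.1 e e' ∧
      vx (shT t (cl e').1 e') ∈ V (cl e')) ⊆
      (TQ t c R z).biUnion (fun s => (RJ q₀ z').biUnion (fun r => G s r)) := by
    intro e he
    rw [mem_filter] at he
    obtain ⟨he1, s, hs, e', hT, hv'⟩ := he
    rw [mem_biUnion]
    refine ⟨s, hs, ?_⟩
    rw [mem_biUnion]
    refine ⟨cl e', hcl e', ?_⟩
    rw [hG, mem_filter]
    exact ⟨he1, e', hT, hv'⟩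
  have h1 : (((tri t c X X).filter (fun e => ∃ s ∈ TQ t c R z, ∃ e', Tm s.1 s.2.1 e e' ∧
      vx (shT t (cl e').1 e') ∈ V (cl e'))).card : ℝ) ≤
      ∑ s ∈ TQ t c R z, ∑ r ∈ RJ q₀ z', ((G s r).card : ℝ) := by
    have : ((tri t c X X).filter (fun e => ∃ s ∈ TQ t c R z, ∃ e', Tm s.1 s.2.1 e e' ∧
      vx (shT t (cl e').1 e') ∈ V (cl e'))).card ≤
      ∑ s ∈ TQ t c R z, ∑ r ∈ RJ q₀ z', (G s r).card :=
      (card_le_card hsub).trans (card_biUnion_le.trans (sum_le_sum fun s _ => card_biUnion_le))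
    exact_mod_cast this
  refine h1.trans ?_
  calc ∑ s ∈ TQ t c R z, ∑ r ∈ RJ q₀ z', ((G s r).card : ℝ)
      ≤ ∑ s ∈ TQ t c R z, ∑ r ∈ RJ q₀ z', C3 * (κ * (K * X) + v / κ) :=
        sum_le_sum fun s hs => sum_le_sum fun r hr => hone s hs r hr
    _ = _ := by
        rw [sum_const, sum_const, nsmul_eq_mul, nsmul_eq_mul]
        ring

open scoped Classical in
/-- the exceptional set of `S_EXC3` -/
noncomputable def EX (t c : ℤ) (z : ℕ) (Q : Tr → Finset ℕ) (J : Tr → ℕ) (A : ℕ) (X X₁ X₂ : ℝ)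
    (p : ℕ) : Finset Tr :=
  (tri t c X₁ X₂).filter (fun e => (p ∣ e.1 ∧ p ∣ e.2.2) ∧
      ∃ q ∈ Q e, (q : ℤ) ∣ D1 t (J e) e ∧ ∃ y : ℕ, q = 1 + J e * y ∧
        ∃ l : ℕ, Spl t c l ∧ z < l ∧ (l : ℝ) ≤ Real.log X ^ A ∧ Bad t q (J e) y l e)

open scoped Classical in
/-- few triples with a bad image -/
lemma card_G4 {z z' : ℕ} {Q : Tr → Finset ℕ} {J : Tr → ℕ} {A : ℕ} {X b : ℝ} (hb : 0 ≤ b)
    {R : Finset ℕ} (hR : ∀ r ∈ R, r.Prime)
    (h : ∀ s ∈ TQ t c R z', ((EX t c z Q J A X (B1 s.1 s.2.1 X) (B2 s.1 s.2.1 X) s.2.2).card : ℝ) ≤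
      b / (s.2.2 : ℝ) ^ 2) :
    (((tri t c X X).filter (fun e => ∃ s ∈ TQ t c R z', ∃ e', Tm s.1 s.2.1 e e' ∧
      e' ∈ EX t c z Q J A X (B1 s.1 s.2.1 X) (B2 s.1 s.2.1 X) s.2.2)).card : ℝ) ≤
      (2 * R.card + 2) * b := by
  set G : Bool × ℕ × ℕ → Finset Tr := fun s =>
    (tri t c X X).filter (fun e => ∃ e', Tm s.1 s.2.1 e e' ∧
      e' ∈ EX t c z Q J A X (B1 s.1 s.2.1 X) (B2 s.1 s.2.1 X) s.2.2) with hG
  have hRc : ∀ s ∈ TQ t c R z', ((G s).card : ℝ) ≤ b / (s.2.2 : ℝ) ^ 2 := by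
    intro s hs
    refine le_trans ?_ (h s hs)
    have := card_le_rel (G s) (EX t c z Q J A X (B1 s.1 s.2.1 X) (B2 s.1 s.2.1 X) s.2.2)
      (fun e e' => Tm s.1 s.2.1 e e') ?_ ?_
    · exact_mod_cast this
    · intro e he
      rw [hG, mem_filter] at he
      obtain ⟨_, e', h1, h2⟩ := he
      exact ⟨e', h2, h1⟩
    · intro a a' b hab hab'
      exact Tm_inj (TQ_ne_zero hR hs) hab hab'
  have hsub : (tri t c X X).filter (fun e => ∃ s ∈ TQ t c R z', ∃ e', Tm s.1 s.2.1 e e' ∧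
      e' ∈ EX t c z Q J A X (B1 s.1 s.2.1 X) (B2 s.1 s.2.1 X) s.2.2) ⊆
      G (false, 1, 1) ∪ (PP t c z').biUnion (fun p => (T4 R p).biUnion G) := by
    intro e he
    rw [mem_filter] at he
    obtain ⟨he, s, hs, e', hT, hE⟩ := he
    have hRt : e ∈ G s := by
      rw [hG, mem_filter]
      exact ⟨he, e', hT, hE⟩
    unfold TQ at hs
    rw [mem_union, mem_singleton, mem_biUnion] at hs
    rw [mem_union, mem_biUnion]
    rcases hs with rfl | ⟨p, hp, hs⟩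
    · exact Or.inl hRt
    · refine Or.inr ⟨p, hp, ?_⟩
      rw [mem_biUnion]
      exact ⟨s, hs, hRt⟩
  have h1 : (((tri t c X X).filter (fun e => ∃ s ∈ TQ t c R z', ∃ e', Tm s.1 s.2.1 e e' ∧
      e' ∈ EX t c z Q J A X (B1 s.1 s.2.1 X) (B2 s.1 s.2.1 X) s.2.2)).card : ℝ) ≤
      (G (false, 1, 1)).card + ∑ p ∈ PP t c z', ∑ s ∈ T4 R p, ((G s).card : ℝ) := by
    have h2 := (Finset.card_le_card hsub).trans (Finset.card_union_le _ _)
    have h3 : ((PP t c z').biUnion (fun p => (T4 R p).biUnion G)).card ≤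
        ∑ p ∈ PP t c z', ∑ s ∈ T4 R p, (G s).card :=
      Finset.card_biUnion_le.trans (Finset.sum_le_sum fun p _ => Finset.card_biUnion_le)
    have h4 := h2.trans (Nat.add_le_add_left h3 _)
    exact_mod_cast h4
  have h2 : ((G (false, 1, 1)).card : ℝ) ≤ b := by
    have := hRc _ (TQ_one R z')
    simpa using this
  have h3 : ∑ p ∈ PP t c z', ∑ s ∈ T4 R p, ((G s).card : ℝ) ≤ (2 * R.card + 1) * b := by
    calc ∑ p ∈ PP t c z', ∑ s ∈ T4 R p, ((G s).card : ℝ)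
        ≤ ∑ p ∈ PP t c z', (2 * R.card + 1) * (b * (1 / (p : ℝ) ^ 2)) := by
          apply Finset.sum_le_sum
          intro p hp
          calc ∑ s ∈ T4 R p, ((G s).card : ℝ) ≤ ∑ s ∈ T4 R p, b * (1 / (p : ℝ) ^ 2) := by
                apply Finset.sum_le_sum
                intro s hs
                have := hRc s (TQ_mem hp hs)
                rw [(mem_T4 hs).1] at this
                rw [mul_one_div]
                exact this
            _ = (T4 R p).card * (b * (1 / (p : ℝ) ^ 2)) := by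
                rw [Finset.sum_const, nsmul_eq_mul]
            _ ≤ (2 * R.card + 1) * (b * (1 / (p : ℝ) ^ 2)) := by
                gcongr
                exact_mod_cast T4_card R p
      _ = (2 * R.card + 1) * b * ∑ p ∈ PP t c z', 1 / (p : ℝ) ^ 2 := by
          rw [Finset.mul_sum]
          apply Finset.sum_congr rfl
          intro p _
          ring
      _ ≤ (2 * R.card + 1) * b * 1 := by
          gcongr
          exact sum_PP_le t c z'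
      _ = (2 * R.card + 1) * b := by ring
  linarith

open scoped Classical in
/-- few triples with a small image -/
lemma card_G5 (M N : ℕ) {X : ℝ} {R : Finset ℕ} (hR : ∀ r ∈ R, r.Prime) {z' : ℕ} :
    ((tri t c X X).filter (fun e => ∃ s ∈ TQ t c R z', ∃ e', Tm s.1 s.2.1 e e' ∧
      e'.1 ≤ M ∧ |e'.2.1| ≤ (N : ℤ))).card ≤ (TQ t c R z').card * ((M + 1) * (2 * N + 1)) := by
  set S := (tri t c X X).filter (fun e => ∃ s ∈ TQ t c R z', ∃ e', Tm s.1 s.2.1 e e' ∧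
      e'.1 ≤ M ∧ |e'.2.1| ≤ (N : ℤ)) with hS
  have h1 : S.card ≤ ((TQ t c R z') ×ˢ ((range (M + 1)) ×ˢ (Icc (-(N : ℤ)) N))).card := by
    refine card_le_rel S _ (fun e a => TrOk t c e ∧ a.1 ∈ TQ t c R z' ∧ ∃ e', Tm a.1.1 a.1.2.1 e e' ∧
      a.2 = (e'.1, e'.2.1)) ?_ ?_
    · intro e he
      rw [hS, mem_filter] at he
      obtain ⟨he, s, hs, e', hT, h1, h2⟩ := he
      refine ⟨(s, (e'.1, e'.2.1)), ?_, (mem_tri'.1 he).1, hs, e', hT, rfl⟩
      rw [mem_product, mem_product, mem_range, Finset.mem_Icc]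
      exact ⟨hs, by simp only; omega, abs_le.1 h2⟩
    · rintro a a' b ⟨ha, hb, e1, h1, h2⟩ ⟨ha', _, e2, h3, h4⟩
      have h5 := h2.symm.trans h4
      obtain ⟨h6, h7⟩ := Prod.mk.inj h5
      have h8 := ok_ext (Tm_ok h1 ha) (Tm_ok h3 ha') h6 h7
      rw [← h8] at h3
      exact Tm_inj (TQ_ne_zero hR hb) h1 h3
  refine h1.trans (le_of_eq ?_)
  rw [card_product, card_product, card_range, Int.card_Icc]
  congr 2
  omega

/-- the choice of the small constants -/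
lemma exists_z {C : ℝ} {a b ε : ℝ} (hC : 0 < C) (ha : 0 ≤ a) (hb : 0 ≤ b) (hε : 0 < ε) (z₁ : ℕ) :
    ∃ z : ℕ, z₁ ≤ z ∧ 5 ≤ z ∧ C * ((a + z * b) / (z * Real.log z)) ≤ ε := by
  obtain ⟨z, h1, h2, h3⟩ : ∃ z : ℕ, z₁ ≤ z ∧ 5 ≤ z ∧ C * (a + b) / ε ≤ Real.log z := by
    have t2 : Tendsto (fun z : ℕ => Real.log (z : ℝ)) atTop atTop :=
      Real.tendsto_log_atTop.comp tendsto_natCast_atTop_atTop
    have h := ((eventually_ge_atTop z₁).and (eventually_ge_atTop 5)).and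
      (t2.eventually_ge_atTop (C * (a + b) / ε))
    obtain ⟨z, ⟨h1, h2⟩, h3⟩ := h.exists
    exact ⟨z, h1, h2, h3⟩
  have hzR : (5 : ℝ) ≤ z := by exact_mod_cast h2
  have hlz : 0 < Real.log z := Real.log_pos (by linarith)
  refine ⟨z, h1, h2, ?_⟩
  rw [div_le_iff₀ hε] at h3
  rw [← mul_div_assoc, div_le_iff₀ (by positivity)]
  have h4 : a + z * b ≤ z * (a + b) := by nlinarith
  calc C * (a + z * b) ≤ C * (z * (a + b)) := by gcongr
    _ = z * (C * (a + b)) := by ring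
    _ ≤ z * (Real.log z * ε) := by gcongr
    _ = ε * (z * Real.log z) := by ring

end Pool.Agent.Y869.SQ
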